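import Pool.Agent.Q72.NW.PolyCase

/-!
The truncated inequality for all nonconstant entire curves.
-/

set_option autoImplicit false

namespace Pool.Agent.Q72.NW

open MvPolynomial FF MeasureTheory
open Pool.Agent.W603.LV Pool.Agent.W602.GT Pool.Agent.Q72.NA

/-- **The truncated inequality.** -/
theorem all_main {N n d : ℕ} (K : Type) [Field K] [Algebra ℂ K] (a : Fin (N + 1) → K)
    (hK : IntermediateField.adjoin ℂ {g : K | ∃ i j, a j ≠ 0 ∧ g = a i / a j} = ⊤)
    (f : Fin (n + 1) → MvPolynomial (Fin (N + 1)) ℂ) (e : ℕ) (he : 0 < e)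
    (hf : ∀ i, (f i).IsHomogeneous e)
    (hf0 : ∀ i, aeval a (f i) ≠ 0)
    (hcz : ∀ x ∈ Cone a, x ≠ 0 → ∃ i, eval x (f i) ≠ 0)
    (halg : Algebra.IsAlgebraic
      (IntermediateField.adjoin ℂ (Set.range fun i => aeval a (f i) / aeval a (f 0))) K)
    (hlgt : LogGeneralType ℂ K d fun P => ∃ i, P.ord (aeval a (f i)) ≠ P.ord (aeval a (f 0))) :
    ∃ (B : MvPolynomial (Fin (N + 1)) ℂ) (E : ℕ) (ε : ℝ), B.IsHomogeneous E ∧
      aeval a B ≠ 0 ∧ 0 < ε ∧
      ∀ w : ℂ → Fin (N + 1) → ℂ, Differentiable ℂ w → (∀ z, w z ≠ 0) → (∀ z, w z ∈ Cone a) →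
        (∃ z z', ∀ c : ℂ, w z ≠ c • w z') → (∃ z, eval (w z) B ≠ 0) → Out ε f w := by
  obtain ⟨B, E, ε, hB, hBa, hBf, hε, hmain⟩ := tr_main K a hK f e he hf hf0 hcz halg hlgt
  refine ⟨B, E, ε / 2, hB, hBa, by positivity, ?_⟩
  intro w hw hw0 hwS hnc hwB
  by_cases htr : Tra w
  · have h1 := hmain w hw hw0 hwS hwB htr
    obtain ⟨X, hX, hXr⟩ := h1
    obtain ⟨R0, hR0⟩ := htr 1
    obtain ⟨R1, hR1⟩ : ∃ R1, R1 = max (max 1 R0) (Real.exp (Real.log ‖w 0‖)) := ⟨_, rfl⟩
    refine ⟨X ∪ Set.Icc 0 R1, ?_, fun r hr hrX => ?_⟩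
    · refine lt_of_le_of_lt (measure_union_le _ _) ?_
      rw [Real.volume_Icc]
      exact ENNReal.add_lt_top.2 ⟨hX, ENNReal.ofReal_lt_top⟩
    · have h2 : r ∉ X := fun h => hrX (Or.inl h)
      have h3 : R1 < r := by
        by_contra h
        exact hrX (Or.inr ⟨hr.le, not_lt.1 h⟩)
      rw [hR1] at h3
      have h4 := hXr r hr h2
      have h5 : 1 ≤ r := ((le_max_left _ _).trans (le_max_left _ _)).trans h3.le
      have h6 := hR0 r (((le_max_right _ _).trans (le_max_left _ _)).trans h3.le)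
      have h7 : Real.log ‖w 0‖ ≤ Real.log r := by
        rw [Real.le_log_iff_exp_le (by linarith)]
        exact (le_max_right _ _).trans h3.le
      have h8 : Pool.Agent.Q72.TR.CharT w r = Pool.Agent.Q72.TR.Tm w r - Real.log ‖w 0‖ := rfl
      have h9 : 0 ≤ Pool.Agent.Q72.TR.CharT w r := by rw [h8]; linarith
      have h10 := mul_nonneg hε.le h9
      linarith
  · obtain ⟨u, p, hu, hu0, hp⟩ := rational hw hw0 htr
    have hwp : ∀ z, w z = u z • fun j => (p j).eval z := fun z => funext fun j => hp z j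
    have hne : ∀ i, ∃ y, eval (w y) (f i) ≠ 0 := by
      obtain ⟨z, hz⟩ := hwB
      exact fun i => ⟨z, hBf _ hz i⟩
    refine poly_case hf hw hw0 hnc hu hu0 hp hne hε fun htr' => ?_
    have hpv : ∀ z, (fun j => (p j).eval z) = (u z)⁻¹ • w z := by
      intro z
      rw [hwp, smul_smul, inv_mul_cancel₀ (hu0 z), one_smul]
    refine hmain _ (poly_diff p Complex.differentiable_exp) (fun z => ?_) (fun z => ?_) ?_ htr'
    · rw [hpv]
      exact smul_ne_zero (inv_ne_zero (hu0 _)) (hw0 _)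
    · rw [hpv]
      exact cone_smul (hwS _) _
    · obtain ⟨z, hz⟩ := hwB
      have h1 : ∀ z, (aeval p B : Polynomial ℂ).eval z = (u z)⁻¹ ^ E * eval (w z) B := by
        intro z
        rw [Pool.Agent.Q72.TR.eval_aeval_poly, hpv, eval_sm hB]
      have hq0 : (aeval p B : Polynomial ℂ) ≠ 0 := by
        intro h
        have h2 := h1 z
        rw [h, Polynomial.eval_zero] at h2
        exact mul_ne_zero (pow_ne_zero _ (inv_ne_zero (hu0 z))) hz h2.symm
      classical
      obtain ⟨ζ, hζ⟩ := Infinite.exists_notMem_finset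
        (insert 0 (aeval p B : Polynomial ℂ).roots.toFinset)
      rw [Finset.mem_insert, not_or, Multiset.mem_toFinset, Polynomial.mem_roots hq0] at hζ
      refine ⟨Complex.log ζ, ?_⟩
      rw [Complex.exp_log hζ.1, ← Pool.Agent.Q72.TR.eval_aeval_poly]
      exact hζ.2

end Pool.Agent.Q72.NW
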