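import Pool.Agent.Q72.NW.Mult
import Pool.Agent.Q72.NA.Alg

/-!
The inequality for pairs of log general type, with any boundary contained in the divisor.
-/

set_option autoImplicit false

namespace Pool.Agent.Q72.NW

open MvPolynomial FF MeasureTheory
open Pool.Agent.W603.LV Pool.Agent.W602.GT Pool.Agent.Q72.NA

theorem gen_main {N n d : ℕ} (K : Type) [Field K] [Algebra ℂ K] (a : Fin (N + 1) → K)
    (hK : IntermediateField.adjoin ℂ {g : K | ∃ i j, a j ≠ 0 ∧ g = a i / a j} = ⊤)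
    (f : Fin (n + 1) → MvPolynomial (Fin (N + 1)) ℂ) (e : ℕ) (he : 0 < e)
    (hf : ∀ i, (f i).IsHomogeneous e) (hf0 : ∀ i, aeval a (f i) ≠ 0)
    (hcz : ∀ x ∈ Cone a, x ≠ 0 → ∃ i, eval x (f i) ≠ 0) (Bd : Place ℂ K → Prop)
    (hBd : ∀ P, Bd P → ∃ i, P.ord (aeval a (f i)) ≠ P.ord (aeval a (f 0)))
    (hlgt : LogGeneralType ℂ K d Bd) :
    ∃ (B : MvPolynomial (Fin (N + 1)) ℂ) (E : ℕ) (ε : ℝ) (m : ℕ), B.IsHomogeneous E ∧
      aeval a B ≠ 0 ∧ 0 < ε ∧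
      ∀ w : ℂ → Fin (N + 1) → ℂ, Differentiable ℂ w → (∀ z, w z ≠ 0) → (∀ z, w z ∈ Cone a) →
        (∃ z z', ∀ c : ℂ, w z ≠ c • w z') → (∃ z, eval (w z) B ≠ 0) →
        Out ε f w ∧ ∃ i z, eval (w z) (f i) = 0 ∧
          analyticOrderAt (fun z => eval (w z) (f i)) z < m := by
  have halg := alg_of_nocommon hK f e he hf (hf0 0) hcz
  obtain ⟨B, E, ε, hB, hBa, hε, hmain⟩ := all_main K a hK f e he hf hf0 hcz halg
    (lgt_mono hBd hlgt)
  obtain ⟨m, hm⟩ := exists_nat_gt ((n + 2) * e / ε)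
  rw [div_lt_iff₀ hε, mul_comm (m : ℝ)] at hm
  refine ⟨B * ∏ i, f i, E + ∑ _i : Fin (n + 1), e, ε, m,
    hB.mul (IsHomogeneous.prod _ _ _ fun i _ => hf i), ?_, hε, ?_⟩
  · rw [map_mul, map_prod]
    exact mul_ne_zero hBa (Finset.prod_ne_zero_iff.2 fun i _ => hf0 i)
  · intro w hw hw0 hwS hnc hwB
    obtain ⟨z, hz⟩ := hwB
    rw [map_mul, map_prod] at hz
    have hne : ∀ i, ∃ y, eval (w y) (f i) ≠ 0 := fun i =>
      ⟨z, Finset.prod_ne_zero_iff.1 (right_ne_zero_of_mul hz) i (Finset.mem_univ i)⟩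
    have hout := hmain w hw hw0 hwS hnc ⟨z, left_ne_zero_of_mul hz⟩
    refine ⟨hout, ?_⟩
    by_contra hcon
    push Not at hcon
    refine mult_main hf hw hw0 hnc (fun z h => ?_) hne hε hout hm fun i z h => hcon i z h
    obtain ⟨i, hi⟩ := hcz (w z) (hwS z) (hw0 z)
    exact hi (congrFun h i)

end Pool.Agent.Q72.NW
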