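import Pool.Agent.Y192.OG.C6
import Pool.Agent.Q72.NW.C2

/-!
The theorem for curves in finite covers of subvarieties of tori: general form.
-/

set_option autoImplicit false

namespace Pool.Agent.Q72.NW

open Filter Metric Set Topology Pool.Agent.W603.BP
open Pool.Agent.Y192.OG hiding ACl GC Gn IndG IndGL Lf UC UC.add UC.const UC.fn UC.mon UC.mul UC.pow
  UC.root adj caseAG caseBY ctl_zr dfc err_small exc gc_ACl indGL_of indG_top locFin_nuT locFin_zr
  nuT nuT_U rel_of rel_step smt1 zr zr_nonneg zr_of_notMem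
open Pool.Agent.Y192.OG.E hiding GC IndG IndGL indGL_of indG_top err_small caseAG ACl gc_ACl caseBY

variable {N : ℕ} {R K : Type} [CommRing R] [IsDomain R] [Algebra ℂ R] [Field K] [Algebra ℂ K]
  [Algebra R K] [IsScalarTower ℂ R K]

/-- the class of curves -/
def ACl (j : Lau N →ₐ[ℂ] R) (f : Lau N) (k : ℕ) {s : ℕ} (h : Fin s → R) (c : Curve N) : Prop :=
  ∃ η : R →ₐ[ℂ] c.Mr, Lf j f k h c η

theorem gc_ACl (j : Lau N →ₐ[ℂ] R) (f : Lau N) (k : ℕ) {s : ℕ} (h : Fin s → R) :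
    GC (RingHom.ker j) (ACl j f k h) where
  van := fun {c} hc g hg => by
    obtain ⟨η, hη⟩ := hc
    rw [← hη.ext, (RingHom.mem_ker).mp hg, map_zero]

variable {j : Lau N →ₐ[ℂ] R} {f : Lau N} {k : ℕ} {s : ℕ} {h : Fin s → R}
  {Γ₀ Γ : Submodule ℤ (Fin N → ℤ)}

theorem caseBY (hinj : Function.Injective (algebraMap R K)) (hint : (j : Lau N →+* R).IsIntegral) (hf : j f ≠ 0)
    (hrad : GR (RingHom.ker j) f Γ₀) (hΓ : Sat Γ) (hle : Γ₀ ≤ Γ)
    (hom0 : ∀ g ∈ RingHom.ker j, ∀ q, comp Γ₀ q g ∈ RingHom.ker j)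
    (hom : ∀ g ∈ RingHom.ker j, ∀ q, comp Γ q g ∈ RingHom.ker j)
    (H2 : ∀ i, ∃ (d : ℕ) (a : ℕ → Lau N),
      h i ^ d + ∑ l ∈ Finset.Icc 1 d, j (a l) * h i ^ (d - l) = 0 ∧
      ∀ l ∈ Finset.Icc 1 d, ∀ m ∈ (a l).coeff.support, InPol (RingHom.ker j) f Γ₀ (l * k) m)
    (H3 : ∀ i : Fin N, IsAlgebraic (Algebra.adjoin ℂ (Gn K j f k h Γ₀))
      (algebraMap R K (j (AddMonoidAlgebra.single (Pi.single i 1) 1))))
    (ih : ∀ Γ', Sat Γ' → Γ < Γ' → IndG (ACl j f k h) (RingHom.ker j) f Γ') :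
    IndG (ACl j f k h) (RingHom.ker j) f Γ := by
  classical
  have hI : (RingHom.ker j).IsPrime := RingHom.ker_isPrime j
  have hGC := gc_ACl j f k h
  have hfI : f ∉ RingHom.ker j := fun h0 => hf ((RingHom.mem_ker).mp h0)
  obtain ⟨b, bt, co, co1, co2, S, pp, m0, G0, s1, s2, s3, s4, s5⟩ :=
    hat_gr a_sqf N Γ₀ Γ hle (RingHom.ker j) f hΓ hI hfI hrad hom
  have hSne : S.Nonempty := by
    rw [Finset.nonempty_iff_ne_empty]
    rintro rfl
    rw [Finset.sum_empty, sub_zero] at s2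
    apply hfI
    have h4 := (RingHom.ker j).mul_mem_left (AddMonoidAlgebra.single (-m0) (1 : ℂ)) s2
    rw [← mul_assoc, AddMonoidAlgebra.single_mul_single, neg_add_cancel, mul_one] at h4
    have h5 : (AddMonoidAlgebra.single (0 : Fin N → ℤ) (1 : ℂ) : Lau N) = 1 := rfl
    rwa [h5, one_mul] at h4
  have hbt : Function.Injective bt := by
    intro i j hij
    have h1 := co2 i
    rw [hij, co2 j] at h1
    by_contra hne
    have h2 := congrFun h1 i
    rw [Pi.single_eq_same, Pi.single_eq_of_ne hne] at h2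
    exact zero_ne_one h2
  have hdiff : ∀ β γ : Fin b →₀ ℕ, β ≠ γ → mb bt β - mb bt γ ∉ Γ := by
    intro β γ hne h
    apply hne
    rw [← co1] at h
    ext i
    have h1 := congrFun h i
    rw [map_sub, Pi.sub_apply, co_mb co2, co_mb co2, Pi.zero_apply, sub_eq_zero] at h1
    exact_mod_cast h1
  set d : Fin b → ℕ := fun i => S.sup fun β => β i with hd
  -- the relations
  set T : Finset (Fin N → ℤ) := S.image fun β => mb bt β - m0 with hTdef
  have hT : T.Nonempty := hSne.image _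
  have hT' : ∀ t, comp Γ₀ (Γ₀.mkQ t) f ∉ RingHom.ker j → ∃ τ ∈ T, t - τ ∈ Γ := by
    intro t ht
    obtain ⟨β, hβ, hβt⟩ := wt_mem hle hom0 hom (fun β hβ => (s1 β hβ).2) s2 ht
    exact ⟨_, Finset.mem_image_of_mem _ hβ, hβt⟩
  have hroot : ∀ i, UC j f k h Γ T hT k (h i) := by
    intro i
    obtain ⟨d', a, a1, a2⟩ := H2 i
    exact UC.root a1 hle a2 hT'
  have hfn : UC j f k h Γ T hT 1 (j f) :=
    UC.fn (fun β hβ => (s1 β hβ).2) s2 fun β hβ => Finset.mem_image_of_mem _ hβ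
  have hrel := fun i : Fin N => rel_of hinj hf hroot hfn hle
    (j (AddMonoidAlgebra.single (Pi.single i 1) 1)) (H3 i)
  choose e L A hA1 hA2 hA3 using hrel
  have hexc := fun i : Fin N => exc (N := N) hint (hA3 i)
  choose G' hG1 hG2 using hexc
  choose! Φa wa ha1 ha2 using hA1
  set Φ3 : Finset (Fin N → ℤ) :=
    Finset.univ.biUnion fun i : Fin N => (Finset.range (L i + 1)).biUnion fun l => Φa i l with hΦ3
  set w3 : ℕ := ∑ i : Fin N, ∑ l ∈ Finset.range (L i + 1), wa i l with hw3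
  have hΦ3Γ : ∀ φ ∈ Φ3, φ ∈ Γ := by
    intro φ hφ
    obtain ⟨i, -, hφ⟩ := Finset.mem_biUnion.mp hφ
    obtain ⟨l, hl, hφ⟩ := Finset.mem_biUnion.mp hφ
    exact ha1 i l (by have := Finset.mem_range.mp hl; omega) φ hφ
  -- the size of the box
  obtain ⟨C, hC, hCK⟩ := a_num b d
  set H : ℝ := ∑ j, ∑ i, |(bt j i : ℝ)| with hH
  have hH0 : 0 ≤ H := Finset.sum_nonneg fun j _ => Finset.sum_nonneg fun i _ => abs_nonneg _
  set E : ℝ := ∑ i : Fin N, 2 * ((L i : ℝ) * e i) with hE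
  have hE0 : 0 ≤ E := Finset.sum_nonneg fun i _ => by positivity
  obtain ⟨K0, hK0⟩ := exists_nat_gt (8 * (E * (2 * C + 1) * H))
  set K : ℕ := max K0 (max 1 (Finset.univ.sup d)) with hKdef
  have hK1 : 1 ≤ K := (le_max_left _ _).trans (le_max_right _ _)
  have hKd : ∀ i, d i ≤ K := fun i =>
    (Finset.le_sup (Finset.mem_univ i)).trans ((le_max_right _ _).trans (le_max_right _ _))
  have hKr : (0 : ℝ) < K := by exact_mod_cast hK1
  have hKε : E * (2 * ((2 * C + 1) / K * H)) ≤ 1 / 4 := by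
    have h1 : (K0 : ℝ) ≤ K := by exact_mod_cast le_max_left _ _
    have e1 : E * (2 * ((2 * C + 1) / K * H)) = (2 * (E * (2 * C + 1) * H)) / K := by ring
    rw [e1, div_le_iff₀ hKr]
    nlinarith
  obtain ⟨σ₀, hσ₀⟩ := a_grow (2 * S.card + 1) (1 / (2 ^ (b + 1) * (K : ℝ) ^ 2)) (by positivity)
  -- the list of monomials outside of the group
  set n : Fin b → ℕ := fun i => K + d i with hn
  obtain ⟨Φ2, ε2, μ2, G2, q1, q2, q3, q4⟩ := indGL_of hGC ih
    (((box n ×ˢ box n).filter fun x => x.1 ≠ x.2).image fun x => mb bt x.1 - mb bt x.2) (by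
      intro γ hγ
      obtain ⟨x, hx, rfl⟩ := Finset.mem_image.mp hγ
      exact hdiff _ _ (Finset.mem_filter.mp hx).2)
  set Φs : Finset (Fin N → ℤ) := S.biUnion fun β => (pp β).coeff.support with hΦs
  have hΦsΓ : ∀ φ ∈ Φs, φ ∈ Γ := by
    intro φ hφ
    obtain ⟨β, hβ, hφ⟩ := Finset.mem_biUnion.mp hφ
    exact (s1 β hβ).2 φ hφ
  set Φu := Φs ∪ Φ3 with hΦu
  set w : ℕ := 2 * (σ₀ + 1) with hw
  set Mm : ℕ := (σ₀ + 2) ^ (2 * S.card + 1) * ∏ i, n i with hMm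
  set n0 : ℕ := (box n).card with hn0
  set a1 : ℝ := 2 * (n0 * w) with ha1'
  set b1 : ℝ := 2 * (n0 * w + (n0 : ℝ) ^ 2) with hb1
  set a2 : ℝ := E * (2 * w + S.card) with ha2'
  set b2 : ℝ := E * (2 * (w + Mm) + (S.card + (S.card : ℝ) ^ 2)) with hb2
  set a3 : ℝ := ∑ i : Fin N, 2 * ((L i : ℝ) * w3) with ha3
  set b3 : ℝ := ∑ i : Fin N, 2 * ((L i : ℝ) * w3 + (L i : ℝ) ^ 2) with hb3
  have ha10 : 0 ≤ a1 := mul_nonneg zero_le_two (mul_nonneg (Nat.cast_nonneg _) (Nat.cast_nonneg _))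
  have hb10 : 0 ≤ b1 := mul_nonneg zero_le_two
    (add_nonneg (mul_nonneg (Nat.cast_nonneg _) (Nat.cast_nonneg _)) (sq_nonneg _))
  have ha20 : 0 ≤ a2 := mul_nonneg hE0 (add_nonneg (mul_nonneg zero_le_two (Nat.cast_nonneg _))
    (Nat.cast_nonneg _))
  have hb20 : 0 ≤ b2 := mul_nonneg hE0 (add_nonneg
    (mul_nonneg zero_le_two (add_nonneg (Nat.cast_nonneg _) (Nat.cast_nonneg _)))
      (add_nonneg (Nat.cast_nonneg _) (sq_nonneg _)))
  have ha30 : 0 ≤ a3 := Finset.sum_nonneg fun i _ => mul_nonneg zero_le_two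
    (mul_nonneg (Nat.cast_nonneg _) (Nat.cast_nonneg _))
  have hb30 : 0 ≤ b3 := Finset.sum_nonneg fun i _ => mul_nonneg zero_le_two
    (add_nonneg (mul_nonneg (Nat.cast_nonneg _) (Nat.cast_nonneg _)) (sq_nonneg _))
  have hat0 : 0 ≤ a1 + (a2 + a3) := add_nonneg ha10 (add_nonneg ha20 ha30)
  have hbt0' : 0 ≤ b1 + (b2 + b3) := add_nonneg hb10 (add_nonneg hb20 hb30)
  obtain ⟨ε, μ, c1, c2, c3, c4, c5⟩ := consts (a1 + (a2 + a3)) (b1 + (b2 + b3)) hbt0'
    Φu.card (lt_min (show (0 : ℝ) < 1 / 4 by norm_num) q2) μ2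
  refine ⟨Φu ∪ Φ2, ε, μ, f * (G0 * ((∏ i, G' i) * G2)), ?_, c1, ?_, ?_⟩
  · intro φ hφ
    rcases Finset.mem_union.mp hφ with h | h
    · rcases Finset.mem_union.mp h with h | h
      · exact hΦsΓ φ h
      · exact hΦ3Γ φ h
    · exact q1 φ h
  · intro h
    rcases hI.mem_or_mem h with h | h
    · exact hfI h
    rcases hI.mem_or_mem h with h | h
    · exact s4 h
    rcases hI.mem_or_mem h with h | h
    · obtain ⟨i, -, hi⟩ := (hI.prod_mem_iff).mp h
      exact hG1 i ((RingHom.mem_ker).mp hi)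
    · exact q3 h
  intro c hc r hfew hsm
  by_contra hG
  rw [map_mul, map_mul, map_mul, map_prod] at hG
  have hF : c.ev f ≠ 0 := left_ne_zero_of_mul hG
  have hG' := right_ne_zero_of_mul hG
  have hG0 : c.ev G0 ≠ 0 := left_ne_zero_of_mul hG'
  have hG3 : ∀ i, c.ev (G' i) ≠ 0 := by
    intro i h0
    exact left_ne_zero_of_mul (right_ne_zero_of_mul hG')
      (Finset.prod_eq_zero (Finset.mem_univ i) h0)
  have hG2' : c.ev G2 ≠ 0 := right_ne_zero_of_mul (right_ne_zero_of_mul hG')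
  haveI := dom a_ring c
  have hvan := hGC.van hc
  obtain ⟨η, hη⟩ := hc
  obtain ⟨u1, u2, u3⟩ := s5 c.Mr c.ev hvan hG0
  have hev := Ph_eval c bt S pp hvan s2
  have hΦ : ∀ β ∈ S, ∀ m ∈ (pp β).coeff.support, m ∈ Φs := fun β hβ m hm =>
    Finset.mem_biUnion.mpr ⟨β, hβ, hm⟩
  obtain ⟨g1, σ, g2, g3⟩ := hσ₀ c.Mr (gens c bt S pp) (gens_card c bt S pp)
    (one_mem_gens c bt S pp)
  have hTT := ch_nonneg a_ht r
  have hsmu : ∀ φ ∈ Φu, Sm r ε φ := fun φ hφ => hsm φ (Finset.mem_union_left _ hφ)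
  have hsub : ∀ n, ∑ φ ∈ Φs, c.ht φ (r.s n) ≤ ∑ φ ∈ Φu, c.ht φ (r.s n) := fun n =>
    Finset.sum_le_sum_of_subset_of_nonneg Finset.subset_union_left fun φ _ _ => ht_nonneg a_ht r n φ
  have hsub3 : ∀ n, ∑ φ ∈ Φ3, c.ht φ (r.s n) ≤ ∑ φ ∈ Φu, c.ht φ (r.s n) := fun n =>
    Finset.sum_le_sum_of_subset_of_nonneg Finset.subset_union_right fun φ _ _ => ht_nonneg a_ht r n φ
  have hs0 : ∀ n, 0 ≤ ∑ φ ∈ Φs, c.ht φ (r.s n) := fun n =>
    Finset.sum_nonneg fun φ _ => ht_nonneg a_ht r n φ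
  have hs3 : ∀ n, 0 ≤ ∑ φ ∈ Φ3, c.ht φ (r.s n) := fun n =>
    Finset.sum_nonneg fun φ _ => ht_nonneg a_ht r n φ
  have hbad := fun n => bad_cnt_nonneg a_cnt a_ord c (r.s n)
  have herr := err_small c3 hfew hsmu hat0 hbt0'
  rcases curve_dich' hF r Φs bt hbt m0 S pp hSne hΦ hev u1 u2 u3 hC K hK1 hKd
    (hCK K hK1 hKd) σ₀ σ g2 g1 g3 with ⟨β, hβ, γ, hγ, hne, hlt⟩ | ⟨hli, hrho⟩
  · apply hG2'
    refine q4 c ⟨η, hη⟩ r (hfew.mono c4) (fun φ hφ =>
      (hsm φ (Finset.mem_union_right _ hφ)).mono a_ht (c2.trans (min_le_right _ _)))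
      ⟨mb bt β - mb bt γ, Finset.mem_image.mpr ⟨(β, γ), Finset.mem_filter.mpr
        ⟨Finset.mem_product.mpr ⟨hβ, hγ⟩, hne⟩, rfl⟩, ?_⟩
    refine Le.trans hlt (Le.trans (Le.of_le hTT fun n => ?_) (Le.trans herr
      (Le.of_le hTT fun n => ?_)))
    · have t1 : a1 * ∑ φ ∈ Φs, c.ht φ (r.s n) ≤ (a1 + (a2 + a3)) * ∑ φ ∈ Φu, c.ht φ (r.s n) :=
        mul_le_mul (le_add_of_nonneg_right (add_nonneg ha20 ha30)) (hsub n) (hs0 n) hat0
      have t2 : b1 * c.cnt (fun z => (c.bad z : ℤ)) (r.s n)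
          ≤ (b1 + (b2 + b3)) * c.cnt (fun z => (c.bad z : ℤ)) (r.s n) :=
        mul_le_mul_of_nonneg_right (le_add_of_nonneg_right (add_nonneg hb20 hb30)) (hbad n)
      exact add_le_add t1 t2
    · exact mul_le_mul_of_nonneg_right (c5.trans (min_le_right _ _)) (hTT n)
  · -- contradiction
    have hsmt := smt1 hF r Φs bt m0 S hSne pp T hT hTdef hΦ (hev.1.symm.trans hev.2) hli
    set B : ℕ → ℝ := fun n => 2 * ((2 * C + 1) / K * ∑ j, c.ht (bt j) (r.s n)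
        + (w : ℝ) * ∑ φ ∈ Φs, c.ht φ (r.s n)
        + ((w : ℝ) + (Mm : ℝ)) * c.cnt (fun z => (c.bad z : ℤ)) (r.s n))
      + (S.card * ∑ φ ∈ Φs, c.ht φ (r.s n)
        + (S.card + (S.card : ℝ) ^ 2) * c.cnt (fun z => (c.bad z : ℤ)) (r.s n)) with hB
    have hbt0 : ∀ n, 0 ≤ ∑ j, c.ht (bt j) (r.s n) := fun n =>
      Finset.sum_nonneg fun j _ => ht_nonneg a_ht r n _
    have hC1 : 0 ≤ (2 * C + 1) / (K : ℝ) :=
      div_nonneg (add_nonneg (mul_nonneg zero_le_two hC) zero_le_one) hKr.le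
    have hB0 : ∀ n, 0 ≤ B n := by
      intro n
      have t1 := mul_nonneg hC1 (hbt0 n)
      have t2 : 0 ≤ (w : ℝ) * ∑ φ ∈ Φs, c.ht φ (r.s n) := mul_nonneg (Nat.cast_nonneg _) (hs0 n)
      have t3 : 0 ≤ ((w : ℝ) + (Mm : ℝ)) * c.cnt (fun z => (c.bad z : ℤ)) (r.s n) :=
        mul_nonneg (add_nonneg (Nat.cast_nonneg _) (Nat.cast_nonneg _)) (hbad n)
      have t4 : 0 ≤ (S.card : ℝ) * ∑ φ ∈ Φs, c.ht φ (r.s n) :=
        mul_nonneg (Nat.cast_nonneg _) (hs0 n)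
      have t5 : 0 ≤ ((S.card : ℝ) + (S.card : ℝ) ^ 2) * c.cnt (fun z => (c.bad z : ℤ)) (r.s n) :=
        mul_nonneg (add_nonneg (Nat.cast_nonneg _) (sq_nonneg _)) (hbad n)
      exact add_nonneg (mul_nonneg zero_le_two (add_nonneg (add_nonneg t1 t2) t3))
        (add_nonneg t4 t5)
    have hdB : Le (fun n => c.ch (r.s n)) (fun n => dfc c (c.ev f) T hT (r.s n)) B := by
      refine Le.trans hsmt ?_
      have g := Le.add (Le.mul hTT zero_le_two hrho) (Le.of_le hTT (A := fun n => (S.card * ∑ φ ∈ Φs, c.ht φ (r.s n)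
        + (S.card + (S.card : ℝ) ^ 2) * c.cnt (fun z => (c.bad z : ℤ)) (r.s n))) fun n => le_rfl)
      refine Le.trans (Le.of_le hTT fun n => le_of_eq ?_) (Le.trans g (Le.of_le hTT fun n =>
        le_of_eq ?_))
      · push_cast
        ring
      · simp only [hB, hMm, hn, hd, hw]
    have hstep : ∀ i : Fin N, Le (fun n => c.ch (r.s n))
        (fun n => c.ht (Pi.single i 1) (r.s n))
        (fun n => 2 * (L i * e i * B n + (L i * w3 * ∑ φ ∈ Φ3, c.ht φ (r.s n)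
          + (L i * w3 + (L i : ℝ) ^ 2) * c.cnt (fun z => (c.bad z : ℤ)) (r.s n)))) := by
      intro i
      refine rel_step hF r T hT Φ3 w3 (e i) (L i) (fun l => η (A i l)) (Pi.single i 1)
        (fun l hl => ?_) ?_ ⟨L i, le_rfl, ?_⟩ B hdB hB0
      · have hlr : l ∈ Finset.range (L i + 1) := Finset.mem_range.mpr (by omega)
        refine ctl_mono (ha2 i l hl c η hF hη r) ?_ ?_
        · intro φ hφ
          exact Finset.mem_biUnion.mpr ⟨i, Finset.mem_univ i, Finset.mem_biUnion.mpr ⟨l, hlr, hφ⟩⟩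
        · exact (Finset.single_le_sum (f := fun l => wa i l) (fun _ _ => Nat.zero_le _) hlr).trans
            (Finset.single_le_sum (f := fun i => ∑ l ∈ Finset.range (L i + 1), wa i l)
              (fun _ _ => Nat.zero_le _) (Finset.mem_univ i))
      · have h0 := congrArg η (hA2 i)
        rw [map_sum, map_zero] at h0
        rw [← h0]
        refine Finset.sum_congr rfl fun l _ => ?_
        rw [map_mul, map_pow, hη.ext, c.ev_single, one_smul, ← mon_nsmul]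
      · intro h0
        apply hG3 i
        obtain ⟨y, hy⟩ := hG2 i
        rw [← hη.ext, hy, map_mul, h0, zero_mul]
    have hbtH : ∀ n, ∑ j, c.ht (bt j) (r.s n) ≤ H * c.ch (r.s n) := by
      intro n
      rw [hH, Finset.sum_mul]
      exact Finset.sum_le_sum fun i _ => ((a_ht N c).1 _ (r.hs n)).2.2.2.1 (bt i)
    have htot := Le.sum hTT Finset.univ (fun i _ => hstep i)
    have hfin : Le (fun n => c.ch (r.s n)) (fun n => c.ch (r.s n))
        (fun n => 1 / 2 * c.ch (r.s n)) := by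
      refine Le.trans (Le.of_le hTT (B := fun n => ∑ i : Fin N, c.ht (Pi.single i 1) (r.s n))
        fun n => le_rfl) (Le.trans htot (Le.trans (B := fun n => 1 / 4 * c.ch (r.s n)
          + ((a1 + (a2 + a3)) * ∑ φ ∈ Φu, c.ht φ (r.s n)
            + (b1 + (b2 + b3)) * c.cnt (fun z => (c.bad z : ℤ)) (r.s n)))
          (Le.of_le hTT fun n => ?_) ?_))
      · have e1 : ∑ i : Fin N, 2 * (L i * e i * B n + (L i * w3 * ∑ φ ∈ Φ3, c.ht φ (r.s n)
          + (L i * w3 + (L i : ℝ) ^ 2) * c.cnt (fun z => (c.bad z : ℤ)) (r.s n)))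
            = E * B n + (a3 * ∑ φ ∈ Φ3, c.ht φ (r.s n)
              + b3 * c.cnt (fun z => (c.bad z : ℤ)) (r.s n)) := by
          rw [hE, ha3, hb3, Finset.sum_mul, Finset.sum_mul, Finset.sum_mul,
            ← Finset.sum_add_distrib, ← Finset.sum_add_distrib]
          refine Finset.sum_congr rfl fun i _ => ?_
          ring
        rw [e1]
        have t1 : E * (2 * ((2 * C + 1) / K * ∑ j, c.ht (bt j) (r.s n)))
            ≤ 1 / 4 * c.ch (r.s n) := by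
          calc E * (2 * ((2 * C + 1) / K * ∑ j, c.ht (bt j) (r.s n)))
              ≤ E * (2 * ((2 * C + 1) / K * (H * c.ch (r.s n)))) := by
                apply mul_le_mul_of_nonneg_left _ hE0
                apply mul_le_mul_of_nonneg_left _ zero_le_two
                exact mul_le_mul_of_nonneg_left (hbtH n) hC1
            _ = (E * (2 * ((2 * C + 1) / K * H))) * c.ch (r.s n) := by ring
            _ ≤ _ := mul_le_mul_of_nonneg_right hKε (hTT n)
        have t2 : a2 * ∑ φ ∈ Φs, c.ht φ (r.s n) ≤ a2 * ∑ φ ∈ Φu, c.ht φ (r.s n) :=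
          mul_le_mul_of_nonneg_left (hsub n) ha20
        have t3 : a3 * ∑ φ ∈ Φ3, c.ht φ (r.s n) ≤ a3 * ∑ φ ∈ Φu, c.ht φ (r.s n) :=
          mul_le_mul_of_nonneg_left (hsub3 n) ha30
        have t4 : 0 ≤ a1 * ∑ φ ∈ Φu, c.ht φ (r.s n) :=
          mul_nonneg ha10 ((hs0 n).trans (hsub n))
        have t5 : 0 ≤ b1 * c.cnt (fun z => (c.bad z : ℤ)) (r.s n) := mul_nonneg hb10 (hbad n)
        have e2 : E * B n = E * (2 * ((2 * C + 1) / K * ∑ j, c.ht (bt j) (r.s n)))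
            + a2 * ∑ φ ∈ Φs, c.ht φ (r.s n) + b2 * c.cnt (fun z => (c.bad z : ℤ)) (r.s n) := by
          simp only [hB, ha2', hb2]
          ring
        rw [e2]
        linarith
      · intro δ hδ
        filter_upwards [herr δ hδ] with n hn'
        have t1 : (((a1 + (a2 + a3)) * (Φu.card * ε) + (b1 + (b2 + b3)) / μ) * c.ch (r.s n))
            ≤ 1 / 4 * c.ch (r.s n) :=
          mul_le_mul_of_nonneg_right (c5.trans (min_le_left _ _)) (hTT n)
        linarith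
    obtain ⟨n, h2, h3⟩ := ((hfin (1 / 4) (by norm_num)).and (ch_pos r)).exists
    linarith

/-- the theorem for curves in covers -/
theorem curvesN (hinj : Function.Injective (algebraMap R K)) (hint : (j : Lau N →+* R).IsIntegral) (hf : j f ≠ 0)
    (hrad : GR (RingHom.ker j) f Γ₀)
    (hleast : ∀ Γ : Submodule ℤ (Fin N → ℤ), Sat Γ →
      (∀ g ∈ RingHom.ker j, ∀ q, comp Γ q g ∈ RingHom.ker j) → Γ₀ ≤ Γ)
    (hom0 : ∀ g ∈ RingHom.ker j, ∀ q, comp Γ₀ q g ∈ RingHom.ker j)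
    (H2 : ∀ i, ∃ (d : ℕ) (a : ℕ → Lau N),
      h i ^ d + ∑ l ∈ Finset.Icc 1 d, j (a l) * h i ^ (d - l) = 0 ∧
      ∀ l ∈ Finset.Icc 1 d, ∀ m ∈ (a l).coeff.support, InPol (RingHom.ker j) f Γ₀ (l * k) m)
    (H3 : ∀ i : Fin N, IsAlgebraic (Algebra.adjoin ℂ (Gn K j f k h Γ₀))
      (algebraMap R K (j (AddMonoidAlgebra.single (Pi.single i 1) 1)))) :
    ∃ (μ : ℕ) (G : Lau N), j G ≠ 0 ∧ ∀ c : Curve N, ACl j f k h c → c.ev G ≠ 0 →
      c.ev f ≠ 0 ∧ ∀ r : Rad c (c.ev f), ¬ Few μ r := by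
  have hI : (RingHom.ker j).IsPrime := RingHom.ker_isPrime j
  have hfI : f ∉ RingHom.ker j := fun h0 => hf ((RingHom.mem_ker).mp h0)
  have main : ∀ Γ : Submodule ℤ (Fin N → ℤ), Sat Γ → IndG (ACl j f k h) (RingHom.ker j) f Γ := by
    intro Γ
    induction Γ using WellFoundedGT.induction with
    | ind Γ ih =>
      intro hΓ
      by_cases htop : Γ = ⊤
      · rw [htop]
        exact indG_top _ hI.ne_top f
      · have ih' : ∀ Γ', Sat Γ' → Γ < Γ' → IndG (ACl j f k h) (RingHom.ker j) f Γ' :=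
          fun Γ' h1 h2 => ih Γ' h2 h1
        by_cases hhom : ∀ g ∈ RingHom.ker j, ∀ q, comp Γ q g ∈ RingHom.ker j
        · exact caseBY hinj hint hf hrad hΓ (hleast Γ hΓ hhom) hom0 hhom H2 H3 ih'
        · push Not at hhom
          obtain ⟨g, hg, q, hq⟩ := hhom
          exact caseAG (gc_ACl j f k h) hfI ih' hg ⟨q, hq⟩
  have hbot : Sat (⊥ : Submodule ℤ (Fin N → ℤ)) := by
    intro n m hn h
    rw [Submodule.mem_bot] at h ⊢
    exact (smul_eq_zero.mp h).resolve_left hn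
  obtain ⟨Φ, ε, μ, G, h1, h2, h3, h4⟩ := main ⊥ hbot
  refine ⟨μ, f * G, fun h0 => ?_, ?_⟩
  · rw [map_mul] at h0
    rcases mul_eq_zero.mp h0 with h | h
    · exact hf h
    · exact h3 ((RingHom.mem_ker).mpr h)
  intro c hc hG
  rw [map_mul] at hG
  refine ⟨left_ne_zero_of_mul hG, fun r hfew => ?_⟩
  apply right_ne_zero_of_mul hG
  apply h4 c hc r hfew
  intro φ hφ
  have h5 : φ = 0 := (Submodule.mem_bot ℤ).mp (h1 φ hφ)
  have hT := ch_nonneg a_ht r
  apply Le.of_le hT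
  intro n
  have h6 := ((a_ht N c).1 _ (r.hs n)).2.2.1 0 0
  rw [zero_smul, Int.cast_zero, abs_zero, zero_mul] at h6
  rw [h5, h6]
  exact mul_nonneg h2.le (hT n)

end Pool.Agent.Q72.NW
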