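import Pool.Agent.Q72.NW.Cur

/-!
Good circles for the curve given by entire functions.
-/

set_option autoImplicit false

namespace Pool.Agent.Q72.NW

open Filter Metric Set Topology Pool.Agent.W603.BP Pool.Agent.H159R3.NV
open Pool.Agent.Y192.OG (Curve Rad Lau lev)
open Pool.Agent.Q72.TR (Tm T2_le' eval_bound good_family Tm_int norm_le_coord)
open Pool.Agent.Q72.SH (coord_diff eval_diff)

variable {n : ℕ} {g : ℂ → Fin (n + 1) → ℂ}
  (hg : Differentiable ℂ g) (h0 : ∀ z, g z ≠ 0) (hne : ∀ i, ∃ y, g y i ≠ 0)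

/-- the value of a Laurent polynomial along the curve -/
theorem exists_num (F : Lau n) : ∃ (k : ℕ) (P : MvPolynomial (Fin (n + 1)) ℂ), 1 ≤ k ∧
    P.IsHomogeneous (k + n * k) ∧ ∀ (c : Curve n) (z : ℂ), z ∈ c.U →
      c.val (c.ev F) z = MvPolynomial.eval (fun i => c.X i z) P / c.X 0 z ^ (k + n * k) *
        ∏ i : Fin n, (c.X 0 z / c.X i.succ z) ^ k := by
  obtain ⟨k0, hk0⟩ := Pool.Agent.Y274.OG.hformK F
  obtain ⟨P, hP, hPv⟩ := hk0 (max k0 1) (max k0 1) (le_max_left _ _) (le_max_left _ _)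
  refine ⟨max k0 1, P, le_max_right _ _, hP, fun c z hz => ?_⟩
  generalize max k0 1 = k at hP hPv
  have hX : ∀ i, c.X i z ≠ 0 := hz.2
  have h1 := hPv ℂ (fun i => c.X i z)
    (fun i => Units.mk0 (c.X i.succ z / c.X 0 z) (div_ne_zero (hX _) (hX _))) hX (fun i => rfl)
  rw [← Pool.Agent.Y274.OG.lev_ep] at h1
  have h2 : MvPolynomial.eval (fun i => c.X i z) P = MvPolynomial.aeval (fun i => c.X i z) P := rfl
  rw [Pool.Agent.Y192.OG.val_ev c F hz, h2, h1]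
  have h3 : (fun i : Fin n => ((Units.mk0 (c.X i.succ z / c.X 0 z)
      (div_ne_zero (hX _) (hX _)) : ℂˣ) : ℂ)) = fun i => c.xf i z := rfl
  rw [h3]
  have h4 : ∏ i : Fin n, (c.X 0 z / c.X i.succ z) ^ k =
      c.X 0 z ^ (n * k) / ∏ i : Fin n, c.X i.succ z ^ k := by
    simp_rw [div_pow]
    rw [Finset.prod_div_distrib, Finset.prod_const, Finset.card_univ, Fintype.card_fin, ← pow_mul,
      mul_comm k n]
  rw [h4, pow_add]
  have h5 : (∏ i : Fin n, c.X i.succ z ^ k) ≠ 0 :=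
    Finset.prod_ne_zero_iff.2 fun i _ => pow_ne_zero _ (hX _)
  have h6 := hX 0
  field_simp

theorem circ (F : Lau n) (hF : (cur g hg h0 hne).ev F ≠ 0) : ∃ B c' : ℝ, 1 ≤ B ∧ 1 ≤ c' ∧
    ∀ r δ M : ℝ, 3 ≤ r → 0 < δ → δ ≤ 1 → Tm g (r + 4 * δ) ≤ M → 1 ≤ M → ∃ s ε : ℝ,
      r ≤ s ∧ s ≤ r + δ ∧ 0 < ε ∧ ε ≤ 1 ∧ 1 / ε ≤ c' * (r ^ 3 * M ^ 2 / δ ^ 4) ∧
      (∀ z, ‖z‖ = s → ∀ y ∈ closedBall z ε, y ∈ (cur g hg h0 hne).U) ∧
      (∀ z, ‖z‖ = s → ∀ i j, ∀ y ∈ closedBall z ε, ‖(cur g hg h0 hne).X j y /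
        (cur g hg h0 hne).X i y‖ ≤ B * ‖(cur g hg h0 hne).X j z / (cur g hg h0 hne).X i z‖) ∧
      (∀ z, ‖z‖ = s → ∀ y ∈ closedBall z ε, ‖(cur g hg h0 hne).val ((cur g hg h0 hne).ev F) y‖ ≤
        B * ‖(cur g hg h0 hne).val ((cur g hg h0 hne).ev F) z‖) := by
  classical
  obtain ⟨k, P, hk, hP, hval⟩ := exists_num F
  obtain ⟨c, hc⟩ : ∃ c, c = cur g hg h0 hne := ⟨_, rfl⟩
  rw [← hc] at hF ⊢
  have hX : ∀ i z, c.X i z = g z i := fun i z => by rw [hc]; rfl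
  have hr0 : c.r0 = 1 := by rw [hc]; rfl
  have hU : ∀ z, 1 < ‖z‖ → (∀ i, g z i ≠ 0) → z ∈ c.U := fun z h1 h2 => by
    rw [hc]
    exact cur_U hg h0 hne h1 h2
  obtain ⟨D, hD⟩ : ∃ D, D = k + n * k := ⟨_, rfl⟩
  have hD1 : 1 ≤ D := by rw [hD]; omega
  rw [← hD] at hP
  have hval' : ∀ z ∈ c.U, c.val (c.ev F) z = MvPolynomial.eval (g z) P / g z 0 ^ D *
      ∏ i : Fin n, (g z 0 / g z i.succ) ^ k := by
    intro z hz
    rw [hval c z hz, ← hD]
    simp only [hX]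
  -- a point where nothing vanishes
  obtain ⟨p, hp, hpP⟩ : ∃ p ∈ c.U, MvPolynomial.eval (g p) P ≠ 0 := by
    by_contra hcon
    push Not at hcon
    apply hF
    apply c.val_inj
    intro z hz
    rw [hval' z hz, hcon z hz, zero_div, zero_mul, Pool.Agent.Y274.OG.val_zero']
  have hpX : ∀ i, g p i ≠ 0 := fun i => by rw [← hX]; exact hp.2 i
  -- the family
  let v : Fin (n + 2) → ℂ → ℂ := Fin.cons (fun z => MvPolynomial.eval (g z) P)
    (fun (i : Fin (n + 1)) z => g z i * g z 0 ^ (D - 1))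
  have hv0 : ∀ z, v 0 z = MvPolynomial.eval (g z) P := fun z => rfl
  have hvs : ∀ (i : Fin (n + 1)) z, v i.succ z = g z i * g z 0 ^ (D - 1) := fun i z => rfl
  have hvd : ∀ j, Differentiable ℂ (v j) := by
    intro j
    refine Fin.cases ?_ (fun i => ?_) j
    · exact eval_diff hg P
    · have : v i.succ = fun z => g z i * g z 0 ^ (D - 1) := funext fun z => hvs i z
      rw [this]
      exact (coord_diff hg i).mul ((coord_diff hg 0).pow _)
  have hvne : ∀ j, ∃ y, v j y ≠ 0 := by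
    intro j
    refine ⟨p, ?_⟩
    refine Fin.cases ?_ (fun i => ?_) j
    · rw [hv0]
      exact hpP
    · rw [hvs]
      exact mul_ne_zero (hpX i) (pow_ne_zero _ (hpX 0))
  obtain ⟨c1, hc1, hc1b⟩ := eval_bound hP
  have hvb : ∀ j z, ‖v j z‖ ≤ c1 * ‖g z‖ ^ D := by
    intro j z
    refine Fin.cases ?_ (fun i => ?_) j
    · rw [hv0]
      exact hc1b _
    · rw [hvs, norm_mul, norm_pow]
      have h1 : ‖g z‖ ^ D = ‖g z‖ * ‖g z‖ ^ (D - 1) := by
        rw [← pow_succ', Nat.sub_add_cancel hD1]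
      rw [h1]
      have h2 : ‖g z i‖ * ‖g z 0‖ ^ (D - 1) ≤ ‖g z‖ * ‖g z‖ ^ (D - 1) :=
        mul_le_mul (norm_le_coord z i) (pow_le_pow_left₀ (norm_nonneg _) (norm_le_coord z 0) _)
          (by positivity) (norm_nonneg _)
      exact h2.trans (le_mul_of_one_le_left (by positivity) hc1)
  obtain ⟨Λ, B0, hΛ, hB0, hgood⟩ := good_family v hvd hvne
  set κ : ℝ := ((n + 1 : ℕ) + 1) * (D + Real.log c1 + Λ) + 1 with hκ
  have hlc : 0 ≤ Real.log c1 := Real.log_nonneg hc1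
  have hκ1 : 1 ≤ κ := by
    have : 0 ≤ (((n + 1 : ℕ) : ℝ) + 1) * (D + Real.log c1 + Λ) := by positivity
    linarith
  have hBB : B0 ≤ B0 ^ (1 + n * k) := le_self_pow₀ hB0 (by omega)
  refine ⟨B0 ^ (1 + n * k), 500000 * κ ^ 2, one_le_pow₀ hB0, ?_, ?_⟩
  · nlinarith [one_le_pow₀ hκ1 (n := 2)]
  intro r δ M hr hδ hδ1 hM hM1
  have hR0 : 0 < r + 4 * δ := by linarith
  have hM' : ∀ i, T2 (v 0) (v i) (r + 4 * δ) ≤ D * M + Real.log c1 := by
    intro i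
    have h1 := T2_le' hg h0 (hvd 0) (hvd i) (hvne 0)
      (by linarith : 0 < c1) (fun z => hvb 0 z) (fun z => hvb i z) hR0.ne'
    have h2 : (D : ℝ) * Tm g (r + 4 * δ) ≤ D * M :=
      mul_le_mul_of_nonneg_left hM (Nat.cast_nonneg _)
    linarith
  obtain ⟨s, ε, hrs, hsδ, hε, hε1, hεX, h0', hb'⟩ :=
    hgood r δ _ (by linarith) hδ hδ1 hM' (by positivity)
  have hsU : ∀ z, ‖z‖ = s → ∀ y ∈ closedBall z ε, (∀ i, g y i ≠ 0) ∧
      MvPolynomial.eval (g y) P ≠ 0 ∧ y ∈ c.U := by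
    intro z hz y hy
    have h1 : MvPolynomial.eval (g y) P ≠ 0 := h0' z hz 0 y hy
    have h2 : ∀ i, g y i ≠ 0 := fun i => by
      have := h0' z hz i.succ y hy
      rw [hvs] at this
      exact left_ne_zero_of_mul this
    refine ⟨h2, h1, hU y ?_ h2⟩
    rw [mem_closedBall, dist_eq_norm] at hy
    have h3 : ‖z‖ - ‖y - z‖ ≤ ‖y‖ := by
      have := norm_sub_norm_le z (z - y)
      rw [sub_sub_cancel, norm_sub_rev z y] at this
      exact this
    rw [hz] at h3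
    linarith
  have hself : ∀ z : ℂ, z ∈ closedBall z ε := fun z => mem_closedBall_self hε.le
  have hosc : ∀ z, ‖z‖ = s → ∀ i j, ∀ y ∈ closedBall z ε,
      ‖g y j / g y i‖ ≤ B0 * ‖g z j / g z i‖ := by
    intro z hz i j y hy
    have h1 := hb' z hz i.succ j.succ y hy
    obtain ⟨h2, -, -⟩ := hsU z hz y hy
    obtain ⟨h3, -, -⟩ := hsU z hz z (hself z)
    rw [hvs, hvs, hvs, hvs, mul_div_mul_right _ _ (pow_ne_zero _ (h2 0)),
      mul_div_mul_right _ _ (pow_ne_zero _ (h3 0))] at h1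
    exact h1
  refine ⟨s, ε, hrs, hsδ, hε, hε1, hεX.trans ?_, fun z hz y hy => (hsU z hz y hy).2.2, ?_, ?_⟩
  · have h1 : (r + 4 * δ) ^ 3 ≤ (5 * r) ^ 3 := by
      apply pow_le_pow_left₀ hR0.le
      linarith
    have h2 : ((n + 1 : ℕ) + 1) * (D * M + Real.log c1 + Λ) + 1 ≤ κ * M := by
      rw [hκ]
      have e1 : Real.log c1 ≤ Real.log c1 * M := le_mul_of_one_le_right hlc hM1
      have e2 : Λ ≤ Λ * M := le_mul_of_one_le_right hΛ hM1
      have e3 : (((n + 1 : ℕ) : ℝ) + 1) * (D * M + Real.log c1 + Λ) ≤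
          (((n + 1 : ℕ) : ℝ) + 1) * (D * M + Real.log c1 * M + Λ * M) := by
        apply mul_le_mul_of_nonneg_left _ (by positivity)
        linarith
      nlinarith
    have h3 : (((n + 1 : ℕ) + 1) * (D * M + Real.log c1 + Λ) + 1) ^ 2 ≤ (κ * M) ^ 2 :=
      pow_le_pow_left₀ (by positivity) h2 2
    calc 4 * (1000 * (r + 4 * δ) ^ 3 * (((n + 1 : ℕ) + 1) * (D * M + Real.log c1 + Λ) + 1) ^ 2 / δ ^ 4)
        ≤ 4 * (1000 * (5 * r) ^ 3 * (κ * M) ^ 2 / δ ^ 4) := by gcongr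
      _ = 500000 * κ ^ 2 * (r ^ 3 * M ^ 2 / δ ^ 4) := by ring
  · intro z hz i j y hy
    rw [hX, hX, hX, hX]
    exact (hosc z hz i j y hy).trans (mul_le_mul_of_nonneg_right hBB (norm_nonneg _))
  · intro z hz y hy
    obtain ⟨h2, -, hyU⟩ := hsU z hz y hy
    obtain ⟨h3, -, hzU⟩ := hsU z hz z (hself z)
    rw [hval' y hyU, hval' z hzU, norm_mul, norm_mul, norm_prod, norm_prod]
    have hpow : ∀ w, g w 0 * g w 0 ^ (D - 1) = g w 0 ^ D := fun w => by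
      rw [← pow_succ', Nat.sub_add_cancel hD1]
    have h4 : ‖MvPolynomial.eval (g y) P / g y 0 ^ D‖ ≤
        B0 * ‖MvPolynomial.eval (g z) P / g z 0 ^ D‖ := by
      have h5 := hb' z hz (Fin.succ 0) 0 y hy
      rw [hvs, hvs, hv0, hv0, hpow, hpow] at h5
      exact h5
    have h5 : ∏ i : Fin n, ‖(g y 0 / g y i.succ) ^ k‖ ≤
        ∏ i : Fin n, (B0 ^ k * ‖(g z 0 / g z i.succ) ^ k‖) := by
      refine Finset.prod_le_prod (fun i _ => norm_nonneg _) fun i _ => ?_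
      rw [norm_pow, norm_pow, ← mul_pow]
      exact pow_le_pow_left₀ (norm_nonneg _) (hosc z hz i.succ 0 y hy) k
    rw [Finset.prod_mul_distrib, Finset.prod_const, Finset.card_univ, Fintype.card_fin,
      ← pow_mul, mul_comm k n] at h5
    calc ‖MvPolynomial.eval (g y) P / g y 0 ^ D‖ * ∏ i : Fin n, ‖(g y 0 / g y i.succ) ^ k‖
        ≤ (B0 * ‖MvPolynomial.eval (g z) P / g z 0 ^ D‖) *
          (B0 ^ (n * k) * ∏ i : Fin n, ‖(g z 0 / g z i.succ) ^ k‖) :=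
          mul_le_mul h4 h5 (Finset.prod_nonneg fun i _ => norm_nonneg _) (by positivity)
      _ = B0 ^ (1 + n * k) * (‖MvPolynomial.eval (g z) P / g z 0 ^ D‖ *
          ∏ i : Fin n, ‖(g z 0 / g z i.succ) ^ k‖) := by
          rw [pow_add, pow_one]
          ring

end Pool.Agent.Q72.NW
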