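import Pool.Agent.Q72.NW.Main
import Pool.Agent.Q72.TR.Rows

/-!
Comparison of the characteristic functions; the inequality for transcendental curves.
-/

set_option autoImplicit false

namespace Pool.Agent.Q72.NW

open Filter Metric Set Topology MvPolynomial FF MeasureTheory
open Pool.Agent.W603.LV Pool.Agent.W602.GT Pool.Agent.Q72.NA Pool.Agent.W603.BP
open Pool.Agent.Y192.OG (Curve Rad Lau a_ring dom)
open Pool.Agent.Q72.TR (Tm Nb CharT wgt Tm_int eval_bound norm_le_coord zs)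
open Pool.Agent.Q72.SH (coord_diff eval_diff)

theorem eval_sm {N : ℕ} {H : MvPolynomial (Fin (N + 1)) ℂ} {D : ℕ} (hH : H.IsHomogeneous D)
    (t : ℂ) (x : Fin (N + 1) → ℂ) : eval (t • x) H = t ^ D * eval x H :=
  Pool.Agent.TH143.EL.eval_smul_homog hH t x

theorem cone_bound {N n : ℕ} {S : Set (Fin (N + 1) → ℂ)} (hS : IsClosed S)
    (hc : ∀ x ∈ S, ∀ t : ℂ, t • x ∈ S) (f : Fin (n + 1) → MvPolynomial (Fin (N + 1)) ℂ) {e : ℕ}
    (he : 0 < e) (hf : ∀ i, (f i).IsHomogeneous e)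
    (h0 : ∀ x ∈ S, x ≠ 0 → ∃ i, eval x (f i) ≠ 0) :
    ∃ c : ℝ, 0 < c ∧ ∀ x ∈ S, c * ‖x‖ ^ e ≤ ‖fun i => eval x (f i)‖ := by
  obtain ⟨g, hg⟩ : ∃ g : (Fin (N + 1) → ℂ) → (Fin (n + 1) → ℂ), ∀ x, g x = fun i => eval x (f i) :=
    ⟨_, fun _ => rfl⟩
  have hgc : Continuous fun x => ‖g x‖ := by
    simp only [hg]
    exact (continuous_pi fun i => MvPolynomial.continuous_eval (f i)).norm
  have hK : IsCompact (S ∩ sphere 0 1) := (isCompact_sphere 0 1).inter_left hS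
  have hhom : ∀ (t : ℂ) (x : Fin (N + 1) → ℂ), ‖g (t • x)‖ = ‖t‖ ^ e * ‖g x‖ := by
    intro t x
    have h1 : g (t • x) = t ^ e • g x := by
      funext i
      rw [hg, hg, Pi.smul_apply, smul_eq_mul]
      exact eval_sm (hf i) t x
    rw [h1, norm_smul, norm_pow]
  have hscale : ∀ x ∈ S, x ≠ 0 → ∃ y ∈ S ∩ sphere 0 1, ‖g x‖ = ‖x‖ ^ e * ‖g y‖ := by
    intro x hx hx0
    have hn : ‖x‖ ≠ 0 := norm_ne_zero_iff.2 hx0
    have hnc : (‖x‖ : ℂ) ≠ 0 := by exact_mod_cast hn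
    refine ⟨((‖x‖ : ℂ)⁻¹) • x, ⟨hc x hx _, ?_⟩, ?_⟩
    · rw [mem_sphere, dist_zero_right, norm_smul, norm_inv, Complex.norm_real, norm_norm,
        inv_mul_cancel₀ hn]
    · have h2 : x = (‖x‖ : ℂ) • (((‖x‖ : ℂ)⁻¹) • x) := by
        rw [smul_smul, mul_inv_cancel₀ hnc, one_smul]
      conv_lhs => rw [h2]
      rw [hhom, Complex.norm_real, norm_norm]
  by_cases hne : (S ∩ sphere 0 1).Nonempty
  · obtain ⟨p, hp, hmin⟩ := hK.exists_isMinOn hne hgc.continuousOn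
    refine ⟨‖g p‖, ?_, fun x hx => ?_⟩
    · rw [norm_pos_iff, hg]
      intro h
      have hp0 : p ≠ 0 := by
        rintro rfl
        have := hp.2
        rw [mem_sphere, dist_self] at this
        exact zero_ne_one this
      obtain ⟨i, hi⟩ := h0 p hp.1 hp0
      exact hi (congrFun h i)
    · rw [← hg]
      by_cases hx0 : x = 0
      · rw [hx0, norm_zero, zero_pow he.ne', mul_zero]
        exact norm_nonneg _
      · obtain ⟨y, hy, h⟩ := hscale x hx hx0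
        rw [h, mul_comm]
        exact mul_le_mul_of_nonneg_left (hmin hy) (by positivity)
  · refine ⟨1, one_pos, fun x hx => ?_⟩
    by_cases hx0 : x = 0
    · rw [hx0, norm_zero, zero_pow he.ne', mul_zero]
      exact norm_nonneg _
    · obtain ⟨y, hy, -⟩ := hscale x hx hx0
      exact absurd ⟨y, hy⟩ hne

/-- the cone over the variety with the generic point `a` -/
def Cone {N : ℕ} {K : Type} [Field K] [Algebra ℂ K] (a : Fin (N + 1) → K) :
    Set (Fin (N + 1) → ℂ) :=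
  {x | ∀ (H : MvPolynomial (Fin (N + 1)) ℂ) (D : ℕ), H.IsHomogeneous D → aeval a H = 0 →
    eval x H = 0}

theorem cone_closed {N : ℕ} {K : Type} [Field K] [Algebra ℂ K] (a : Fin (N + 1) → K) :
    IsClosed (Cone a) := by
  have h1 : Cone a = ⋂ (H : MvPolynomial (Fin (N + 1)) ℂ) (D : ℕ) (_ : H.IsHomogeneous D)
      (_ : aeval a H = 0), {x | eval x H = 0} := by
    ext x
    simp only [Cone, Set.mem_iInter, Set.mem_ofPred_eq]
  rw [h1]
  refine isClosed_iInter fun H => isClosed_iInter fun D => isClosed_iInter fun _ =>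
    isClosed_iInter fun _ => ?_
  exact isClosed_eq (MvPolynomial.continuous_eval H) continuous_const

theorem cone_smul {N : ℕ} {K : Type} [Field K] [Algebra ℂ K] {a : Fin (N + 1) → K}
    {x : Fin (N + 1) → ℂ} (hx : x ∈ Cone a) (t : ℂ) : t • x ∈ Cone a := by
  intro H D hH hHa
  rw [eval_sm hH, hx H D hH hHa, mul_zero]

/-- the counting function of the points where one of the forms vanishes, each counted once -/
noncomputable def CountD {N n : ℕ} (f : Fin (n + 1) → MvPolynomial (Fin (N + 1)) ℂ)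
    (w : ℂ → Fin (N + 1) → ℂ) (r : ℝ) : ℝ :=
  ∑ᶠ (x : ℂ) (_ : x ∈ {x | ∃ i, eval (w x) (f i) = 0}), wgt r x

theorem countD_eq {N n : ℕ} {f : Fin (n + 1) → MvPolynomial (Fin (N + 1)) ℂ}
    {w : ℂ → Fin (N + 1) → ℂ} (hne : ∀ i, ∃ y, eval (w y) (f i) ≠ 0) (r : ℝ) :
    CountD f w r = Nb (fun z i => eval (w z) (f i)) 1 r := by
  have h1 : zs (fun z i => eval (w z) (f i)) 1 = {x | ∃ i, eval (w x) (f i) = 0} := by
    ext x
    exact mem_zs_one hne
  unfold CountD Nb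
  rw [h1]

/-- the inequality `ε T(r) ≤ N(r)` outside of a set of finite measure -/
def Out {N n : ℕ} (ε : ℝ) (f : Fin (n + 1) → MvPolynomial (Fin (N + 1)) ℂ)
    (w : ℂ → Fin (N + 1) → ℂ) : Prop :=
  ∃ X : Set ℝ, volume X < ⊤ ∧ ∀ r, 0 < r → r ∉ X → ε * CharT w r ≤ CountD f w r

/-- transcendental curves -/
def Tra {N : ℕ} (w : ℂ → Fin (N + 1) → ℂ) : Prop :=
  ∀ C : ℝ, ∃ R0 : ℝ, ∀ r, R0 ≤ r → C * Real.log r ≤ Tm w r

theorem g_diff {N n : ℕ} (f : Fin (n + 1) → MvPolynomial (Fin (N + 1)) ℂ)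
    {w : ℂ → Fin (N + 1) → ℂ} (hw : Differentiable ℂ w) :
    Differentiable ℂ (fun z i => eval (w z) (f i)) :=
  differentiable_pi.2 fun i => eval_diff hw (f i)

theorem char_cmp {N n : ℕ} {S : Set (Fin (N + 1) → ℂ)}
    {f : Fin (n + 1) → MvPolynomial (Fin (N + 1)) ℂ} {e : ℕ} {c : ℝ} (hc0 : 0 < c)
    (hc : ∀ x ∈ S, c * ‖x‖ ^ e ≤ ‖fun i => eval x (f i)‖)
    {w : ℂ → Fin (N + 1) → ℂ} (hw : Differentiable ℂ w) (hw0 : ∀ z, w z ≠ 0) (hwS : ∀ z, w z ∈ S)
    (r : ℝ) : e * Tm w r + Real.log c ≤ Tm (fun z i => eval (w z) (f i)) r := by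
  have hpos : ∀ z, 0 < c * ‖w z‖ ^ e := fun z =>
    mul_pos hc0 (pow_pos (norm_pos_iff.2 (hw0 z)) _)
  have h0 : ∀ z, (fun i => eval (w z) (f i)) ≠ 0 := fun z =>
    norm_pos_iff.1 ((hpos z).trans_le (hc _ (hwS z)))
  have i1 := Tm_int hw hw0 r
  have i2 := Tm_int (g_diff f hw) h0 r
  have i3 : CircleIntegrable (fun z => (e : ℝ) * Real.log ‖w z‖) 0 r := i1.const_fun_smul
  have e1 : e * Tm w r + Real.log c =
      Real.circleAverage (fun z => (e : ℝ) * Real.log ‖w z‖ + Real.log c) 0 r := by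
    rw [Real.circleAverage_fun_add i3 (circleIntegrable_const _ _ _), Real.circleAverage_const]
    congr 1
    exact (Real.circleAverage_fun_smul (a := (e : ℝ)) (f := fun z => Real.log ‖w z‖)).symm
  rw [e1]
  apply Real.circleAverage_mono (i3.add (circleIntegrable_const _ _ _)) i2
  intro z _
  show (e : ℝ) * Real.log ‖w z‖ + Real.log c ≤ Real.log ‖fun i => eval (w z) (f i)‖
  have h1 : (e : ℝ) * Real.log ‖w z‖ + Real.log c = Real.log (c * ‖w z‖ ^ e) := by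
    rw [Real.log_mul hc0.ne' (pow_pos (norm_pos_iff.2 (hw0 z)) _).ne', Real.log_pow]
    ring
  rw [h1]
  exact Real.log_le_log (hpos z) (hc _ (hwS z))

theorem tr_main {N n d : ℕ} (K : Type) [Field K] [Algebra ℂ K] (a : Fin (N + 1) → K)
    (hK : IntermediateField.adjoin ℂ {g : K | ∃ i j, a j ≠ 0 ∧ g = a i / a j} = ⊤)
    (f : Fin (n + 1) → MvPolynomial (Fin (N + 1)) ℂ) (e : ℕ) (he : 0 < e)
    (hf : ∀ i, (f i).IsHomogeneous e)
    (hf0 : ∀ i, aeval a (f i) ≠ 0)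
    (hcz : ∀ x ∈ Cone a, x ≠ 0 → ∃ i, eval x (f i) ≠ 0)
    (halg : Algebra.IsAlgebraic
      (IntermediateField.adjoin ℂ (Set.range fun i => aeval a (f i) / aeval a (f 0))) K)
    (hlgt : LogGeneralType ℂ K d fun P => ∃ i, P.ord (aeval a (f i)) ≠ P.ord (aeval a (f 0))) :
    ∃ (B : MvPolynomial (Fin (N + 1)) ℂ) (E : ℕ) (ε : ℝ), B.IsHomogeneous E ∧
      aeval a B ≠ 0 ∧ (∀ x : Fin (N + 1) → ℂ, eval x B ≠ 0 → ∀ i, eval x (f i) ≠ 0) ∧ 0 < ε ∧
      ∀ w : ℂ → Fin (N + 1) → ℂ, Differentiable ℂ w → (∀ z, w z ≠ 0) → (∀ z, w z ∈ Cone a) →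
        (∃ z, eval (w z) B ≠ 0) → Tra w → Out ε f w := by
  obtain ⟨B, E, F, μ, hB, hBa, hBf, hmain⟩ := liftcur K a hK f e hf hf0 halg hlgt
  obtain ⟨c, hc0, hc⟩ := cone_bound (cone_closed a) (fun x hx t => cone_smul hx t) f he hf hcz
  obtain ⟨ε', hε'⟩ : ∃ ε' : ℝ, ε' = 1 / (2 * (n + 1) * (μ + 1)) := ⟨_, rfl⟩
  have hε'0 : 0 < ε' := by rw [hε']; positivity
  refine ⟨B, E, ε' / 2, hB, hBa, hBf, by positivity, ?_⟩
  intro w hw hw0 hwS hwB htr
  have hne : ∀ i, ∃ y, eval (w y) (f i) ≠ 0 := by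
    obtain ⟨z, hz⟩ := hwB
    exact fun i => ⟨z, hBf _ hz i⟩
  have hg := g_diff f hw
  have hpos : ∀ z, 0 < c * ‖w z‖ ^ e := fun z =>
    mul_pos hc0 (pow_pos (norm_pos_iff.2 (hw0 z)) _)
  have h0 : ∀ z, (fun i => eval (w z) (f i)) ≠ 0 := fun z =>
    norm_pos_iff.1 ((hpos z).trans_le (hc _ (hwS z)))
  have hcmp := char_cmp hc0 hc hw hw0 hwS
  obtain ⟨hF, hno⟩ := hmain (cur (fun z i => eval (w z) (f i)) hg h0 hne) w hw
    (fun H D hH hHa z => hwS z H D hH hHa) (fun i z => rfl) hwB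
  have he1 : (1 : ℝ) ≤ e := by exact_mod_cast he
  have hT0 : ∃ R0 : ℝ, ∀ r, R0 ≤ r → 0 ≤ Tm w r := by
    obtain ⟨R0, hR0⟩ := htr 0
    exact ⟨R0, fun r hr => by have := hR0 r hr; rwa [zero_mul] at this⟩
  obtain ⟨R1, hR1⟩ := hT0
  have htg : ∀ C : ℝ, ∃ R0 : ℝ, ∀ r, R0 ≤ r →
      C * Real.log r ≤ Tm (fun z i => eval (w z) (f i)) r := by
    intro C
    obtain ⟨R0, hR0⟩ := htr (|C| + 1)
    refine ⟨max (max R0 R1) (max 1 (Real.exp |Real.log c|)), fun r hr => ?_⟩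
    have h1 : R0 ≤ r := ((le_max_left _ _).trans (le_max_left _ _)).trans hr
    have h2 : R1 ≤ r := ((le_max_right _ _).trans (le_max_left _ _)).trans hr
    have h3 : 1 ≤ r := ((le_max_left _ _).trans (le_max_right _ _)).trans hr
    have h4 : Real.exp |Real.log c| ≤ r := ((le_max_right _ _).trans (le_max_right _ _)).trans hr
    have h5 : |Real.log c| ≤ Real.log r := by
      rw [Real.le_log_iff_exp_le (by linarith)]
      exact h4
    have h6 := hR0 r h1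
    have h7 := hR1 r h2
    have h8 := hcmp r
    have h9 : Tm w r ≤ e * Tm w r := le_mul_of_one_le_left h7 he1
    have h10 := neg_abs_le (Real.log c)
    have h11 : C * Real.log r ≤ |C| * Real.log r :=
      mul_le_mul_of_nonneg_right (le_abs_self C) (Real.log_nonneg h3)
    linarith
  have hvol := grow hg h0 hne htg F hF μ hno
  rw [← hε'] at hvol
  obtain ⟨R2, hR2⟩ := htr 1
  refine ⟨{r : ℝ | 1 ≤ r ∧ Nb (fun z i => eval (w z) (f i)) 1 r <
      ε' * Tm (fun z i => eval (w z) (f i)) r} ∪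
      Set.Icc 0 (max (max 1 R2) (Real.exp |2 * Real.log c + Real.log ‖w 0‖|)), ?_,
      fun r hr hrX => ?_⟩
  · refine lt_of_le_of_lt (measure_union_le _ _) ?_
    rw [Real.volume_Icc]
    exact ENNReal.add_lt_top.2 ⟨hvol, ENNReal.ofReal_lt_top⟩
  · have h1 : max (max 1 R2) (Real.exp |2 * Real.log c + Real.log ‖w 0‖|) < r := by
      by_contra h
      exact hrX (Or.inr ⟨hr.le, not_lt.1 h⟩)
    have h2 : 1 ≤ r := ((le_max_left _ _).trans (le_max_left _ _)).trans h1.le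
    have h3 : R2 ≤ r := ((le_max_right _ _).trans (le_max_left _ _)).trans h1.le
    have h4 : Real.exp |2 * Real.log c + Real.log ‖w 0‖| ≤ r := (le_max_right _ _).trans h1.le
    have h5 : |2 * Real.log c + Real.log ‖w 0‖| ≤ Real.log r := by
      rw [Real.le_log_iff_exp_le (by linarith)]
      exact h4
    have h6 := hR2 r h3
    rw [one_mul] at h6
    have h7 : ε' * Tm (fun z i => eval (w z) (f i)) r ≤ Nb (fun z i => eval (w z) (f i)) 1 r := by
      by_contra h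
      exact hrX (Or.inl ⟨h2, not_le.1 h⟩)
    rw [countD_eq hne]
    refine le_trans ?_ h7
    have h8 := hcmp r
    have h9 : 0 ≤ Tm w r := le_trans (Real.log_nonneg h2) h6
    have h10 : Tm w r ≤ e * Tm w r := le_mul_of_one_le_left h9 he1
    have h11 := neg_abs_le (2 * Real.log c + Real.log ‖w 0‖)
    have h12 : 1 / 2 * CharT w r ≤ Tm (fun z i => eval (w z) (f i)) r := by
      show 1 / 2 * (Tm w r - Real.log ‖w 0‖) ≤ _
      linarith
    have h13 := mul_le_mul_of_nonneg_left h12 hε'0.le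
    linarith

end Pool.Agent.Q72.NW
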