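import Pool.Agent.Q72.NW.Data
import Pool.Agent.Q72.TR.Main

/-!
The curve given by entire functions: comparison of the characteristic functions.
-/

set_option autoImplicit false

namespace Pool.Agent.Q72.NW

open Filter Metric Set Topology Pool.Agent.W603.BP Pool.Agent.H159R3.NV
open Pool.Agent.Y192.OG (Curve Rad Lau a_ord a_ring dom a_cnt a_ht a_jen)
open Pool.Agent.Y141.OG (Pc ext_of_le)
open Pool.Agent.Q72.TR (Tm Nb Nb_eq wgt wgt_nonneg mem_zz zz zs Tm_int norm_le_coord exists_coord)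
open Pool.Agent.Q72.SH (coord_diff eval_diff)

variable {n : ℕ} {g : ℂ → Fin (n + 1) → ℂ}

theorem ext_ne (hg : Differentiable ℂ g) {i : Fin (n + 1)} (hi : ∃ y, g y i ≠ 0) (r : ℝ) :
    ∃ z ∈ Ext r, g z i ≠ 0 := by
  by_contra hcon
  push Not at hcon
  obtain ⟨y, hy⟩ := hi
  apply hy
  have h1 : AnalyticOnNhd ℂ (fun z => g z i) Set.univ := fun z _ => (coord_diff hg i).analyticAt z
  obtain ⟨z0, hz0⟩ : ∃ z0 : ℂ, z0 ∈ Ext r := ⟨((|r| + 1 : ℝ) : ℂ), by
    show r < ‖((|r| + 1 : ℝ) : ℂ)‖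
    rw [Complex.norm_real, Real.norm_of_nonneg (by positivity)]
    have := le_abs_self r
    linarith⟩
  have h2 : (fun z => g z i) =ᶠ[𝓝 z0] 0 := by
    filter_upwards [(Ext_open r).mem_nhds hz0] with w hw
    exact hcon w hw
  exact h1.eqOn_zero_of_preconnected_of_eventuallyEq_zero isPreconnected_univ (mem_univ z0) h2
    (mem_univ y)

/-- the curve given by entire functions without common zeros -/
noncomputable def cur (g : ℂ → Fin (n + 1) → ℂ) (hg : Differentiable ℂ g) (h0 : ∀ z, g z ≠ 0)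
    (hne : ∀ i, ∃ y, g y i ≠ 0) : Curve n where
  r0 := 1
  X i z := g z i
  hr0 := le_rfl
  an i z _ := (coord_diff hg i).analyticAt z
  ncz z _ := Function.ne_iff.1 (h0 z)
  nz i := ext_ne hg (hne i) 1

variable (hg : Differentiable ℂ g) (h0 : ∀ z, g z ≠ 0) (hne : ∀ i, ∃ y, g y i ≠ 0)

theorem cur_U {z : ℂ} (hz : 1 < ‖z‖) (h : ∀ i, g z i ≠ 0) : z ∈ (cur g hg h0 hne).U := ⟨hz, h⟩

theorem eval_one (x : Fin (n + 1) → ℂ) : MvPolynomial.eval x (1 : MvPolynomial (Fin (n + 1)) ℂ) ≠ 0 := by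
  rw [map_one]
  exact one_ne_zero

theorem mem_zs_one {x : ℂ} (hne : ∀ i, ∃ y, g y i ≠ 0) :
    x ∈ zs g (1 : MvPolynomial (Fin (n + 1)) ℂ) ↔ ∃ i, g x i = 0 := by
  unfold zs
  simp only [Set.mem_ofPred_eq]
  constructor
  · rintro (⟨l, -, h⟩ | h)
    · exact ⟨l, h⟩
    · exact absurd h (eval_one _)
  · rintro ⟨l, h⟩
    exact Or.inl ⟨l, hne l, h⟩

theorem cnt_le {R : ℝ} (hR : 1 ≤ R) :
    (cur g hg h0 hne).cnt (fun z => ((cur g hg h0 hne).bad z : ℤ)) R ≤ Nb g 1 R := by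
  classical
  have hQ : ∃ y, MvPolynomial.eval (g y) (1 : MvPolynomial (Fin (n + 1)) ℂ) ≠ 0 :=
    ⟨0, eval_one _⟩
  rw [Nb_eq hg hQ (by linarith)]
  unfold Curve.cnt
  have h1 : ∀ z : ℂ, ((cur g hg h0 hne).bad z : ℤ) = if ∃ i, g z i = 0 then 1 else 0 := by
    intro z
    unfold Curve.bad
    rfl
  set T : Finset ℂ := (zz hg hQ R).filter fun z => 2 ≤ ‖z‖ with hT
  have h2 : ∑ᶠ z ∈ {z : ℂ | (cur g hg h0 hne).r0 + 1 ≤ ‖z‖ ∧ ‖z‖ ≤ R},
      (((cur g hg h0 hne).bad z : ℤ) : ℝ) * Real.log (R / ‖z‖) =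
      ∑ z ∈ T, (((cur g hg h0 hne).bad z : ℤ) : ℝ) * Real.log (R / ‖z‖) := by
    apply finsum_mem_eq_sum_of_inter_support_eq
    ext z
    simp only [Set.mem_inter_iff, Set.mem_ofPred_eq, Function.mem_support, Finset.mem_coe, hT,
      Finset.mem_filter, mem_zz, mem_zs_one hne]
    have e1 : (cur g hg h0 hne).r0 + 1 = 2 := by
      show (1 : ℝ) + 1 = 2
      norm_num
    rw [e1]
    constructor
    · rintro ⟨⟨a1, a2⟩, a3⟩
      refine ⟨⟨⟨a2, ?_⟩, a1⟩, a3⟩
      by_contra hcon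
      apply a3
      rw [h1, if_neg hcon]
      simp
    · rintro ⟨⟨⟨a1, a2⟩, a3⟩, a4⟩
      exact ⟨⟨a3, a1⟩, a4⟩
  rw [h2]
  calc ∑ z ∈ T, (((cur g hg h0 hne).bad z : ℤ) : ℝ) * Real.log (R / ‖z‖)
      ≤ ∑ z ∈ T, wgt R z := by
        refine Finset.sum_le_sum fun z hz => ?_
        rw [hT, Finset.mem_filter, mem_zz] at hz
        have h3 : z ≠ 0 := by
          rintro rfl
          have := hz.2
          rw [norm_zero] at this
          linarith
        have h4 : wgt R z = Real.log (R / ‖z‖) := by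
          unfold wgt
          rw [if_neg h3, if_pos hz.1.1]
        have h5 : 0 ≤ Real.log (R / ‖z‖) := by
          rw [← h4]
          exact wgt_nonneg hR z
        rw [h4, h1]
        split_ifs
        · simp
        · simpa using h5
    _ ≤ ∑ z ∈ zz hg hQ R, wgt R z :=
        Finset.sum_le_sum_of_subset_of_nonneg (Finset.filter_subset _ _)
          fun z _ _ => wgt_nonneg hR z

theorem lam_eq (c : Curve n) (z : ℂ) (i : Fin n) :
    c.lam z (Pi.single i 1) = Real.log ‖c.X i.succ z‖ - Real.log ‖c.X 0 z‖ := by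
  unfold Curve.lam
  rw [Finset.sum_eq_single i]
  · rw [Pi.single_eq_same, Int.cast_one, one_mul]
  · intro j _ hj
    rw [Pi.single_eq_of_ne hj, Int.cast_zero, zero_mul]
  · intro h
    exact absurd (Finset.mem_univ i) h

theorem del_eq (c : Curve n) (z : ℂ) (i : Fin n) :
    c.del z (Pi.single i 1) = c.oX i.succ z - c.oX 0 z := by
  unfold Curve.del
  rw [Finset.sum_eq_single i]
  · rw [Pi.single_eq_same, one_mul]
  · intro j _ hj
    rw [Pi.single_eq_of_ne hj, zero_mul]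
  · intro h
    exact absurd (Finset.mem_univ i) h

theorem Tm_le_ch : ∃ C : ℝ, ∀ R : ℝ, 3 ≤ R → (∀ z, ‖z‖ = R → z ∈ (cur g hg h0 hne).U) →
    Tm g R ≤ (cur g hg h0 hne).ch R + C * (1 + Real.log R) := by
  classical
  obtain ⟨c, hc⟩ : ∃ c, c = cur g hg h0 hne := ⟨_, rfl⟩
  rw [← hc]
  have hX : ∀ i z, c.X i z = g z i := fun i z => by rw [hc]; rfl
  have hr0 : c.r0 = 1 := by rw [hc]; rfl
  have hd : ∀ i, Differentiable ℂ (c.X i) := fun i => by
    have : c.X i = fun z => g z i := funext fun z => hX i z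
    rw [this]
    exact coord_diff hg i
  -- the first coordinate
  obtain ⟨F0, hF0v, hF0e⟩ : ∃ F0 : c.Mr, (∀ z ∈ c.U, c.val F0 z = c.X 0 z) ∧
      ∀ z ∈ Ext c.r0, c.val F0 =ᶠ[𝓝[≠] z] c.X 0 :=
    ⟨c.mr (c.X 0) (fun z _ => ((hd 0).analyticAt z).meromorphicAt)
      (fun z _ => (hd 0).analyticAt z), fun z hz => c.val_mr _ _ _ hz,
      fun z hz => c.val_mr_ev _ _ _ hz⟩
  obtain ⟨p, hp⟩ : ∃ p, p ∈ c.U := by
    have h1 : (2 : ℂ) ∈ Ext c.r0 := by
      show c.r0 < ‖(2 : ℂ)‖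
      rw [hr0]
      norm_num
    obtain ⟨p, hp⟩ := (c.U_punct h1).exists
    exact ⟨p, hp⟩
  have hF0 : F0 ≠ 0 := by
    intro h
    have h1 := hF0v p hp
    rw [h, Pool.Agent.Y274.OG.val_zero'] at h1
    exact hp.2 0 h1.symm
  obtain ⟨C, hC⟩ := a_jen n c F0 hF0
  have hord : ∀ z ∈ Ext c.r0, (c.ord z F0).untop₀ = c.oX 0 z := by
    intro z hz
    unfold Curve.ord Curve.oX
    rw [meromorphicOrderAt_congr (hF0e z hz), ((hd 0).analyticAt z).meromorphicOrderAt_eq]
    have h1 : analyticOrderAt (c.X 0) z ≠ ⊤ := by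
      intro h2
      have h3 := analyticOrderAt_eq_top.mp h2
      have h5 := c.X_punct 0 hz
      have h6 : ∀ᶠ w in 𝓝[≠] z, c.X 0 w = 0 := h3.filter_mono nhdsWithin_le_nhds
      obtain ⟨w, hw1, hw2⟩ := (h5.and h6).exists
      exact hw1 hw2
    obtain ⟨k, hk⟩ := ENat.ne_top_iff_exists.1 h1
    rw [← hk]
    simp
  refine ⟨C, fun R hR hRU => ?_⟩
  have hRc : c.r0 + 2 ≤ R := by rw [hr0]; linarith
  have hR0 : (0 : ℝ) < R := by linarith
  have hlamI : ∀ m, CircleIntegrable (fun z => c.lam z m) 0 R := ((a_ht n c).1 R hRc).2.2.2.2.2.1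
  have hsph : ∀ z ∈ sphere (0 : ℂ) |R|, ‖z‖ = R := fun z hz => by
    rw [mem_sphere_zero_iff_norm, abs_of_pos hR0] at hz
    exact hz
  -- the circle averages
  have i1 : CircleIntegrable (fun z => Real.log ‖c.X 0 z‖) 0 R := ci_log (mero_of_diff (hd 0)) R
  have i2 : ∀ i, CircleIntegrable (fun z => |c.lam z (Pi.single i 1)|) 0 R := fun i =>
    (hlamI (Pi.single i 1)).abs
  have i3 : CircleIntegrable (fun z => ∑ i : Fin n, |c.lam z (Pi.single i 1)|) 0 R :=
    CircleIntegrable.fun_sum _ fun i _ => i2 i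
  have h1 : Tm g R ≤ L (c.X 0) R + ∑ i : Fin n,
      Real.circleAverage (fun z => |c.lam z (Pi.single i 1)|) 0 R := by
    have e1 : L (c.X 0) R + ∑ i : Fin n,
        Real.circleAverage (fun z => |c.lam z (Pi.single i 1)|) 0 R =
        Real.circleAverage (fun z => Real.log ‖c.X 0 z‖ +
          ∑ i : Fin n, |c.lam z (Pi.single i 1)|) 0 R := by
      rw [Real.circleAverage_fun_add i1 i3, Real.circleAverage_fun_sum fun l _ => i2 l]
      rfl
    rw [e1]
    apply Real.circleAverage_mono (Tm_int hg h0 R) (i1.add i3)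
    intro z hz
    obtain ⟨l, hl⟩ := exists_coord (g z)
    show Real.log ‖g z‖ ≤ Real.log ‖c.X 0 z‖ + ∑ i : Fin n, |c.lam z (Pi.single i 1)|
    rw [hl]
    refine Fin.cases ?_ (fun i => ?_) l
    · rw [← hX]
      have : 0 ≤ ∑ i : Fin n, |c.lam z (Pi.single i 1)| :=
        Finset.sum_nonneg fun i _ => abs_nonneg _
      linarith
    · rw [← hX]
      have h2 : |c.lam z (Pi.single i 1)| ≤ ∑ i : Fin n, |c.lam z (Pi.single i 1)| :=
        Finset.single_le_sum (f := fun i : Fin n => |c.lam z (Pi.single i 1)|)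
          (fun i _ => abs_nonneg _) (Finset.mem_univ i)
      have h3 := le_abs_self (c.lam z (Pi.single i 1))
      rw [lam_eq] at h3 h2
      linarith
  -- Jensen
  have h2 : L (c.X 0) R ≤ c.cnt (fun z => ((c.ord z F0).untop₀ : ℤ)) R + C * (1 + Real.log R) := by
    have h3 := hC R hRc
    have h4 : Real.circleAverage (fun z => Real.log ‖c.val F0 z‖) 0 R = L (c.X 0) R := by
      unfold L
      apply Real.circleAverage_congr_sphere
      intro z hz
      have hzU := hRU z (hsph z hz)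
      show Real.log ‖c.val F0 z‖ = Real.log ‖c.X 0 z‖
      rw [hF0v z hzU]
    rw [h4] at h3
    have := (abs_le.mp h3).2
    linarith
  -- counting functions
  have pabs : ∀ m', Pc c R (fun z => (|c.del z m'| : ℤ)) (c.cnt (fun z => (|c.del z m'| : ℤ)) R) :=
    fun m' => ⟨(a_cnt n c).2.2.2 _ _ ((a_ord n c).2.2.2.2.2.2.2 m') (fun z _ => by
      push_cast; rw [abs_abs]), rfl⟩
  have hp2 := Pc.sum a_cnt (Finset.univ : Finset (Fin n)) (fun i _ => pabs (Pi.single i 1))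
  have h3 : c.cnt (fun z => ((c.ord z F0).untop₀ : ℤ)) R ≤
      ∑ i : Fin n, c.cnt (fun z => (|c.del z (Pi.single i 1)| : ℤ)) R := by
    rw [← hp2.2]
    refine (a_cnt n c).2.2.1 _ _ ((a_ord n c).2.2.2.2.2.1 F0 hF0) hp2.1 (fun z hz => ?_) R
    have hzE : z ∈ Ext c.r0 := ext_of_le hz
    rw [hord z hzE]
    have hnn : ∀ i : Fin n, (0 : ℤ) ≤ |c.del z (Pi.single i 1)| := fun i => abs_nonneg _
    have hkey : c.oX 0 z ≤ ∑ i : Fin n, |c.del z (Pi.single i 1)| := by
      by_cases h4 : c.X 0 z = 0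
      · obtain ⟨l, hl⟩ := c.ncz z hzE
        obtain ⟨i, rfl⟩ : ∃ i : Fin n, l = i.succ := by
          refine ⟨l.pred ?_, (Fin.succ_pred l ?_).symm⟩ <;>
          · rintro rfl
            exact hl h4
        have hl' : c.oX i.succ z = 0 := by
          unfold Curve.oX
          rw [(c.an _ z hzE).analyticOrderAt_eq_zero.mpr hl]
          rfl
        refine le_trans ?_ (Finset.single_le_sum
          (f := fun i : Fin n => |c.del z (Pi.single i 1)|) (fun i _ => hnn i)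
          (Finset.mem_univ i))
        rw [del_eq, hl', zero_sub, abs_neg]
        exact le_abs_self _
      · have hl' : c.oX 0 z = 0 := by
          unfold Curve.oX
          rw [(c.an _ z hzE).analyticOrderAt_eq_zero.mpr h4]
          rfl
        rw [hl']
        exact Finset.sum_nonneg fun i _ => hnn i
    exact_mod_cast hkey
  have h4 : c.ch R = ∑ i : Fin n, Real.circleAverage (fun z => |c.lam z (Pi.single i 1)|) 0 R +
      ∑ i : Fin n, c.cnt (fun z => (|c.del z (Pi.single i 1)| : ℤ)) R := by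
    unfold Curve.ch Curve.ht
    rw [Finset.sum_add_distrib]
  rw [h4]
  linarith

end Pool.Agent.Q72.NW
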