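import Pool.Agent.Q72.NW.C6
import Pool.Agent.Q72.NA.Core
import Pool.Agent.Y458.OG.Icl
import Pool.Agent.Y274.OG.Geom1

/-!
Curves in varieties of log general type over tori: the estimate for one curve.
-/

set_option autoImplicit false

namespace Pool.Agent.Q72.NW

open Filter Metric Set Topology FF Pool.Agent.W603.LV Pool.Agent.W602.GT
open Pool.Agent.Y192.OG (Curve Rad Lau alg_all ep ep_single xm IsV a_ord a_ring dom)
open Pool.Agent.Y274.OG (val_zero' evz evz_apply)

variable {n : ℕ}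

theorem data (K : Type) [Field K] [Algebra ℂ K] [Algebra.EssFiniteType ℂ K] (n d : ℕ)
    (x : Fin n → Kˣ)
    (halg : ∀ z : K, IsAlgebraic (IntermediateField.adjoin ℂ (Set.range fun i => (x i : K))) z)
    (hlgt : LogGeneralType ℂ K d (fun P => ∃ i, P.ord (x i : K) ≠ 0)) :
    ∃ (R : Subalgebra ℂ K) (j : Lau n →ₐ[ℂ] R) (G f : Lau n) (μ : ℕ), R.FG ∧
      (∀ g, (j g : K) = ep x g) ∧ (j : Lau n →+* R).IsIntegral ∧ j G ≠ 0 ∧
      ∀ (c : Curve n) (η : R →ₐ[ℂ] c.Mr), (∀ g, η (j g) = c.ev g) → c.ev G ≠ 0 →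
        c.ev f ≠ 0 ∧ ∀ r : Rad c (c.ev f), ¬ Few μ r := by
  classical
  have h1 : ep x (1 : Lau n) = 1 := map_one _
  have hBd : (fun P : Place ℂ K => (∃ i, P.ord (x i : K) ≠ 0) ∨ P.ord (ep x (1 : Lau n)) = 1) =
      fun P => ∃ i, P.ord (x i : K) ≠ 0 := by
    funext P
    rw [h1, P.ord_one]
    simp
  obtain ⟨R, j, f, κ, s, h, Γ₀, hFG, hj, hint, hf, hrad, hleast, hom0, H2, H3, hv⟩ :=
    alg_all K n d x 1 (by rw [h1]; exact one_ne_zero) halg (by rw [hBd]; exact hlgt)
  have hinj : Function.Injective (algebraMap R K) := Subtype.val_injective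
  have hjx : ∀ i : Fin n, algebraMap R K (j (AddMonoidAlgebra.single (Pi.single i 1) 1)) =
      (x i : K) := by
    intro i
    have e1 : algebraMap R K (j (AddMonoidAlgebra.single (Pi.single i 1) 1)) =
      ep x (AddMonoidAlgebra.single (Pi.single i 1) 1) := hj _
    rw [e1, ep_single, one_smul]
    unfold xm
    rw [Finset.prod_eq_single i]
    · rw [Pi.single_eq_same, zpow_one]
    · intro l _ hl
      rw [Pi.single_eq_of_ne hl, zpow_zero]
    · intro hi
      exact absurd (Finset.mem_univ i) hi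
  obtain ⟨μ, G, hG, hmain⟩ := curvesN (K := K) (R := R) hinj hint hf hrad
    hleast hom0 H2 (fun i => by rw [hjx]; exact H3 i)
  refine ⟨R, j, G, f, μ, hFG, hj, hint, hG, fun c η hη hev => ?_⟩
  refine hmain c ⟨η, hη, fun i z hz hf1 => ?_⟩ hev
  obtain ⟨o1, o2, -, o4, -, o6⟩ := (a_ord n c).1 z hz.1
  have hone : c.ord z (1 : c.Mr) = 0 := Pool.Agent.Y458.OG.ord_one' c hz.1
  refine hv (fun r => c.ord z (η r)) ⟨?_, ?_, ?_, ?_⟩ ?_ ?_ i
  · show c.ord z (η 1) = 0
    rw [map_one]
    exact hone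
  · intro a b
    show c.ord z (η (a * b)) = _
    rw [map_mul]
    exact o1 _ _
  · intro a b
    show _ ≤ c.ord z (η (a + b))
    rw [map_add]
    exact o2 _ _
  · intro a
    exact o4 hz _
  · show c.ord z (η (j f)) = 1
    rw [hη]
    exact hf1
  · show c.ord z (η (j 1)) ≠ 1
    rw [map_one, map_one, hone]
    exact zero_ne_one

/-- The lift of a curve. -/
theorem lift {K : Type} [Field K] [Algebra ℂ K] {n : ℕ} {R : Subalgebra ℂ K}
    {j : Lau n →ₐ[ℂ] R} (hint : (j : Lau n →+* R).IsIntegral) (c : Curve n) [IsDomain c.Mr]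
    (φ : R →ₐ[ℂ] FractionRing c.Mr)
    (hφ : ∀ i : Fin n, φ (j (AddMonoidAlgebra.single (Pi.single i 1) 1)) =
      algebraMap c.Mr (FractionRing c.Mr) (c.mon (Pi.single i 1))) :
    ∃ η : R →ₐ[ℂ] c.Mr, (∀ g, η (j g) = c.ev g) ∧
      ∀ r, algebraMap c.Mr (FractionRing c.Mr) (η r) = φ r := by
  let M := FractionRing c.Mr
  have hinj : Function.Injective (algebraMap c.Mr M) := IsFractionRing.injective c.Mr M
  let ι : c.Mr →ₐ[ℂ] M := IsScalarTower.toAlgHom ℂ c.Mr M
  have hι : ∀ r, ι r = algebraMap c.Mr M r := fun r => rfl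
  have hmon0 : ∀ m, c.mon m ≠ 0 := fun m => (c.monu m).ne_zero
  let y : Fin n → Mˣ := fun i => Units.mk0 (ι (c.mon (Pi.single i 1))) (by
    intro h0
    exact hmon0 _ (hinj (by rw [map_zero]; exact h0)))
  have hy : ∀ i, (y i : M) = ι (c.mon (Pi.single i 1)) := fun i => rfl
  have key : ∀ g : Lau n, φ (j g) = ι (c.ev g) := by
    intro g
    have e1 : (φ.comp j : Lau n →ₐ[ℂ] M) = ι.comp c.ev := by
      apply AddMonoidAlgebra.algHom_ext
      · intro m
        show φ (j (AddMonoidAlgebra.single m 1)) = ι (c.ev (AddMonoidAlgebra.single m 1))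
        rw [Pool.Agent.Q72.NA.mono_eq φ j y hφ m,
          Pool.Agent.Q72.NA.mono_eq ι c.ev y (fun i => by rw [c.ev_single, one_smul, hy]) m]
      · exact Subsingleton.elim _ _
    exact DFunLike.congr_fun e1 g
  have hrange : ∀ r : R, ∃ z : c.Mr, algebraMap c.Mr M z = φ r := by
    intro r
    apply Pool.Agent.Y458.OG.t_icl n c
    obtain ⟨p, hp1, hp2⟩ := hint r
    refine ⟨p.map (c.ev : Lau n →+* c.Mr), hp1.map _, ?_⟩
    rw [Polynomial.eval₂_map]
    have h6 : (algebraMap c.Mr M).comp (c.ev : Lau n →+* c.Mr)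
        = ((φ : R →ₐ[ℂ] M) : R →+* M).comp (j : Lau n →+* R) := by
      refine RingHom.ext fun g => ?_
      exact (key g).symm
    rw [h6]
    have h7 := congrArg ((φ : R →ₐ[ℂ] M) : R →+* M) hp2
    rw [Polynomial.hom_eval₂, map_zero] at h7
    exact h7
  choose η0 hη0 using hrange
  refine ⟨{ toFun := η0
            map_one' := hinj (by rw [hη0, map_one, map_one])
            map_mul' := fun r s => hinj (by rw [map_mul, hη0, hη0, hη0, map_mul])
            map_zero' := hinj (by rw [hη0, map_zero, map_zero])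
            map_add' := fun r s => hinj (by rw [map_add, hη0, hη0, hη0, map_add])
            commutes' := fun r => hinj (by
              rw [hη0, AlgHom.commutes, ← IsScalarTower.algebraMap_apply]) },
    fun g => ?_, fun r => hη0 r⟩
  apply hinj
  show algebraMap c.Mr M (η0 (j g)) = _
  rw [hη0, key]
  rfl

end Pool.Agent.Q72.NW
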