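import Pool.Agent.Q72.NW.All
import Pool.Agent.W601.PH.Elim

/-!
Forms without common zeros give a finite morphism.
-/

set_option autoImplicit false

namespace Pool.Agent.Q72.NW

open MvPolynomial
open Pool.Agent.W601.PH (comp_mul)

variable {N n : ℕ} {K : Type} [Field K] [Algebra ℂ K] {a : Fin (N + 1) → K}

/-- a power of each coordinate is in the ideal -/
theorem pow_mem (f : Fin (n + 1) → MvPolynomial (Fin (N + 1)) ℂ)
    (hcz : ∀ x ∈ Cone a, x ≠ 0 → ∃ i, eval x (f i) ≠ 0) (j : Fin (N + 1)) :
    ∃ m : ℕ, (X j : MvPolynomial (Fin (N + 1)) ℂ) ^ m ∈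
      Ideal.span ({H | (∃ D, H.IsHomogeneous D) ∧ aeval a H = 0} ∪ Set.range f) := by
  set I := Ideal.span ({H : MvPolynomial (Fin (N + 1)) ℂ | (∃ D, H.IsHomogeneous D) ∧
    aeval a H = 0} ∪ Set.range f) with hI
  have h1 : (X j : MvPolynomial (Fin (N + 1)) ℂ) ∈ I.radical := by
    rw [← vanishingIdeal_zeroLocus_eq_radical (K := ℂ), mem_vanishingIdeal_iff]
    intro x hx
    rw [hI, zeroLocus_span] at hx
    have h2 : x = 0 := by
      by_contra h0
      obtain ⟨i, hi⟩ := hcz x (fun H D hH hHa => by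
        exact hx H (Or.inl ⟨⟨D, hH⟩, hHa⟩)) h0
      exact hi (hx (f i) (Or.inr ⟨i, rfl⟩))
    rw [aeval_X, h2]
    rfl
  exact h1

/-- homogeneous elements of the ideal -/
theorem hom_mem (f : Fin (n + 1) → MvPolynomial (Fin (N + 1)) ℂ) {e : ℕ}
    (hf : ∀ i, (f i).IsHomogeneous e) {G : MvPolynomial (Fin (N + 1)) ℂ}
    (hG : G ∈ Ideal.span ({H | (∃ D, H.IsHomogeneous D) ∧ aeval a H = 0} ∪ Set.range f))
    (D : ℕ) : ∃ g : Fin (n + 1) → MvPolynomial (Fin (N + 1)) ℂ,
      (∀ i, (g i).IsHomogeneous D) ∧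
      aeval a (homogeneousComponent (D + e) G) = ∑ i, aeval a (g i) * aeval a (f i) := by
  classical
  refine Submodule.closure_induction (p := fun G _ =>
    ∃ g : Fin (n + 1) → MvPolynomial (Fin (N + 1)) ℂ, (∀ i, (g i).IsHomogeneous D) ∧
      aeval a (homogeneousComponent (D + e) G) = ∑ i, aeval a (g i) * aeval a (f i)) ?_ ?_ ?_ hG
  · refine ⟨fun _ => 0, fun _ => isHomogeneous_zero _ _ _, ?_⟩
    simp
  · rintro x y _ _ ⟨g, hg, hgx⟩ ⟨g', hg', hgy⟩
    refine ⟨fun i => g i + g' i, fun i => (hg i).add (hg' i), ?_⟩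
    rw [map_add, map_add, hgx, hgy, ← Finset.sum_add_distrib]
    exact Finset.sum_congr rfl fun i _ => by rw [map_add]; ring
  · rintro c x (⟨⟨D', hx⟩, hxa⟩ | ⟨i, rfl⟩)
    · refine ⟨fun _ => 0, fun _ => isHomogeneous_zero _ _ _, ?_⟩
      rw [smul_eq_mul, comp_mul hx, map_mul, hxa]
      simp
    · refine ⟨fun l => if l = i then homogeneousComponent D c else 0, fun l => ?_, ?_⟩
      · simp only
        split_ifs
        · exact homogeneousComponent_isHomogeneous _ _
        · exact isHomogeneous_zero _ _ _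
      · rw [smul_eq_mul, comp_mul (hf i), if_pos (Nat.le_add_left e D), Nat.add_sub_cancel,
          map_mul, Finset.sum_eq_single i]
        · simp only [if_true]
        · intro l _ hl
          simp only [if_neg hl, map_zero, zero_mul]
        · intro h
          exact absurd (Finset.mem_univ i) h

theorem alg_of_nocommon
    (hK : IntermediateField.adjoin ℂ {g : K | ∃ i j, a j ≠ 0 ∧ g = a i / a j} = ⊤)
    (f : Fin (n + 1) → MvPolynomial (Fin (N + 1)) ℂ) (e : ℕ) (he : 0 < e)
    (hf : ∀ i, (f i).IsHomogeneous e) (hf0 : aeval a (f 0) ≠ 0)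
    (hcz : ∀ x ∈ Cone a, x ≠ 0 → ∃ i, eval x (f i) ≠ 0) :
    Algebra.IsAlgebraic
      (IntermediateField.adjoin ℂ (Set.range fun i => aeval a (f i) / aeval a (f 0))) K := by
  classical
  set L := IntermediateField.adjoin ℂ (Set.range fun i => aeval a (f i) / aeval a (f 0)) with hL
  have hfL : ∀ i, aeval a (f i) / aeval a (f 0) ∈ L := fun i =>
    IntermediateField.subset_adjoin _ _ ⟨i, rfl⟩
  choose m hm using fun j => pow_mem (a := a) f hcz j
  set I := Ideal.span ({H : MvPolynomial (Fin (N + 1)) ℂ | (∃ D, H.IsHomogeneous D) ∧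
    aeval a H = 0} ∪ Set.range f) with hI
  obtain ⟨M, hM⟩ : ∃ M : ℕ, M = ∑ j, m j := ⟨_, rfl⟩
  -- forms of large degree are in the ideal
  have hlarge : ∀ (D : ℕ) (G : MvPolynomial (Fin (N + 1)) ℂ), M ≤ D → G.IsHomogeneous D →
      G ∈ I := by
    intro D G hD hG
    rw [G.as_sum]
    refine Ideal.sum_mem _ fun c hc => ?_
    have hdeg : ∑ i, c i = D := by
      have h3 : Finsupp.degree c = D := by
        rw [Finsupp.degree_eq_weight_one]
        exact hG (mem_support_iff.1 hc)
      rw [← h3, Finsupp.degree_eq_sum]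
    obtain ⟨j, hj⟩ : ∃ j, m j ≤ c j := by
      by_contra hcon
      push Not at hcon
      have h1 : ∑ i, c i < ∑ i, m i :=
        Finset.sum_lt_sum_of_nonempty Finset.univ_nonempty fun i _ => hcon i
      omega
    have h1 : monomial c (coeff c G) = monomial (c - Finsupp.single j (m j)) (coeff c G) *
        (X j : MvPolynomial (Fin (N + 1)) ℂ) ^ m j := by
      rw [X_pow_eq_monomial, monomial_mul, mul_one]
      congr 1
      rw [tsub_add_cancel_of_le]
      rw [Finsupp.single_le_iff]
      exact hj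
    rw [h1]
    exact Ideal.mul_mem_left _ _ (hm j)
  -- the finite-dimensional space
  obtain ⟨q, hq⟩ : ∃ q : ℕ, q = M * e := ⟨_, rfl⟩
  have hqM : M ≤ q + e := by
    rw [hq]
    have : M * 1 ≤ M * e := Nat.mul_le_mul_left M he
    omega
  let gen : Set K := {z | ∃ b : Fin (N + 1) → Fin (q + 1), ∑ l, (b l : ℕ) = q ∧
    z = (∏ l, a l ^ (b l : ℕ)) / aeval a (f 0) ^ M}
  have hgenf : gen.Finite := by
    refine (Set.finite_range fun b : Fin (N + 1) → Fin (q + 1) =>
      (∏ l, a l ^ (b l : ℕ)) / aeval a (f 0) ^ M).subset ?_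
    rintro _ ⟨b, -, rfl⟩
    exact ⟨b, rfl⟩
  let V : Submodule L K := Submodule.span L gen
  have hmon : ∀ c : Fin (N + 1) →₀ ℕ, ∑ l, c l = q →
      (∏ l, a l ^ c l) / aeval a (f 0) ^ M ∈ gen := by
    intro c hc
    have hcl : ∀ l, c l ≤ q := fun l => by
      rw [← hc]
      exact Finset.single_le_sum (f := fun l => c l) (fun l _ => Nat.zero_le _) (Finset.mem_univ l)
    exact ⟨fun l => ⟨c l, Nat.lt_succ_of_le (hcl l)⟩, hc, rfl⟩
  have hform : ∀ G : MvPolynomial (Fin (N + 1)) ℂ, G.IsHomogeneous q →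
      aeval a G / aeval a (f 0) ^ M ∈ V := by
    intro G hG
    have h1 : aeval a G / aeval a (f 0) ^ M = ∑ c ∈ G.support,
        algebraMap ℂ L (coeff c G) • ((∏ l, a l ^ c l) / aeval a (f 0) ^ M) := by
      rw [aeval_def, eval₂_eq', Finset.sum_div]
      refine Finset.sum_congr rfl fun c _ => ?_
      rw [Algebra.smul_def, ← IsScalarTower.algebraMap_apply ℂ L K, mul_div_assoc]
    rw [h1]
    refine Submodule.sum_mem _ fun c hc => Submodule.smul_mem _ _ (Submodule.subset_span
      (hmon c ?_))
    have h3 : Finsupp.degree c = q := by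
      rw [Finsupp.degree_eq_weight_one]
      exact hG (mem_support_iff.1 hc)
    rw [← h3, Finsupp.degree_eq_sum]
  -- the elements which preserve the space
  have hstable : ∀ G : MvPolynomial (Fin (N + 1)) ℂ, G.IsHomogeneous e →
      IsAlgebraic L (aeval a G / aeval a (f 0)) := by
    intro G hG
    have hfg : V.FG := Submodule.fg_span hgenf
    by_cases hV : V = ⊥
    · -- all coordinates vanish
      exfalso
      have h1 : ∀ l, a l = 0 := by
        intro l
        have h2 := hform (X l ^ q) (by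
          have := (isHomogeneous_X ℂ l).pow q
          rwa [one_mul] at this)
        rw [hV, Submodule.mem_bot, map_pow, aeval_X, div_eq_zero_iff] at h2
        rcases h2 with h2 | h2
        · exact eq_zero_of_pow_eq_zero h2
        · exact absurd h2 (pow_ne_zero _ hf0)
      apply hf0
      have h2 : a = fun _ => 0 := funext h1
      rw [h2, aeval_def, eval₂_eq']
      refine Finset.sum_eq_zero fun c hc => ?_
      have hdeg : ∑ i, c i = e := by
        have h3 : Finsupp.degree c = e := by
          rw [Finsupp.degree_eq_weight_one]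
          exact hf 0 (mem_support_iff.1 hc)
        rw [← h3, Finsupp.degree_eq_sum]
      obtain ⟨l, hl⟩ : ∃ l, c l ≠ 0 := by
        by_contra hcon
        push Not at hcon
        rw [Finset.sum_eq_zero fun i _ => hcon i] at hdeg
        omega
      rw [Finset.prod_eq_zero (Finset.mem_univ l) (zero_pow hl), mul_zero]
    · refine (isIntegral_of_smul_mem_submodule V hV hfg _ fun v hv => ?_).isAlgebraic
      refine Submodule.span_induction (p := fun v _ => (aeval a G / aeval a (f 0)) • v ∈ V)
        ?_ ?_ ?_ ?_ hv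
      · rintro _ ⟨b, hb, rfl⟩
        have hmb : (∏ l, X l ^ (b l : ℕ) : MvPolynomial (Fin (N + 1)) ℂ).IsHomogeneous q := by
          have h1 : (∏ l, X l ^ (b l : ℕ) : MvPolynomial (Fin (N + 1)) ℂ).IsHomogeneous
              (∑ l, (b l : ℕ)) := IsHomogeneous.prod _ _ _ fun l _ => by
            have := (isHomogeneous_X ℂ l).pow (b l : ℕ)
            rwa [one_mul] at this
          rwa [hb] at h1
        have hGb : ((∏ l, X l ^ (b l : ℕ)) * G : MvPolynomial (Fin (N + 1)) ℂ).IsHomogeneous (q + e) :=
          hmb.mul hG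
        obtain ⟨g, hg, hgv⟩ := hom_mem f hf (hlarge _ _ hqM hGb) q
        rw [homogeneousComponent_of_mem ((mem_homogeneousSubmodule _ _).2 hGb), if_pos rfl] at hgv
        have h2 : (aeval a G / aeval a (f 0)) • ((∏ l, a l ^ (b l : ℕ)) / aeval a (f 0) ^ M) =
            ∑ i, (⟨aeval a (f i) / aeval a (f 0), hfL i⟩ : L) •
              (aeval a (g i) / aeval a (f 0) ^ M) := by
          have h3 : aeval a ((∏ l, X l ^ (b l : ℕ)) * G : MvPolynomial (Fin (N + 1)) ℂ) =
              (∏ l, a l ^ (b l : ℕ)) * aeval a G := by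
            rw [map_mul, map_prod]
            simp only [map_pow, aeval_X]
          rw [h3] at hgv
          have h4 : ∀ i, (⟨aeval a (f i) / aeval a (f 0), hfL i⟩ : L) •
              (aeval a (g i) / aeval a (f 0) ^ M) =
              (aeval a (g i) * aeval a (f i)) / (aeval a (f 0) * aeval a (f 0) ^ M) := by
            intro i
            rw [IntermediateField.smul_def, smul_eq_mul, div_mul_div_comm, mul_comm (aeval a (g i))]
          simp only [h4]
          rw [← Finset.sum_div, ← hgv, smul_eq_mul, div_mul_div_comm, mul_comm (aeval a G)]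
        rw [h2]
        exact Submodule.sum_mem _ fun i _ => Submodule.smul_mem _ _ (hform _ (hg i))
      · rw [smul_zero]
        exact zero_mem _
      · intro x y _ _ h1 h2
        rw [smul_add]
        exact add_mem h1 h2
      · intro c x _ h1
        rw [smul_comm]
        exact Submodule.smul_mem _ _ h1
  -- the ratios of the coordinates
  have hratio : ∀ i j, a j ≠ 0 → IsAlgebraic L (a i / a j) := by
    intro i j hj
    have h1 := hstable (X i * X j ^ (e - 1)) (by
      have h2 := (isHomogeneous_X ℂ i).mul ((isHomogeneous_X ℂ j).pow (e - 1))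
      have h3 : 1 + 1 * (e - 1) = e := by omega
      rwa [h3] at h2)
    have h2 := hstable (X j * X j ^ (e - 1)) (by
      have h2 := (isHomogeneous_X ℂ j).mul ((isHomogeneous_X ℂ j).pow (e - 1))
      have h3 : 1 + 1 * (e - 1) = e := by omega
      rwa [h3] at h2)
    rw [map_mul, map_pow, aeval_X, aeval_X] at h1
    rw [map_mul, map_pow, aeval_X] at h2
    have h3 : a i / a j = (a i * a j ^ (e - 1) / aeval a (f 0)) *
        (a j * a j ^ (e - 1) / aeval a (f 0))⁻¹ := by
      have := pow_ne_zero (e - 1) hj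
      field_simp
    rw [h3]
    exact h1.mul h2.inv
  let A : IntermediateField L K := algebraicClosure L K
  have hle : IntermediateField.adjoin ℂ {g : K | ∃ i j, a j ≠ 0 ∧ g = a i / a j} ≤
      A.restrictScalars ℂ := by
    rw [IntermediateField.adjoin_le_iff]
    rintro _ ⟨i, j, hj, rfl⟩
    exact mem_algebraicClosure_iff.2 (hratio i j hj)
  rw [hK] at hle
  exact ⟨fun z => mem_algebraicClosure_iff.1 (hle (IntermediateField.mem_top (x := z)))⟩

end Pool.Agent.Q72.NW
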