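import Pool.Agent.Q72.NW.Rad

/-!
The truncated inequality outside of a set of finite measure.
-/

set_option autoImplicit false

namespace Pool.Agent.Q72.NW

open Filter Metric Set Topology Pool.Agent.W603.BP Pool.Agent.H159R3.NV MeasureTheory
open Pool.Agent.Y192.OG (Curve Rad Lau Le)
open Pool.Agent.Q72.TR (Tm Nb borel)

variable {n : ℕ} {g : ℂ → Fin (n + 1) → ℂ}
  (hg : Differentiable ℂ g) (h0 : ∀ z, g z ≠ 0) (hne : ∀ i, ∃ y, g y i ≠ 0)

/-- a set of infinite measure contains large elements outside of a set of finite measure -/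
theorem exists_large {E X : Set ℝ} (hE : volume E = ⊤) (hE1 : ∀ r ∈ E, 1 ≤ r)
    (hX : volume X < ⊤) (R : ℝ) : ∃ r ∈ E, r ∉ X ∧ R ≤ r := by
  by_contra hcon
  push Not at hcon
  have h1 : E ⊆ X ∪ Icc 1 R := by
    intro r hr
    by_cases hrX : r ∈ X
    · exact Or.inl hrX
    · exact Or.inr ⟨hE1 r hr, (hcon r hr hrX).le⟩
  have h2 : volume E ≤ volume X + volume (Icc 1 R) :=
    (measure_mono h1).trans (measure_union_le _ _)
  rw [hE, Real.volume_Icc] at h2
  exact absurd h2 (not_le.2 (ENNReal.add_lt_top.2 ⟨hX, ENNReal.ofReal_lt_top⟩))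

/-- a linear bound for the logarithm -/
theorem log_lin (A η : ℝ) (hA : 0 ≤ A) (hη : 0 < η) : ∃ K : ℝ, ∀ x : ℝ, 1 ≤ x →
    A * Real.log x ≤ η * x + K := by
  obtain ⟨θ, hθ⟩ : ∃ θ, θ = η / (A + 1) := ⟨_, rfl⟩
  have hθ0 : 0 < θ := by rw [hθ]; positivity
  refine ⟨A * Real.log (1 / θ), fun x hx => ?_⟩
  have h1 : Real.log x = Real.log (θ * x) + Real.log (1 / θ) := by
    rw [Real.log_mul hθ0.ne' (by linarith), one_div, Real.log_inv]
    ring
  have h2 : Real.log (θ * x) ≤ θ * x := by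
    have := Real.log_le_sub_one_of_pos (show 0 < θ * x by positivity)
    linarith
  have h3 : A * θ ≤ η := by
    rw [hθ, mul_div_assoc', div_le_iff₀ (by positivity)]
    nlinarith
  have h4 := mul_le_mul_of_nonneg_left h2 hA
  have h5 := mul_le_mul_of_nonneg_right h3 (by linarith : (0 : ℝ) ≤ x)
  rw [h1]
  nlinarith

theorem grow (htr : ∀ C : ℝ, ∃ R0 : ℝ, ∀ r, R0 ≤ r → C * Real.log r ≤ Tm g r)
    (F : Lau n) (hF : (cur g hg h0 hne).ev F ≠ 0) (μ : ℕ)
    (hno : ∀ r : Rad (cur g hg h0 hne) ((cur g hg h0 hne).ev F), ¬ Few μ r) :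
    volume {r : ℝ | 1 ≤ r ∧ Nb g 1 r < 1 / (2 * (n + 1) * (μ + 1)) * Tm g r} < ⊤ := by
  by_contra hcon
  rw [not_lt, top_le_iff] at hcon
  have hn : (0 : ℝ) ≤ n := Nat.cast_nonneg n
  have hμ : (0 : ℝ) ≤ μ := Nat.cast_nonneg μ
  obtain ⟨ε0, hε0⟩ : ∃ ε0 : ℝ, ε0 = 1 / (2 * (n + 1) * (μ + 1)) := ⟨_, rfl⟩
  rw [← hε0] at hcon
  have hε0p : 0 < ε0 := by rw [hε0]; positivity
  obtain ⟨u, cu, hcu, hTle, hu1, hum, hule⟩ := exists_u hg h0 hne
  have hX := borel u hu1 hum
  obtain ⟨B, Cl, CN, hB, hCl, hCN, hstep⟩ := step hg h0 hne u cu hTle hu1 hum F hF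
  obtain ⟨C, hC⟩ := Tm_le_ch hg h0 hne
  have hsel : ∀ m : ℕ, ∃ r : ℝ, (1 ≤ r ∧ Nb g 1 r < ε0 * Tm g r) ∧
      u (r + 1 / u r) ≤ 2 * u r ∧ (m : ℝ) + 3 ≤ r := by
    intro m
    obtain ⟨r, hr1, hr2, hr3⟩ := exists_large hcon (fun r hr => hr.1) hX (m + 3)
    refine ⟨r, hr1, ?_, hr3⟩
    by_contra h
    rw [not_le] at h
    exact hr2 ⟨hr1.1, h⟩
  choose rr hrr1 hrr2 hrr3 using hsel
  have hr3 : ∀ m, 3 ≤ rr m := fun m => by
    have := hrr3 m
    have h1 : (0 : ℝ) ≤ m := Nat.cast_nonneg m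
    linarith
  have hst := fun m => hstep (rr m) (hr3 m) (hrr2 m)
  choose s ε hs1 hs2 he0 he1 hel hN k1 k2 k3 using hst
  have hsm : ∀ m : ℕ, (m : ℝ) + 3 ≤ s m := fun m => (hrr3 m).trans (hs1 m)
  have hs3 : ∀ m, 3 ≤ s m := fun m => (hr3 m).trans (hs1 m)
  have hlim : Tendsto s atTop atTop := by
    refine tendsto_atTop_mono (fun m => ?_) tendsto_natCast_atTop_atTop
    have := hsm m
    linarith
  have hlog : Tendsto (fun m => Real.log (s m)) atTop atTop := Real.tendsto_log_atTop.comp hlim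
  obtain ⟨T, hT⟩ : ∃ T : ℕ → ℝ, ∀ m, T m = Tm g (s m) := ⟨_, fun _ => rfl⟩
  have ev1 : ∀ A : ℝ, ∀ᶠ m in atTop, A * Real.log (s m) ≤ T m := by
    intro A
    obtain ⟨R0, hR0⟩ := htr A
    filter_upwards [hlim.eventually_ge_atTop R0] with m hm
    rw [hT]
    exact hR0 _ hm
  have evl : ∀ A : ℝ, ∀ᶠ m in atTop, A ≤ Real.log (s m) := fun A => hlog.eventually_ge_atTop A
  -- comparison with the characteristic
  have ev2 : ∀ A δ : ℝ, 0 < δ → ∀ᶠ m in atTop, A * (1 + Real.log (s m)) ≤ δ * T m := by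
    intro A δ hδ
    filter_upwards [ev1 (2 * |A| / δ), evl 1] with m h1 h2
    have h3 : 2 * |A| * Real.log (s m) ≤ δ * T m := by
      have h4 := mul_le_mul_of_nonneg_left h1 hδ.le
      have h5 : δ * (2 * |A| / δ * Real.log (s m)) = 2 * |A| * Real.log (s m) := by
        field_simp
      rwa [h5] at h4
    have h6 : A * (1 + Real.log (s m)) ≤ |A| * (1 + Real.log (s m)) :=
      mul_le_mul_of_nonneg_right (le_abs_self A) (by linarith)
    have h7 : |A| * (1 + Real.log (s m)) ≤ |A| * (2 * Real.log (s m)) :=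
      mul_le_mul_of_nonneg_left (by linarith) (abs_nonneg A)
    linarith
  have evT : ∀ A : ℝ, ∀ᶠ m in atTop, A ≤ T m := by
    intro A
    filter_upwards [ev2 |A| 1 one_pos, evl 0] with m h1 h2
    have h3 : |A| ≤ |A| * (1 + Real.log (s m)) := by
      have := mul_nonneg (abs_nonneg A) h2
      linarith
    have := le_abs_self A
    linarith
  have hU : ∀ m, u (rr m) ≤ (n + 1) * T m + cu := by
    intro m
    have h1 := hum (rr m) (s m) (by linarith [hr3 m]) (hs1 m)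
    have h2 := hule (s m) (by linarith [hs3 m])
    rw [hT]
    linarith
  have ev3 : ∀ δ : ℝ, 0 < δ → ∀ᶠ m in atTop, 10 * Real.log (u (rr m)) ≤ δ * T m := by
    intro δ hδ
    obtain ⟨η, hη⟩ : ∃ η, η = δ / (2 * (n + 1 + cu)) := ⟨_, rfl⟩
    have hη0 : 0 < η := by rw [hη]; positivity
    obtain ⟨K, hK⟩ := log_lin 10 η (by norm_num) hη0
    filter_upwards [evT 1, evT (2 * K / δ)] with m h1 h2
    have h3 := hK (u (rr m)) (hu1 _ (by linarith [hr3 m]))
    have h4 : u (rr m) ≤ (n + 1 + cu) * T m := by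
      have h5 := hU m
      have h6 : cu ≤ cu * T m := le_mul_of_one_le_right (by linarith) h1
      linarith
    have h5 : η * u (rr m) ≤ δ / 2 * T m := by
      have h6 := mul_le_mul_of_nonneg_left h4 hη0.le
      have h7 : η * ((n + 1 + cu) * T m) = δ / 2 * T m := by
        rw [hη]
        field_simp
      rwa [h7] at h6
    have h6 : K ≤ δ / 2 * T m := by
      rw [div_le_iff₀ hδ] at h2
      linarith
    linarith
  have hch : ∀ᶠ m in atTop, 3 / 4 * T m ≤ (cur g hg h0 hne).ch (s m) := by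
    filter_upwards [ev2 C (1 / 4) (by norm_num)] with m h1
    have h2 := hC (s m) (hs3 m) fun z hz => k1 m z hz z (mem_closedBall_self (he0 m).le)
    rw [← hT] at h2
    linarith
  -- the sequence of circles
  let r : Rad (cur g hg h0 hne) ((cur g hg h0 hne).ev F) :=
    { s := s
      e := ε
      hs := fun m => by
        show (1 : ℝ) + 2 ≤ s m
        linarith [hs3 m]
      lim := hlim
      he := fun m => ⟨he0 m, he1 m⟩
      ne := k1
      osc := ⟨B, hB, k2⟩
      oscF := ⟨B, k3⟩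
      small := fun δ hδ => by
        filter_upwards [hch, evT 0, ev2 1 (δ / 2) (by positivity), ev2 (Cl + 3) (δ / 4) (by positivity),
          ev3 (δ / 4) (by positivity), evl 0] with m h1 h2 h3 h4 h5 h6
        have h7 : δ / 2 * T m ≤ δ * (cur g hg h0 hne).ch (s m) := by
          have := mul_le_mul_of_nonneg_left h1 hδ.le
          nlinarith [mul_nonneg hδ.le h2]
        refine ⟨by linarith, ?_⟩
        have h8 := hel m
        have h9 : Real.log (rr m) ≤ Real.log (s m) :=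
          Real.log_le_log (by linarith [hr3 m]) (hs1 m)
        have h10 : Cl + 3 * Real.log (rr m) ≤ (Cl + 3) * (1 + Real.log (s m)) := by
          have := mul_nonneg hCl h6
          nlinarith
        linarith }
  refine hno r ?_
  intro δ hδ
  filter_upwards [hch, evT 0, evT (4 * μ * (ε0 * cu + CN))] with m h1 h2 h3
  have h4 : (cur g hg h0 hne).cnt (fun z => ((cur g hg h0 hne).bad z : ℤ)) (s m) ≤ Nb g 1 (s m) :=
    cnt_le hg h0 hne (by linarith [hs3 m])
  have h5 := hN m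
  have h6 := (hrr1 m).2
  have h7 : Tm g (rr m) ≤ (n + 1) * T m + cu := (hTle _ (hrr1 m).1).trans (hU m)
  have h8 : Nb g 1 (s m) ≤ ε0 * ((n + 1) * T m + cu) + CN := by
    have := mul_le_mul_of_nonneg_left h7 hε0p.le
    linarith
  have h9 : (μ : ℝ) * (ε0 * ((n + 1) * T m)) ≤ 1 / 2 * T m := by
    have h10 : (μ : ℝ) * (ε0 * (n + 1)) ≤ 1 / 2 := by
      rw [hε0]
      have h11 : (μ : ℝ) * (1 / (2 * (n + 1) * (μ + 1)) * (n + 1)) = μ / (2 * (μ + 1)) := by
        field_simp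
      rw [h11, div_le_iff₀ (by positivity)]
      linarith
    have := mul_le_mul_of_nonneg_right h10 h2
    linarith
  have h10 : (μ : ℝ) * (cur g hg h0 hne).cnt (fun z => ((cur g hg h0 hne).bad z : ℤ)) (s m) ≤
      3 / 4 * T m := by
    have h11 := mul_le_mul_of_nonneg_left (h4.trans h8) hμ
    have h12 : (μ : ℝ) * (ε0 * ((n + 1) * T m + cu) + CN) =
        μ * (ε0 * ((n + 1) * T m)) + μ * (ε0 * cu + CN) := by ring
    rw [h12] at h11
    linarith
  have h11 : 0 ≤ (cur g hg h0 hne).ch (s m) := by linarith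
  show (μ : ℝ) * (cur g hg h0 hne).cnt (fun z => ((cur g hg h0 hne).bad z : ℤ)) (s m) ≤
    (cur g hg h0 hne).ch (s m) + δ * (cur g hg h0 hne).ch (s m)
  have := mul_nonneg hδ.le h11
  linarith

end Pool.Agent.Q72.NW
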