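import Pool.Agent.Q72.NW.Grow
import Pool.Agent.Q72.NA.EvalW
import Pool.Agent.Q72.NA.Rat

/-!
Curves in a projective variety with a finite map to projective space.
-/

set_option autoImplicit false

namespace Pool.Agent.Q72.NW

open Filter Metric Set Topology MvPolynomial FF MeasureTheory
open Pool.Agent.W603.LV Pool.Agent.W602.GT Pool.Agent.Q72.NA Pool.Agent.W603.BP
open Pool.Agent.Y192.OG (Curve Rad Lau a_ring dom)
open Pool.Agent.Y274.OG (val_zero' val_aeval)
open Pool.Agent.Q72.TR (Tm Nb)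
open Pool.Agent.Q72.SH (coord_diff eval_diff)

theorem liftcur {N n d : ℕ} (K : Type) [Field K] [Algebra ℂ K] (a : Fin (N + 1) → K)
    (hK : IntermediateField.adjoin ℂ {g : K | ∃ i j, a j ≠ 0 ∧ g = a i / a j} = ⊤)
    (f : Fin (n + 1) → MvPolynomial (Fin (N + 1)) ℂ) (e : ℕ) (hf : ∀ i, (f i).IsHomogeneous e)
    (hf0 : ∀ i, aeval a (f i) ≠ 0)
    (halg : Algebra.IsAlgebraic
      (IntermediateField.adjoin ℂ (Set.range fun i => aeval a (f i) / aeval a (f 0))) K)
    (hlgt : LogGeneralType ℂ K d fun P => ∃ i, P.ord (aeval a (f i)) ≠ P.ord (aeval a (f 0))) :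
    ∃ (B : MvPolynomial (Fin (N + 1)) ℂ) (E : ℕ) (F : Lau n) (μ : ℕ), B.IsHomogeneous E ∧
      aeval a B ≠ 0 ∧ (∀ x : Fin (N + 1) → ℂ, eval x B ≠ 0 → ∀ i, eval x (f i) ≠ 0) ∧
      ∀ (c : Curve n) (w : ℂ → Fin (N + 1) → ℂ), Differentiable ℂ w →
        (∀ (H : MvPolynomial (Fin (N + 1)) ℂ) (D : ℕ), H.IsHomogeneous D → aeval a H = 0 →
          ∀ z, eval (w z) H = 0) →
        (∀ i z, c.X i z = eval (w z) (f i)) → (∃ z, eval (w z) B ≠ 0) →
        c.ev F ≠ 0 ∧ ∀ r : Rad c (c.ev F), ¬ Few μ r := by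
  classical
  have hess : Algebra.EssFiniteType ℂ K := ess_of_adjoin hK
  let x : Fin n → Kˣ := fun i =>
    Units.mk0 (aeval a (f i.succ) / aeval a (f 0)) (div_ne_zero (hf0 _) (hf0 0))
  have hx : ∀ i, (x i : K) = aeval a (f i.succ) / aeval a (f 0) := fun i => rfl
  have hBd : (fun P : Place ℂ K => ∃ i, P.ord (aeval a (f i)) ≠ P.ord (aeval a (f 0))) =
      fun P => ∃ i, P.ord (x i : K) ≠ 0 := by
    funext P
    rw [eq_iff_iff]
    constructor
    · rintro ⟨i, hi⟩
      obtain ⟨l, rfl⟩ : ∃ l : Fin n, i = l.succ := by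
        refine ⟨i.pred ?_, (Fin.succ_pred i ?_).symm⟩ <;>
        · rintro rfl
          exact hi rfl
      exact ⟨l, by rw [hx, P.ord_div (hf0 _) (hf0 0)]; omega⟩
    · rintro ⟨i, hi⟩
      refine ⟨i.succ, ?_⟩
      rw [hx, P.ord_div (hf0 _) (hf0 0)] at hi
      omega
  rw [hBd] at hlgt
  have hadj : IntermediateField.adjoin ℂ (Set.range fun i => aeval a (f i) / aeval a (f 0)) ≤
      IntermediateField.adjoin ℂ (Set.range fun i => (x i : K)) := by
    rw [IntermediateField.adjoin_le_iff]
    rintro _ ⟨i, rfl⟩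
    refine Fin.cases ?_ (fun l => ?_) i
    · show aeval a (f 0) / aeval a (f 0) ∈ _
      rw [div_self (hf0 0)]
      exact one_mem _
    · exact IntermediateField.subset_adjoin _ _ ⟨l, rfl⟩
  have halg' : ∀ z : K, IsAlgebraic (IntermediateField.adjoin ℂ (Set.range fun i => (x i : K))) z := by
    have hadj' : IntermediateField.adjoin ℂ (Set.range fun i => aeval a (f i) / aeval a (f 0)) =
        IntermediateField.adjoin ℂ (Set.range fun i => (x i : K)) := by
      refine le_antisymm hadj ?_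
      rw [IntermediateField.adjoin_le_iff]
      rintro _ ⟨i, rfl⟩
      exact IntermediateField.subset_adjoin _ _ ⟨i.succ, rfl⟩
    rw [hadj'] at halg
    exact fun z => halg.isAlgebraic z
  obtain ⟨R, j, G, F, μ, hFG, hj, hint, hG, hmain⟩ := data K n d x halg' hlgt
  have hjx : ∀ i : Fin n, ((j (AddMonoidAlgebra.single (Pi.single i 1) 1) : R) : K) =
      (x i : K) := by
    intro i
    rw [hj, Pool.Agent.Y192.OG.ep_single, one_smul]
    unfold Pool.Agent.Y192.OG.xm
    rw [Finset.prod_eq_single i]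
    · rw [Pi.single_eq_same, zpow_one]
    · intro l _ hl
      rw [Pi.single_eq_of_ne hl, zpow_zero]
    · intro hi
      exact absurd (Finset.mem_univ i) hi
  have hG' : ((j G : R) : K) ≠ 0 := fun h => hG (Subtype.ext h)
  obtain ⟨B, E, hB, hBa, hBmain⟩ := evalW (fun g => ratF_of_adjoin hK g) R hFG {((j G : R) : K)}
    (fun w hw => by rw [Finset.mem_singleton.1 hw]; exact hG')
  refine ⟨B * ∏ i, f i, E + ∑ _i : Fin (n + 1), e, F, μ,
    hB.mul (IsHomogeneous.prod _ _ _ fun i _ => hf i), ?_, ?_, ?_⟩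
  · rw [map_mul, map_prod]
    exact mul_ne_zero hBa (Finset.prod_ne_zero_iff.2 fun i _ => hf0 i)
  · intro y hy i
    rw [map_mul, map_prod] at hy
    exact Finset.prod_ne_zero_iff.1 (right_ne_zero_of_mul hy) i (Finset.mem_univ i)
  · intro c w hw hon hcX hBw
    have hdom := dom a_ring c
    let M := FractionRing c.Mr
    have hinj : Function.Injective (algebraMap c.Mr M) := IsFractionRing.injective c.Mr M
    let ι : c.Mr →ₐ[ℂ] M := IsScalarTower.toAlgHom ℂ c.Mr M
    have hιinj : Function.Injective ι := hinj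
    obtain ⟨z1, hz1⟩ := hBw
    -- a point of `U` outside of the exceptional set
    obtain ⟨p, hp, hpB⟩ : ∃ p ∈ c.U, eval (w p) (B * ∏ i, f i) ≠ 0 := by
      have hd : Differentiable ℂ fun z => eval (w z) (B * ∏ i, f i) := eval_diff hw _
      by_contra hcon
      push Not at hcon
      obtain ⟨q, hq⟩ : ∃ q, q ∈ Ext c.r0 := ⟨((|c.r0| + 1 : ℝ) : ℂ), by
        show c.r0 < ‖((|c.r0| + 1 : ℝ) : ℂ)‖
        rw [Complex.norm_real, Real.norm_of_nonneg (by positivity)]
        have := le_abs_self c.r0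
        linarith⟩
      obtain ⟨q', hq'⟩ := (c.U_punct hq).exists
      have h2 : (fun z => eval (w z) (B * ∏ i, f i)) =ᶠ[𝓝 q'] 0 := by
        filter_upwards [c.U_open.mem_nhds hq'] with z hz
        exact hcon z hz
      have h1 : AnalyticOnNhd ℂ (fun z => eval (w z) (B * ∏ i, f i)) Set.univ :=
        fun z _ => hd.analyticAt z
      exact hz1 (h1.eqOn_zero_of_preconnected_of_eventuallyEq_zero isPreconnected_univ
        (mem_univ q') h2 (mem_univ z1))
    let V : Fin (N + 1) → c.Mr := fun l => c.mr (fun z => w z l)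
      (fun z _ => ((coord_diff hw l).analyticAt z).meromorphicAt)
      (fun z _ => (coord_diff hw l).analyticAt z)
    have hV : ∀ l, ∀ z ∈ c.U, c.val (V l) z = w z l := fun l z hz => c.val_mr _ _ _ hz
    have hpoly : ∀ (H : MvPolynomial (Fin (N + 1)) ℂ), ∀ z ∈ c.U,
        c.val (aeval V H) z = eval (w z) H := by
      intro H z hz
      rw [val_aeval c V H hz]
      congr 2
      funext l
      exact hV l z hz
    have hι : ∀ H : MvPolynomial (Fin (N + 1)) ℂ, aeval (fun l => ι (V l)) H = ι (aeval V H) := by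
      intro H
      rw [← AlgHom.comp_apply, comp_aeval]
    have hnz : ∀ H : MvPolynomial (Fin (N + 1)) ℂ, eval (w p) H ≠ 0 →
        aeval (fun l => ι (V l)) H ≠ 0 := by
      intro H hH h0
      rw [hι] at h0
      have h4 : aeval V H = (0 : c.Mr) := hιinj (by rw [map_zero]; exact h0)
      apply hH
      rw [← hpoly H p hp, h4, val_zero']
    have hPt : PtF (F := ℂ) a (fun l => ι (V l)) := by
      intro H D hH hHa
      rw [hι]
      have h5 : aeval V H = (0 : c.Mr) := by
        apply c.val_inj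
        intro z hz
        rw [hpoly H z hz, val_zero']
        exact hon H D hH hHa z
      rw [h5, map_zero]
    rw [map_mul, map_prod] at hpB
    obtain ⟨φ, hφ1, hφ2⟩ := hBmain M (fun l => ι (V l)) hPt (hnz B (left_ne_zero_of_mul hpB))
    have hfp : ∀ i, eval (w p) (f i) ≠ 0 := fun i =>
      Finset.prod_ne_zero_iff.1 (right_ne_zero_of_mul hpB) i (Finset.mem_univ i)
    have hφx : ∀ i : Fin n, φ (j (AddMonoidAlgebra.single (Pi.single i 1) 1)) =
        algebraMap c.Mr (FractionRing c.Mr) (c.mon (Pi.single i 1)) := by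
      intro i
      apply mul_right_cancel₀ (hnz (f 0) (hfp 0))
      rw [hφ1 _ (f i.succ) (f 0) e (hf _) (hf _) (by
        rw [hjx, hx, div_mul_cancel₀ _ (hf0 0)]), hι, hι]
      have h1 : c.mon (Pi.single i 1) * aeval V (f 0) = aeval V (f i.succ) := by
        apply c.val_inj
        intro z hz
        rw [c.val_mul, Pi.mul_apply, hpoly _ z hz, hpoly _ z hz, c.val_mon _ hz]
        have h2 : c.monf (Pi.single i 1) z = c.X i.succ z / c.X 0 z := by
          unfold Curve.monf
          rw [Finset.prod_eq_single i]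
          · rw [Pi.single_eq_same, zpow_one]
            rfl
          · intro l _ hl
            rw [Pi.single_eq_of_ne hl, zpow_zero]
          · intro h
            exact absurd (Finset.mem_univ i) h
        rw [h2, hcX, hcX, div_mul_cancel₀]
        rw [← hcX]
        exact hz.2 0
      rw [← h1, map_mul]
      rfl
    obtain ⟨η, hη1, hη2⟩ := lift hint c φ hφx
    refine hmain c η hη1 ?_
    intro h0
    apply hφ2 (j G) (Finset.mem_singleton_self _)
    rw [← hη2, hη1, h0, map_zero]

end Pool.Agent.Q72.NW
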