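import Pool.Agent.Q72.NW.Fin
import Pool.Agent.TH143.GT.Kod

/-!
Multiplicities.
-/

set_option autoImplicit false

namespace Pool.Agent.Q72.NW

open MvPolynomial FF MeasureTheory
open Pool.Agent.W603.LV Pool.Agent.W602.GT
open Pool.Agent.Q72.TR (Tm Nb CharT Tm_int eval_bound Nb_le_mult char_log not_finite_Ici oo oo_cast FF
  L_le_Tm)

/-- general type implies logarithmic general type, for all boundaries -/
theorem log_of_general {K : Type} [Field K] [Algebra ℂ K] {d : ℕ} (h : GeneralType ℂ K d)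
    (Bd : Place ℂ K → Prop) : LogGeneralType ℂ K d Bd := by
  obtain ⟨h1, M, hM, ω, h2, h3, h4⟩ := h
  exact ⟨h1, M, hM, ω, h2, fun P hP j D hD => h3 P hP j D fun i =>
    Pool.Agent.TH143.GT.log_reg (hD i), fun P hP _ j => h3 P hP j, h4⟩

/-- an upper bound for the characteristic -/
theorem char_upper {N n : ℕ} {f : Fin (n + 1) → MvPolynomial (Fin (N + 1)) ℂ} {e : ℕ}
    (hf : ∀ i, (f i).IsHomogeneous e) {w : ℂ → Fin (N + 1) → ℂ} (hw : Differentiable ℂ w)
    (hw0 : ∀ z, w z ≠ 0) (h0 : ∀ z, (fun i => eval (w z) (f i)) ≠ 0) :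
    ∃ C : ℝ, ∀ r, Tm (fun z i => eval (w z) (f i)) r ≤ e * Tm w r + C := by
  have hub := fun i => eval_bound (hf i)
  choose C hC1 hC using hub
  have hCs : 0 < ∑ i, C i := by
    have h1 : C 0 ≤ ∑ i, C i := Finset.single_le_sum (f := C)
      (fun j _ => by linarith [hC1 j]) (Finset.mem_univ 0)
    linarith [hC1 0]
  refine ⟨Real.log (∑ i, C i), fun r => ?_⟩
  have i1 := Tm_int hw hw0 r
  have i2 := Tm_int (g_diff f hw) h0 r
  have i3 : CircleIntegrable (fun z => (e : ℝ) * Real.log ‖w z‖) 0 r := i1.const_fun_smul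
  have e1 : e * Tm w r + Real.log (∑ i, C i) =
      Real.circleAverage (fun z => (e : ℝ) * Real.log ‖w z‖ + Real.log (∑ i, C i)) 0 r := by
    rw [Real.circleAverage_fun_add i3 (circleIntegrable_const _ _ _), Real.circleAverage_const]
    congr 1
    exact (Real.circleAverage_fun_smul (a := (e : ℝ)) (f := fun z => Real.log ‖w z‖)).symm
  rw [e1]
  apply Real.circleAverage_mono i2 (i3.add (circleIntegrable_const _ _ _))
  intro z _
  show Real.log ‖fun i => eval (w z) (f i)‖ ≤ (e : ℝ) * Real.log ‖w z‖ + Real.log (∑ i, C i)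
  have hwz := norm_pos_iff.2 (hw0 z)
  have h1 : (e : ℝ) * Real.log ‖w z‖ + Real.log (∑ i, C i) = Real.log ((∑ i, C i) * ‖w z‖ ^ e) := by
    rw [Real.log_mul hCs.ne' (pow_pos hwz _).ne', Real.log_pow]
    ring
  rw [h1]
  refine Real.log_le_log (norm_pos_iff.2 (h0 z)) ?_
  rw [pi_norm_le_iff_of_nonneg (by positivity)]
  intro i
  refine (hC i (w z)).trans (mul_le_mul_of_nonneg_right ?_ (by positivity))
  exact Finset.single_le_sum (f := C) (fun j _ => by linarith [hC1 j]) (Finset.mem_univ i)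

/-- the multiplicities are bounded -/
theorem mult_main {N n : ℕ} {f : Fin (n + 1) → MvPolynomial (Fin (N + 1)) ℂ} {e : ℕ}
    (hf : ∀ i, (f i).IsHomogeneous e) {w : ℂ → Fin (N + 1) → ℂ} (hw : Differentiable ℂ w)
    (hw0 : ∀ z, w z ≠ 0) (hnc : ∃ z z', ∀ c : ℂ, w z ≠ c • w z')
    (h0 : ∀ z, (fun i => eval (w z) (f i)) ≠ 0) (hne : ∀ i, ∃ y, eval (w y) (f i) ≠ 0) {ε : ℝ}
    (hε : 0 < ε) (hout : Out ε f w) {m : ℕ} (hm : ((n : ℝ) + 2) * e < ε * m)
    (hmult : ∀ i z, eval (w z) (f i) = 0 →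
      (m : ℕ∞) ≤ analyticOrderAt (fun z => eval (w z) (f i)) z) : False := by
  have hg := g_diff f hw
  have hQ : ∃ y, eval ((fun z i => eval (w z) (f i)) y) (1 : MvPolynomial (Fin (n + 1)) ℂ) ≠ 0 :=
    ⟨0, eval_one _⟩
  obtain ⟨c, hc0, hc⟩ := Nb_le_mult (isHomogeneous_one _ _) hg h0 hQ (m := m) (fun p hp x hx => by
    cases p with
    | none =>
      exact absurd hx (eval_one _)
    | some l =>
      have h1 : eval (w x) (f l) = 0 := hx
      have h2 := hmult l x h1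
      have h3 : Differentiable ℂ fun z => eval (w z) (f l) :=
        Pool.Agent.Q72.SH.eval_diff hw (f l)
      rw [← oo_cast h3 (hne l) x] at h2
      exact_mod_cast h2)
  obtain ⟨C, hC⟩ := char_upper hf hw hw0 h0
  obtain ⟨c1, hc1⟩ := char_log hw hw0 hnc
  obtain ⟨X, hX, hXr⟩ := hout
  obtain ⟨δ, hδ⟩ : ∃ δ : ℝ, δ = ε * m - (n + 2) * e := ⟨_, rfl⟩
  have hδ0 : 0 < δ := by rw [hδ]; linarith
  obtain ⟨A, hA⟩ : ∃ A : ℝ, A = (n + 2) * (e * Real.log ‖w 0‖ + C + c) := ⟨_, rfl⟩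
  obtain ⟨r, hr, hrX⟩ := not_finite_Ici hX (max 1 (Real.exp (c1 + (|A| + 1) / δ)))
  have hr1 : 1 ≤ r := (le_max_left _ _).trans hr
  have hr2 : c1 + (|A| + 1) / δ ≤ Real.log r := by
    rw [Real.le_log_iff_exp_le (by linarith)]
    exact (le_max_right _ _).trans hr
  have h1 := hXr r (by linarith) hrX
  rw [countD_eq hne] at h1
  have h2 := (hc r hr1).2
  have h3 := hC r
  have h4 := hc1 r hr1
  have h5 : (|A| + 1) / δ ≤ CharT w r := by linarith
  rw [div_le_iff₀ hδ0] at h5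
  have h6 : CharT w r = Tm w r - Real.log ‖w 0‖ := rfl
  have hm0 : (0 : ℝ) ≤ m := Nat.cast_nonneg m
  have h7 := mul_le_mul_of_nonneg_left h1 hm0
  have hn : (0 : ℝ) ≤ n + 2 := by positivity
  have h8 : ((n : ℝ) + 2 + (0 : ℕ)) * (Tm (fun z i => eval (w z) (f i)) r + c) ≤
      (n + 2) * (e * Tm w r + C + c) := by
    rw [Nat.cast_zero, add_zero]
    exact mul_le_mul_of_nonneg_left (by linarith) hn
  have h9 : (m : ℝ) * (ε * CharT w r) ≤ (n + 2) * (e * Tm w r + C + c) := by linarith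
  have h10 := le_abs_self A
  have h11 : CharT w r * δ ≤ A := by
    rw [hδ, hA]
    rw [h6] at h9 ⊢
    nlinarith
  linarith

end Pool.Agent.Q72.NW
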