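import Pool.Agent.Q72.NW.Rtl

/-!
Rational curves.
-/

set_option autoImplicit false

namespace Pool.Agent.Q72.NW

open Filter Metric Set Topology MvPolynomial MeasureTheory
open Pool.Agent.H159R3.NV
open Pool.Agent.Q72.TR (Tm Nb Nb_eq CharT wgt wgt_nonneg Tm_int eval_bound norm_le_coord zs zz mem_zz
  L_le_Tm jen fin_zeros one_le_oo oo tc not_finite_Ici eval_aeval_poly)
open Pool.Agent.Q72.SH (coord_diff eval_diff)

/-- the affine line in the projective line -/
noncomputable def aff (z : ℂ) : Fin (1 + 1) → ℂ := ![z, 1]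

theorem aff_ne (z : ℂ) : aff z ≠ 0 := fun h => one_ne_zero (congrFun h 1)

theorem aff_zero (z : ℂ) : aff z 0 = z := rfl

theorem aff_one (z : ℂ) : aff z 1 = 1 := rfl

theorem aff_diff {h : ℂ → ℂ} (hh : Differentiable ℂ h) : Differentiable ℂ fun z => aff (h z) := by
  rw [differentiable_pi]
  intro i
  fin_cases i
  · exact hh
  · exact differentiable_const _

theorem aff_norm_ge (z : ℂ) : ‖z‖ ≤ ‖aff z‖ := norm_le_pi_norm (aff z) 0

theorem aff_norm_ge_one (z : ℂ) : 1 ≤ ‖aff z‖ := by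
  have := norm_le_pi_norm (aff z) 1
  rwa [aff_one, norm_one] at this

theorem aff_norm_le {z : ℂ} {r : ℝ} (hr : 1 ≤ r) (hz : ‖z‖ ≤ r) : ‖aff z‖ ≤ r := by
  rw [pi_norm_le_iff_of_nonneg (by linarith)]
  intro i
  fin_cases i
  · exact hz
  · show ‖(1 : ℂ)‖ ≤ r
    rwa [norm_one]

theorem homog_eval {p : Polynomial ℂ} {D : ℕ} (x : Fin (1 + 1) → ℂ) :
    eval x (p.homogenize D : MvPolynomial (Fin (1 + 1)) ℂ) =
      ∑ k ∈ Finset.range (D + 1), p.coeff k * (x 0 ^ k * x 1 ^ (D - k)) := by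
  unfold Polynomial.homogenize
  rw [Finset.Nat.sum_antidiagonal_eq_sum_range_succ_mk, MvPolynomial.eval_sum]
  refine Finset.sum_congr rfl fun k _ => ?_
  rw [MvPolynomial.eval_monomial, Finsupp.update_eq_add_single, Finsupp.prod_add_index',
    Finsupp.prod_single_index, Finsupp.prod_single_index]
  all_goals simp_all [pow_add]

theorem homog_aff {p : Polynomial ℂ} {D : ℕ} (hp : p.natDegree ≤ D) (z : ℂ) :
    eval (aff z) (p.homogenize D : MvPolynomial (Fin (1 + 1)) ℂ) = p.eval z := by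
  have h1 := Polynomial.eval_homogenize hp (aff z) (by rw [aff_one]; exact one_ne_zero)
  rw [aff_zero, aff_one, div_one, one_pow, mul_one] at h1
  exact h1

/-- bounds for polynomial curves -/
theorem poly_bounds {N : ℕ} (p : Fin (N + 1) → Polynomial ℂ) (h0 : ∀ z, ∃ j, (p j).eval z ≠ 0)
    {D : ℕ} (hD : 0 < D) (hp : ∀ j, (p j).natDegree ≤ D) (hpD : ∃ j, (p j).natDegree = D) :
    ∃ c C : ℝ, 0 < c ∧ 0 < C ∧ ∀ z, c * ‖aff z‖ ^ D ≤ ‖fun j => (p j).eval z‖ ∧
      ‖fun j => (p j).eval z‖ ≤ C * ‖aff z‖ ^ D := by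
  classical
  obtain ⟨q, hq⟩ : ∃ q : Fin (N + 1) → MvPolynomial (Fin (1 + 1)) ℂ,
      ∀ j, q j = (p j).homogenize D := ⟨_, fun _ => rfl⟩
  have hqh : ∀ j, (q j).IsHomogeneous D := fun j => by
    rw [hq]
    exact Polynomial.isHomogeneous_homogenize _
  have hqe : ∀ z, (fun j => eval (aff z) (q j)) = fun j => (p j).eval z := fun z =>
    funext fun j => by rw [hq, homog_aff (hp j)]
  obtain ⟨c, hc0, hc⟩ := cone_bound (S := Set.univ) isClosed_univ (fun x _ t => Set.mem_univ _) q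
    hD hqh (fun x _ hx => by
      by_cases hx1 : x 1 = 0
      · have hx0 : x 0 ≠ 0 := by
          intro h
          apply hx
          funext i
          fin_cases i
          · exact h
          · exact hx1
        obtain ⟨j, hj⟩ := hpD
        refine ⟨j, ?_⟩
        rw [hq, homog_eval, Finset.sum_eq_single D]
        · rw [Nat.sub_self, pow_zero, mul_one]
          refine mul_ne_zero ?_ (pow_ne_zero _ hx0)
          rw [← hj]
          rw [Polynomial.coeff_natDegree, Polynomial.leadingCoeff_ne_zero]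
          rintro h
          rw [h, Polynomial.natDegree_zero] at hj
          omega
        · intro k hk hkD
          have := Finset.mem_range.1 hk
          rw [hx1, zero_pow (by omega), mul_zero, mul_zero]
        · intro h
          exact absurd (Finset.mem_range.2 (Nat.lt_succ_self D)) h
      · obtain ⟨j, hj⟩ := h0 (x 0 / x 1)
        refine ⟨j, ?_⟩
        rw [hq, Polynomial.eval_homogenize (hp j) x hx1]
        exact mul_ne_zero hj (pow_ne_zero _ hx1))
  have hub := fun j => eval_bound (hqh j)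
  choose C hC1 hC using hub
  refine ⟨c, ∑ j, C j, hc0, ?_, fun z => ⟨?_, ?_⟩⟩
  · have h1 : C 0 ≤ ∑ j, C j := Finset.single_le_sum (f := C)
      (fun j _ => by linarith [hC1 j]) (Finset.mem_univ 0)
    linarith [hC1 0]
  · have := hc (aff z) (Set.mem_univ _)
    rwa [hqe] at this
  · rw [pi_norm_le_iff_of_nonneg]
    · intro j
      have h1 := hC j (aff z)
      rw [hq, homog_aff (hp j)] at h1
      refine h1.trans (mul_le_mul_of_nonneg_right ?_ (by positivity))
      exact Finset.single_le_sum (f := C) (fun j _ => by linarith [hC1 j]) (Finset.mem_univ j)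
    · have h1 : 0 ≤ ∑ j, C j := Finset.sum_nonneg fun j _ => by linarith [hC1 j]
      positivity

/-- the characteristic of the exponential function -/
noncomputable def mm (r : ℝ) : ℝ := Tm (fun z => aff (Complex.exp z)) r

theorem exp_aff_diff : Differentiable ℂ fun z => aff (Complex.exp z) := aff_diff Complex.differentiable_exp

theorem mm_ge {r : ℝ} (hr : 0 < r) : r / 4 ≤ mm r := by
  have hFd : Differentiable ℂ fun z : ℂ => Complex.exp ((r : ℂ) / 4 + z ^ 2 / (4 * r) + z / 2) := by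
    fun_prop
  have h1 := AnalyticOnNhd.circleAverage_log_norm_of_ne_zero (R := r) (c := 0)
    (g := fun z : ℂ => Complex.exp ((r : ℂ) / 4 + z ^ 2 / (4 * r) + z / 2))
    (fun z _ => hFd.analyticAt z) (fun z _ => Complex.exp_ne_zero _)
  have h2 : Real.log ‖Complex.exp ((r : ℂ) / 4 + (0 : ℂ) ^ 2 / (4 * r) + 0 / 2)‖ = r / 4 := by
    rw [Complex.norm_exp, Real.log_exp]
    have : (r : ℂ) / 4 + (0 : ℂ) ^ 2 / (4 * r) + 0 / 2 = ((r / 4 : ℝ) : ℂ) := by
      push_cast
      ring
    rw [this, Complex.ofReal_re]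
  rw [h2] at h1
  rw [← h1]
  unfold mm Tm
  apply Real.circleAverage_mono (ci_log (mero_of_diff hFd) r)
    (Tm_int exp_aff_diff (fun z => aff_ne _) r)
  intro z hz
  rw [mem_sphere_zero_iff_norm, abs_of_pos hr] at hz
  show Real.log ‖Complex.exp ((r : ℂ) / 4 + z ^ 2 / (4 * r) + z / 2)‖ ≤
    Real.log ‖aff (Complex.exp z)‖
  rw [Complex.norm_exp, Real.log_exp]
  have h3 : ((r : ℂ) / 4 + z ^ 2 / (4 * r) + z / 2).re = z.re ^ 2 / (2 * r) + z.re / 2 := by
    have e1 : (r : ℂ) / 4 + z ^ 2 / (4 * r) + z / 2 =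
        ((r / 4 : ℝ) : ℂ) + ((1 / (4 * r) : ℝ) : ℂ) * z ^ 2 + ((1 / 2 : ℝ) : ℂ) * z := by
      push_cast
      ring
    have e2 : z.re ^ 2 + z.im ^ 2 = r ^ 2 := by
      rw [← hz, ← Complex.normSq_eq_norm_sq, Complex.normSq_apply]
      ring
    rw [e1, Complex.add_re, Complex.add_re, Complex.ofReal_re, Complex.re_ofReal_mul,
      Complex.re_ofReal_mul, pow_two z, Complex.mul_re]
    have e3 : z.re * z.re - z.im * z.im = 2 * z.re ^ 2 - r ^ 2 := by
      rw [← e2]
      ring
    rw [e3]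
    field_simp
    ring
  rw [h3]
  have hx : |z.re| ≤ r := by
    rw [← hz]
    exact Complex.abs_re_le_norm z
  have h4 : z.re ^ 2 / (2 * r) ≤ |z.re| / 2 := by
    rw [div_le_div_iff₀ (by positivity) (by norm_num)]
    have : z.re ^ 2 = |z.re| * |z.re| := by rw [← sq_abs]; ring
    rw [this]
    nlinarith [abs_nonneg z.re]
  rcases le_total 0 z.re with h5 | h5
  · rw [abs_of_nonneg h5] at h4
    have h6 : z.re ≤ Real.log ‖aff (Complex.exp z)‖ := by
      have h7 : Real.log ‖Complex.exp z‖ ≤ Real.log ‖aff (Complex.exp z)‖ :=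
        Real.log_le_log (norm_pos_iff.2 (Complex.exp_ne_zero z)) (aff_norm_ge _)
      rwa [Complex.norm_exp, Real.log_exp] at h7
    linarith
  · rw [abs_of_nonpos h5] at h4
    have h6 : 0 ≤ Real.log ‖aff (Complex.exp z)‖ := Real.log_nonneg (aff_norm_ge_one _)
    linarith

/-- the points with `exp x = y` -/
theorem exp_count (y : ℂ) : ∃ c : ℝ, ∀ r : ℝ, 1 ≤ r → ∀ Z : Finset ℂ,
    (∀ x, x ∈ Z ↔ ‖x‖ ≤ r ∧ Complex.exp x = y) → ∑ x ∈ Z, wgt r x ≤ mm r + c := by
  have hd : Differentiable ℂ fun z => Complex.exp z - y := Complex.differentiable_exp.sub_const y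
  have hne : ∃ z, Complex.exp z - y ≠ 0 := by
    by_contra hcon
    push Not at hcon
    have h1 := hcon 0
    have h2 := hcon (Real.log 2)
    rw [Complex.exp_zero] at h1
    rw [← Complex.ofReal_exp, Real.exp_log (by norm_num)] at h2
    have h3 : (1 : ℂ) - 2 = 0 := by
      have : (1 : ℂ) - 2 = (1 - y) - (((2 : ℝ) : ℂ) - y) := by push_cast; ring
      rw [this, h1, h2, sub_zero]
    norm_num at h3
  refine ⟨Real.log (1 + ‖y‖) - tc fun z => Complex.exp z - y, fun r hr Z hZ => ?_⟩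
  have h1 := jen hd hne (by linarith : 0 < r) Z
    (fun x hx hx0 => (hZ x).2 ⟨hx, sub_eq_zero.1 hx0⟩) (fun x hx => ((hZ x).1 hx).1)
  have h2 : ∑ x ∈ Z, wgt r x ≤ ∑ x ∈ Z, (oo (fun z => Complex.exp z - y) x : ℝ) * wgt r x := by
    refine Finset.sum_le_sum fun x hx => ?_
    have h3 : (1 : ℝ) ≤ oo (fun z => Complex.exp z - y) x := by
      exact_mod_cast one_le_oo hd hne (sub_eq_zero.2 ((hZ x).1 hx).2)
    exact le_mul_of_one_le_left (wgt_nonneg hr x) h3
  have h3 := L_le_Tm exp_aff_diff (fun z => aff_ne _) hd hne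
    (by positivity : 0 < 1 + ‖y‖) (k := 1) (fun z => by
      rw [pow_one]
      have a1 := aff_norm_ge (Complex.exp z)
      have a2 := aff_norm_ge_one (Complex.exp z)
      have a3 : ‖y‖ ≤ ‖y‖ * ‖aff (Complex.exp z)‖ := le_mul_of_one_le_right (norm_nonneg _) a2
      calc ‖Complex.exp z - y‖ ≤ ‖Complex.exp z‖ + ‖y‖ := norm_sub_le _ _
        _ ≤ (1 + ‖y‖) * ‖aff (Complex.exp z)‖ := by linarith) (r := r) (by linarith)
  rw [Nat.cast_one, one_mul] at h3
  unfold mm
  linarith

end Pool.Agent.Q72.NW
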