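import Pool.Agent.Q72.NW.Poly

/-!
Rational curves: the inequality.
-/

set_option autoImplicit false

namespace Pool.Agent.Q72.NW

open Filter Metric Set Topology MvPolynomial MeasureTheory
open Pool.Agent.H159R3.NV
open Pool.Agent.Q72.TR (Tm Nb Nb_eq CharT wgt wgt_nonneg Tm_int eval_bound norm_le_coord zs zz mem_zz
  L_le_Tm jen fin_zeros one_le_oo oo tc not_finite_Ici eval_aeval_poly)
open Pool.Agent.Q72.SH (coord_diff eval_diff)

theorem poly_diff {N : ℕ} (p : Fin (N + 1) → Polynomial ℂ) {h : ℂ → ℂ} (hh : Differentiable ℂ h) :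
    Differentiable ℂ fun z j => (p j).eval (h z) := by
  rw [differentiable_pi]
  intro j
  exact (p j).differentiable.comp hh

/-- means of the logarithm between powers -/
theorem Tm_bounds {N : ℕ} {v : ℂ → Fin (N + 1) → ℂ} (hv : Differentiable ℂ v)
    (hv0 : ∀ z, v z ≠ 0) {h : ℂ → ℂ} (hh : Differentiable ℂ h) {D : ℕ} {c C : ℝ} (hc : 0 < c)
    (hC : 0 < C) (hb : ∀ z, c * ‖aff (h z)‖ ^ D ≤ ‖v z‖ ∧ ‖v z‖ ≤ C * ‖aff (h z)‖ ^ D) (r : ℝ) :
    D * Tm (fun z => aff (h z)) r + Real.log c ≤ Tm v r ∧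
      Tm v r ≤ D * Tm (fun z => aff (h z)) r + Real.log C := by
  have i1 := Tm_int (aff_diff hh) (fun z => aff_ne _) r
  have i2 := Tm_int hv hv0 r
  have i3 : CircleIntegrable (fun z => (D : ℝ) * Real.log ‖aff (h z)‖) 0 r := i1.const_fun_smul
  have e1 : ∀ c : ℝ, D * Tm (fun z => aff (h z)) r + Real.log c =
      Real.circleAverage (fun z => (D : ℝ) * Real.log ‖aff (h z)‖ + Real.log c) 0 r := by
    intro c
    rw [Real.circleAverage_fun_add i3 (circleIntegrable_const _ _ _), Real.circleAverage_const]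
    congr 1
    exact (Real.circleAverage_fun_smul (a := (D : ℝ)) (f := fun z => Real.log ‖aff (h z)‖)).symm
  have hap : ∀ z, 0 < ‖aff (h z)‖ := fun z => norm_pos_iff.2 (aff_ne _)
  have hlog : ∀ {c : ℝ}, 0 < c → ∀ z, (D : ℝ) * Real.log ‖aff (h z)‖ + Real.log c =
      Real.log (c * ‖aff (h z)‖ ^ D) := by
    intro c hc z
    rw [Real.log_mul hc.ne' (pow_pos (hap z) _).ne', Real.log_pow]
    ring
  rw [e1, e1]
  constructor
  · apply Real.circleAverage_mono (i3.add (circleIntegrable_const _ _ _)) i2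
    intro z _
    show (D : ℝ) * Real.log ‖aff (h z)‖ + Real.log c ≤ Real.log ‖v z‖
    rw [hlog hc]
    exact Real.log_le_log (mul_pos hc (pow_pos (hap z) _)) (hb z).1
  · apply Real.circleAverage_mono i2 (i3.add (circleIntegrable_const _ _ _))
    intro z _
    show Real.log ‖v z‖ ≤ (D : ℝ) * Real.log ‖aff (h z)‖ + Real.log C
    rw [hlog hC]
    exact Real.log_le_log (norm_pos_iff.2 (hv0 z)) (hb z).2

theorem Tm_aff {r : ℝ} (hr : 1 ≤ r) : Tm (fun z => aff z) r ≤ Real.log r := by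
  have i1 := Tm_int (aff_diff differentiable_fun_id) (fun z => aff_ne _) r
  apply Real.circleAverage_mono_on_of_le_circle i1
  intro z hz
  rw [mem_sphere_zero_iff_norm, abs_of_pos (by linarith)] at hz
  exact Real.log_le_log (norm_pos_iff.2 (aff_ne _)) (aff_norm_le hr hz.le)

theorem poly_case {N n : ℕ} {f : Fin (n + 1) → MvPolynomial (Fin (N + 1)) ℂ} {e : ℕ}
    (hf : ∀ i, (f i).IsHomogeneous e) {w : ℂ → Fin (N + 1) → ℂ} (hw : Differentiable ℂ w)
    (hw0 : ∀ z, w z ≠ 0) (hnc : ∃ z z', ∀ c : ℂ, w z ≠ c • w z') {u : ℂ → ℂ}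
    (hu : Differentiable ℂ u) (hu0 : ∀ z, u z ≠ 0) {p : Fin (N + 1) → Polynomial ℂ}
    (hp : ∀ z j, w z j = u z * (p j).eval z) (hne : ∀ i, ∃ y, eval (w y) (f i) ≠ 0) {ε : ℝ}
    (hε : 0 < ε) (hexp : Tra (fun z j => (p j).eval (Complex.exp z)) →
      Out ε f (fun z j => (p j).eval (Complex.exp z))) : Out (ε / 2) f w := by
  classical
  have hwp : ∀ z, w z = u z • fun j => (p j).eval z := fun z => funext fun j => hp z j
  have hp0 : ∀ z, ∃ j, (p j).eval z ≠ 0 := by
    intro z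
    by_contra hcon
    push Not at hcon
    apply hw0 z
    funext j
    rw [hp, hcon, mul_zero]
    rfl
  have hp0' : ∀ z, (fun j => (p j).eval z) ≠ 0 := fun z => Function.ne_iff.2 (hp0 z)
  -- the degree
  obtain ⟨D, hD⟩ : ∃ D : ℕ, D = Finset.univ.sup fun j => (p j).natDegree := ⟨_, rfl⟩
  have hpD : ∀ j, (p j).natDegree ≤ D := fun j => by
    rw [hD]
    exact Finset.le_sup (f := fun j => (p j).natDegree) (Finset.mem_univ j)
  have hpD' : ∃ j, (p j).natDegree = D := by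
    obtain ⟨j, -, hj⟩ := Finset.exists_mem_eq_sup Finset.univ Finset.univ_nonempty
      fun j => (p j).natDegree
    exact ⟨j, by rw [hD, hj]⟩
  have hD0 : 0 < D := by
    by_contra h
    have hD0 : D = 0 := by omega
    have h1 : ∀ j z z', (p j).eval z = (p j).eval z' := by
      intro j z z'
      have h2 : (p j).natDegree = 0 := by have := hpD j; omega
      rw [Polynomial.eq_C_of_natDegree_eq_zero h2, Polynomial.eval_C, Polynomial.eval_C]
    obtain ⟨z, z', hzz⟩ := hnc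
    apply hzz (u z / u z')
    funext j
    rw [Pi.smul_apply, smul_eq_mul, hp, hp, h1 j z z']
    have := hu0 z'
    field_simp
  have hD1 : (1 : ℝ) ≤ D := by exact_mod_cast hD0
  obtain ⟨c, C, hc, hC, hb⟩ := poly_bounds p hp0 hD0 hpD hpD'
  obtain ⟨ψ, hψ⟩ : ∃ ψ : ℂ → Fin (N + 1) → ℂ, ψ = fun z j => (p j).eval (Complex.exp z) := ⟨_, rfl⟩
  rw [← hψ] at hexp
  have hψd : Differentiable ℂ ψ := by
    rw [hψ]
    exact poly_diff p Complex.differentiable_exp
  have hψ0 : ∀ z, ψ z ≠ 0 := fun z => by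
    rw [hψ]
    exact hp0' _
  have hψb := fun r => Tm_bounds hψd hψ0 Complex.differentiable_exp hc hC
    (fun z => by rw [hψ]; exact hb _) r
  -- the curve is transcendental
  have htr : Tra ψ := by
    intro A
    obtain ⟨K, hK⟩ := log_lin |A| (1 / 8) (abs_nonneg A) (by norm_num)
    refine ⟨max 1 (8 * (K + |Real.log c|)), fun r hr => ?_⟩
    have hr1 : 1 ≤ r := (le_max_left _ _).trans hr
    have hr2 : 8 * (K + |Real.log c|) ≤ r := (le_max_right _ _).trans hr
    have h1 := (hψb r).1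
    have h2 : r / 4 ≤ Tm (fun z => aff (Complex.exp z)) r := mm_ge (by linarith)
    have h3 : Tm (fun z => aff (Complex.exp z)) r ≤ D * Tm (fun z => aff (Complex.exp z)) r :=
      le_mul_of_one_le_left (by linarith) hD1
    have h4 := hK r hr1
    have h5 := mul_le_mul_of_nonneg_right (le_abs_self A) (Real.log_nonneg hr1)
    have h6 := neg_abs_le (Real.log c)
    linarith
  obtain ⟨X, hX, hXr⟩ := hexp htr
  -- the contact points
  obtain ⟨Q, hQ⟩ : ∃ Q : Fin (n + 1) → Polynomial ℂ, ∀ i, Q i = aeval p (f i) := ⟨_, fun _ => rfl⟩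
  have hQe : ∀ i z, (Q i).eval z = eval (fun j => (p j).eval z) (f i) := fun i z => by
    rw [hQ, eval_aeval_poly]
  have hwe : ∀ i z, eval (w z) (f i) = u z ^ e * (Q i).eval z := fun i z => by
    rw [hwp, eval_sm (hf i), hQe]
  have hQ0 : ∀ i, Q i ≠ 0 := by
    intro i h
    obtain ⟨y, hy⟩ := hne i
    apply hy
    rw [hwe, h, Polynomial.eval_zero, mul_zero]
  obtain ⟨M, hM⟩ : ∃ M : Finset ℂ, ∀ z, z ∈ M ↔ ∃ i, (Q i).eval z = 0 := by
    refine ⟨Finset.univ.biUnion fun i => (Q i).roots.toFinset, fun z => ?_⟩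
    simp only [Finset.mem_biUnion, Finset.mem_univ, true_and, Multiset.mem_toFinset]
    exact exists_congr fun i => by rw [Polynomial.mem_roots (hQ0 i), Polynomial.IsRoot.def]
  have hMw : ∀ z, (∃ i, eval (w z) (f i) = 0) ↔ z ∈ M := by
    intro z
    rw [hM]
    refine exists_congr fun i => ?_
    rw [hwe, mul_eq_zero]
    exact ⟨fun h => h.resolve_left (pow_ne_zero _ (hu0 z)), fun h => Or.inr h⟩
  have hMψ : ∀ z, (∃ i, eval (ψ z) (f i) = 0) ↔ Complex.exp z ∈ M := by
    intro z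
    rw [hM]
    refine exists_congr fun i => ?_
    rw [hQe, hψ]
  -- the counting function of the curve
  have hcw : ∀ r, 1 ≤ r → (∀ x ∈ M, ‖x‖ ≤ r) →
      M.card * Real.log r - ∑ x ∈ M, |Real.log ‖x‖| ≤ CountD f w r := by
    intro r hr hMr
    have h1 : CountD f w r = ∑ x ∈ M, wgt r x := by
      unfold CountD
      rw [← finsum_mem_coe_finset]
      have : {x | ∃ i, eval (w x) (f i) = 0} = (M : Set ℂ) := by
        ext x
        exact hMw x
      rw [this]
    rw [h1, ← nsmul_eq_mul, ← Finset.sum_const, ← Finset.sum_sub_distrib]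
    refine Finset.sum_le_sum fun x hx => ?_
    unfold wgt
    have h2 := abs_nonneg (Real.log ‖x‖)
    by_cases hx0 : x = 0
    · rw [if_pos hx0]
      linarith
    · rw [if_neg hx0, if_pos (hMr x hx), Real.log_div (by linarith) (norm_ne_zero_iff.2 hx0)]
      have := le_abs_self (Real.log ‖x‖)
      linarith
  -- the counting function of the composition with the exponential function
  have hec := fun y : ℂ => exp_count y
  choose cc hcc using hec
  have hcψ : ∀ r, 1 ≤ r → CountD f ψ r ≤ M.card * mm r + ∑ y ∈ M, cc y := by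
    intro r hr
    have hneψ : ∀ i, ∃ y, eval (ψ y) (f i) ≠ 0 := by
      intro i
      obtain ⟨ζ, hζ⟩ := Infinite.exists_notMem_finset (insert 0 (Q i).roots.toFinset)
      rw [Finset.mem_insert, not_or, Multiset.mem_toFinset, Polynomial.mem_roots (hQ0 i)] at hζ
      refine ⟨Complex.log ζ, ?_⟩
      rw [hψ]
      simp only
      rw [Complex.exp_log hζ.1, ← hQe]
      exact hζ.2
    have hg := g_diff f hψd
    have hgQ : ∃ y, eval ((fun z i => eval (ψ z) (f i)) y)
        (1 : MvPolynomial (Fin (n + 1)) ℂ) ≠ 0 := ⟨0, eval_one _⟩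
    rw [countD_eq hneψ, Nb_eq hg hgQ (by linarith)]
    have hzz : ∀ x, x ∈ zz hg hgQ r ↔ ‖x‖ ≤ r ∧ Complex.exp x ∈ M := by
      intro x
      rw [mem_zz, mem_zs_one hneψ]
      exact and_congr_right fun _ => hMψ x
    rw [← Finset.sum_fiberwise_of_maps_to (s := zz hg hgQ r) (t := M) (g := Complex.exp)
      (fun x hx => ((hzz x).1 hx).2), ← nsmul_eq_mul, ← Finset.sum_const, ← Finset.sum_add_distrib]
    refine Finset.sum_le_sum fun y hy => ?_
    refine hcc y r hr _ fun x => ?_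
    rw [Finset.mem_filter, hzz]
    constructor
    · rintro ⟨⟨h1, _⟩, h2⟩
      exact ⟨h1, h2⟩
    · rintro ⟨h1, h2⟩
      exact ⟨⟨h1, by rw [h2]; exact hy⟩, h2⟩
  -- comparison of the degrees
  have hdeg : ε * D ≤ M.card := by
    by_contra hcon
    rw [not_le] at hcon
    obtain ⟨δ, hδ⟩ : ∃ δ : ℝ, δ = ε * D - M.card := ⟨_, rfl⟩
    have hδ0 : 0 < δ := by rw [hδ]; linarith
    obtain ⟨A, hA⟩ : ∃ A : ℝ, A = ∑ y ∈ M, cc y + ε * (Real.log ‖ψ 0‖ - Real.log c) := ⟨_, rfl⟩
    obtain ⟨r, hr, hrX⟩ := not_finite_Ici hX (max 1 (4 * (|A| + 1) / δ))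
    have hr1 : 1 ≤ r := (le_max_left _ _).trans hr
    have hr2 : 4 * (|A| + 1) / δ ≤ r := (le_max_right _ _).trans hr
    have h1 := hXr r (by linarith) hrX
    have h2 := hcψ r hr1
    have h3 := (hψb r).1
    have h4 : CharT ψ r = Tm ψ r - Real.log ‖ψ 0‖ := rfl
    rw [h4] at h1
    have h5 := mul_le_mul_of_nonneg_left h3 hε.le
    have h6 : r / 4 ≤ mm r := mm_ge (by linarith)
    have h7 : δ * mm r ≤ A := by
      rw [hδ, hA]
      unfold mm at h2 ⊢
      nlinarith
    have h8 : δ * (r / 4) ≤ δ * mm r := mul_le_mul_of_nonneg_left h6 hδ0.le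
    rw [div_le_iff₀ hδ0] at hr2
    have h9 := le_abs_self A
    linarith
  have hMc : (0 : ℝ) < M.card := lt_of_lt_of_le (by positivity) hdeg
  -- the characteristic of the curve
  have hL : ∀ r, L u r = Real.log ‖u 0‖ := fun r =>
    AnalyticOnNhd.circleAverage_log_norm_of_ne_zero (R := r) (c := 0) (g := u)
      (fun z _ => hu.analyticAt z) (fun z _ => hu0 z)
  have hpd : Differentiable ℂ fun z j => (p j).eval z := poly_diff p differentiable_fun_id
  have hTw : ∀ r, Tm w r = Real.log ‖u 0‖ + Tm (fun z j => (p j).eval z) r := by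
    intro r
    rw [← hL r]
    unfold Tm L
    rw [← Real.circleAverage_fun_add (ci_log (mero_of_diff hu) r) (Tm_int hpd hp0' r)]
    congr 1
    funext z
    rw [hwp, norm_smul, Real.log_mul (norm_ne_zero_iff.2 (hu0 z)) (norm_ne_zero_iff.2 (hp0' z))]
  have hTle : ∀ r, 1 ≤ r → CharT w r ≤ D * Real.log r + (Real.log ‖u 0‖ + Real.log C -
      Real.log ‖w 0‖) := by
    intro r hr
    have h1 := (Tm_bounds hpd hp0' differentiable_fun_id hc hC hb r).2
    have h2 := mul_le_mul_of_nonneg_left (Tm_aff hr) (Nat.cast_nonneg (α := ℝ) D)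
    have h3 : CharT w r = Tm w r - Real.log ‖w 0‖ := rfl
    rw [h3, hTw]
    linarith
  obtain ⟨A1, hA1⟩ : ∃ A1 : ℝ, A1 = Real.log ‖u 0‖ + Real.log C - Real.log ‖w 0‖ := ⟨_, rfl⟩
  obtain ⟨A2, hA2⟩ : ∃ A2 : ℝ, A2 = ∑ x ∈ M, |Real.log ‖x‖| := ⟨_, rfl⟩
  rw [← hA1] at hTle
  rw [← hA2] at hcw
  have hA20 : 0 ≤ A2 := by
    rw [hA2]
    exact Finset.sum_nonneg fun x _ => abs_nonneg _
  obtain ⟨R1, hR1⟩ : ∃ R1 : ℝ, R1 = max (max 1 (∑ x ∈ M, ‖x‖))
      (Real.exp ((ε * |A1| + 2 * A2) / ε)) := ⟨_, rfl⟩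
  refine ⟨Set.Icc 0 R1, by rw [Real.volume_Icc]; exact ENNReal.ofReal_lt_top, fun r hr hrX => ?_⟩
  have hrR : R1 < r := by
    by_contra h
    exact hrX ⟨hr.le, not_lt.1 h⟩
  rw [hR1] at hrR
  have hr1 : 1 ≤ r := ((le_max_left _ _).trans (le_max_left _ _)).trans hrR.le
  have hr2 : ∑ x ∈ M, ‖x‖ ≤ r := ((le_max_right _ _).trans (le_max_left _ _)).trans hrR.le
  have hr3 : (ε * |A1| + 2 * A2) / ε ≤ Real.log r := by
    rw [Real.le_log_iff_exp_le (by linarith)]
    exact (le_max_right _ _).trans hrR.le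
  have h1 := hcw r hr1 fun x hx => (Finset.single_le_sum (f := fun x : ℂ => ‖x‖)
    (fun x _ => norm_nonneg x) hx).trans hr2
  have h2 := hTle r hr1
  have h3 : 0 ≤ Real.log r := Real.log_nonneg hr1
  have h4 := mul_le_mul_of_nonneg_right hdeg h3
  rw [div_le_iff₀ hε] at hr3
  have h5 : ε / 2 * CharT w r ≤ ε / 2 * (D * Real.log r + A1) :=
    mul_le_mul_of_nonneg_left h2 (by positivity)
  have h6 : Real.log r ≤ D * Real.log r := le_mul_of_one_le_left h3 hD1
  have h7 : ε * Real.log r ≤ ε * (D * Real.log r) := mul_le_mul_of_nonneg_left h6 hε.le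
  have h8 : ε * A1 ≤ ε * |A1| := mul_le_mul_of_nonneg_left (le_abs_self A1) hε.le
  linarith

end Pool.Agent.Q72.NW
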