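import Pool.Agent.Q72.NW.Circ

/-!
Good radii outside of a set of finite measure.
-/

set_option autoImplicit false

namespace Pool.Agent.Q72.NW

open Filter Metric Set Topology Pool.Agent.W603.BP Pool.Agent.H159R3.NV MeasureTheory
open Pool.Agent.Y192.OG (Curve Rad Lau Le)
open Pool.Agent.Q72.TR (Tm Nb Sm Sm_le Sm_mono Tm_le_Sm tc tc_le Nb_comp Nb_le Nb_nonneg borel)
open Pool.Agent.Q72.SH (coord_diff eval_diff)

variable {n : ℕ} {g : ℂ → Fin (n + 1) → ℂ}
  (hg : Differentiable ℂ g) (h0 : ∀ z, g z ≠ 0) (hne : ∀ i, ∃ y, g y i ≠ 0)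

include hg h0 hne in
/-- the monotone function comparable to the characteristic -/
theorem exists_u : ∃ (u : ℝ → ℝ) (cu : ℝ), 1 ≤ cu ∧ (∀ r, 1 ≤ r → Tm g r ≤ u r) ∧
    (∀ r, 1 ≤ r → 1 ≤ u r) ∧ (∀ r R, 1 ≤ r → r ≤ R → u r ≤ u R) ∧
    ∀ r, 1 ≤ r → u r ≤ (n + 1) * Tm g r + cu := by
  set t : ℝ := tc fun z => g z 0 with ht
  have hn : (0 : ℝ) ≤ n := Nat.cast_nonneg n
  set cu : ℝ := 1 + (n + 1) * |t| with hcu
  have hcu1 : 1 ≤ cu := by
    rw [hcu]
    have : 0 ≤ (n + 1) * |t| := by positivity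
    linarith
  refine ⟨fun r => Sm g 0 r + cu, cu, hcu1, ?_, ?_, ?_, ?_⟩
  · intro r hr
    have h1 := Tm_le_Sm hg h0 (hne 0) hr
    have h2 := neg_abs_le t
    have h3 : -(n * t) ≤ n * |t| := by nlinarith
    rw [hcu]
    have := abs_nonneg t
    nlinarith
  · intro r hr
    have h1 : ∀ l, t ≤ T2 (fun z => g z 0) (fun z => g z l) r := fun l =>
      (tc_le (coord_diff hg 0) (hne 0) hr).trans (T2_ge_L0 _ _ r)
    have h2 : (n + 1) * t ≤ Sm g 0 r := by
      unfold Sm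
      calc (n + 1) * t = ∑ _l : Fin (n + 1), t := by simp
        _ ≤ _ := Finset.sum_le_sum fun l _ => h1 l
    have h3 := neg_abs_le t
    rw [hcu]
    nlinarith
  · intro r R hr hrR
    have := Sm_mono hg (hne 0) (by linarith : 0 < r) hrR
    simp only
    linarith
  · intro r hr
    have := Sm_le hg h0 (hne 0) (by linarith : r ≠ 0)
    simp only
    linarith

theorem step (u : ℝ → ℝ) (cu : ℝ) (hTle : ∀ r, 1 ≤ r → Tm g r ≤ u r)
    (hu1 : ∀ r, 1 ≤ r → 1 ≤ u r) (hum : ∀ r R, 1 ≤ r → r ≤ R → u r ≤ u R)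
    (F : Lau n) (hF : (cur g hg h0 hne).ev F ≠ 0) : ∃ B Cl CN : ℝ, 1 ≤ B ∧ 0 ≤ Cl ∧ 0 ≤ CN ∧
    ∀ r : ℝ, 3 ≤ r → u (r + 1 / u r) ≤ 2 * u r → ∃ s ε : ℝ,
      r ≤ s ∧ s ≤ r + 1 ∧ 0 < ε ∧ ε ≤ 1 ∧ Real.log (1 / ε) ≤ Cl + 3 * Real.log r + 10 * Real.log (u r) ∧
      Nb g 1 s ≤ Nb g 1 r + CN ∧
      (∀ z, ‖z‖ = s → ∀ y ∈ closedBall z ε, y ∈ (cur g hg h0 hne).U) ∧
      (∀ z, ‖z‖ = s → ∀ i j, ∀ y ∈ closedBall z ε, ‖(cur g hg h0 hne).X j y /
        (cur g hg h0 hne).X i y‖ ≤ B * ‖(cur g hg h0 hne).X j z / (cur g hg h0 hne).X i z‖) ∧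
      (∀ z, ‖z‖ = s → ∀ y ∈ closedBall z ε, ‖(cur g hg h0 hne).val ((cur g hg h0 hne).ev F) y‖ ≤
        B * ‖(cur g hg h0 hne).val ((cur g hg h0 hne).ev F) z‖) := by
  obtain ⟨B, c, hB, hc, hgood⟩ := circ hg h0 hne F hF
  have hgQ : ∃ y, MvPolynomial.eval (g y) (1 : MvPolynomial (Fin (n + 1)) ℂ) ≠ 0 :=
    ⟨0, eval_one _⟩
  obtain ⟨cN, hcN, hNle⟩ := Nb_le (MvPolynomial.isHomogeneous_one _ _) hg h0 hgQ
  have hn : (0 : ℝ) ≤ n := Nat.cast_nonneg n
  refine ⟨B, Real.log (c * 16384), (n + 2) * (2 + cN), hB, Real.log_nonneg (by nlinarith),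
    by positivity, ?_⟩
  intro r hr3 hub
  have hr : 1 ≤ r := by linarith
  set U : ℝ := u r with hU
  have hU1 : 1 ≤ U := hu1 r hr
  have hU0 : 0 < U := by linarith
  set δ : ℝ := 1 / (8 * U ^ 2) with hδ
  have hδ0 : 0 < δ := by positivity
  have hδU : δ * (8 * U ^ 2) = 1 := by rw [hδ]; field_simp
  have hδ8 : 8 * U * δ ≤ 1 / U := by
    rw [le_div_iff₀ hU0]
    nlinarith
  have hδ1 : δ ≤ 1 / 8 := by
    have hU2 : 1 ≤ U ^ 2 := one_le_pow₀ hU1
    rw [hδ]
    exact one_div_le_one_div_of_le (by norm_num) (by linarith)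
  set R : ℝ := r + 1 / U with hR
  have hUi : 1 / U ≤ 1 := by rw [div_le_one hU0]; exact hU1
  have hUi0 : 0 < 1 / U := by positivity
  have h8δ : 8 * δ ≤ 1 / U := by nlinarith
  have hrR : r + 4 * δ ≤ R := by rw [hR]; linarith
  have hr4 : 1 ≤ r + 4 * δ := by linarith
  have hTR : Tm g (r + 4 * δ) ≤ 2 * U := by
    have h1 := hTle _ hr4
    have h2 := hum _ _ hr4 hrR
    linarith
  obtain ⟨s, ε, hrs, hsδ, hε0, hε1, hεX, k1, k2, k3⟩ :=
    hgood r δ (2 * U) hr3 hδ0 (by linarith) hTR (by linarith)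
  refine ⟨s, ε, hrs, by linarith, hε0, hε1, ?_, ?_, k1, k2, k3⟩
  -- the error
  · have h2 : c * (r ^ 3 * (2 * U) ^ 2 / δ ^ 4) = c * 16384 * (r ^ 3 * U ^ 10) := by
      rw [hδ]
      field_simp
      ring
    rw [h2] at hεX
    have h3 := Real.log_le_log (by positivity) hεX
    have hr0 : 0 < r := by linarith
    rw [Real.log_mul (show c * 16384 ≠ 0 by positivity) (show r ^ 3 * U ^ 10 ≠ 0 by positivity),
      Real.log_mul (show r ^ 3 ≠ 0 by positivity) (show U ^ 10 ≠ 0 by positivity),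
      Real.log_pow, Real.log_pow] at h3
    push_cast at h3
    linarith
  -- the counting function
  · have hsR : s < R := by
      rw [hR]
      linarith
    have hs1 : 1 ≤ s := hr.trans hrs
    have hR1 : 1 ≤ R := by linarith
    have h2 := Nb_comp hg hgQ hr hrs hsR
    have h3 := (hNle R hR1).2
    have h4 := hTle R hR1
    have hNR : Nb g 1 R ≤ (n + 2) * (2 * U + cN) := by
      refine h3.trans ?_
      rw [Nat.cast_zero, add_zero]
      refine mul_le_mul_of_nonneg_left ?_ (by positivity)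
      linarith
    have hr0 : 0 < r := by linarith
    have hs0 : 0 < s := by linarith
    have hR0 : 0 < R := by linarith
    have h5 : Real.log (s / r) ≤ δ / r := by
      have h6 := Real.log_le_sub_one_of_pos (show 0 < s / r by positivity)
      have h7 : s / r - 1 = (s - r) / r := by field_simp
      rw [h7] at h6
      exact h6.trans (div_le_div_of_nonneg_right (by linarith) hr0.le)
    have h6 : 7 / 2 * (δ / r) * U ≤ Real.log (R / s) := by
      have h7 := Real.one_sub_inv_le_log_of_pos (show 0 < R / s by positivity)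
      rw [inv_div] at h7
      have h8 : 1 - s / R = (R - s) / R := by field_simp
      have h9 : 7 * δ * U ≤ R - s := by
        have h10 : 8 * U * δ = 1 / U := by
          rw [hδ]
          field_simp
        have h11 : δ ≤ U * δ := le_mul_of_one_le_left hδ0.le hU1
        rw [hR]
        linarith
      have h10 : R ≤ 2 * r := by rw [hR]; linarith
      have h11 : 7 / 2 * (δ / r) * U = (7 * δ * U) / (2 * r) := by field_simp
      rw [h8] at h7
      refine le_trans ?_ h7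
      rw [h11]
      exact div_le_div₀ (by linarith [mul_pos hδ0 hU0]) h9 hR0 h10
    have hlogpos : 0 < Real.log (R / s) := lt_of_lt_of_le (by positivity) h6
    have h7 : Real.log (s / r) / Real.log (R / s) ≤ 1 / U := by
      rw [div_le_iff₀ hlogpos]
      have h8 : 1 / U * (7 / 2 * (δ / r) * U) = 7 / 2 * (δ / r) := by field_simp
      have h9 := mul_le_mul_of_nonneg_left h6 hUi0.le
      rw [h8] at h9
      have h10 : 0 < δ / r := by positivity
      linarith
    have h8 : Real.log (s / r) / Real.log (R / s) * Nb g 1 R ≤ 1 / U * ((n + 2) * (2 * U + cN)) :=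
      mul_le_mul h7 hNR (Nb_nonneg hg hgQ hR1) hUi0.le
    have h9 : 1 / U * ((n + 2) * (2 * U + cN)) ≤ (n + 2) * (2 + cN) := by
      have h10 : 1 / U * ((n + 2) * (2 * U + cN)) = (n + 2) * (2 + cN * (1 / U)) := by
        field_simp
      rw [h10]
      apply mul_le_mul_of_nonneg_left _ (by positivity)
      have := mul_le_mul_of_nonneg_left hUi hcN
      linarith
    linarith

end Pool.Agent.Q72.NW
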