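import Pool.Agent.Q72.NW.Cmp

/-!
Curves of logarithmic growth are rational.
-/

set_option autoImplicit false

namespace Pool.Agent.Q72.NW

open Filter Metric Set Topology Pool.Agent.H159R3.NV
open Pool.Agent.Q72.TR (Tm Tm_int tc tc_le L_le_Tm T2_le' norm_le_coord)
open Pool.Agent.Q72.SH (coord_diff)

theorem P_ex (Z : List ℂ) : ∃ y, P Z y ≠ 0 := by
  classical
  obtain ⟨y, hy⟩ := Infinite.exists_notMem_finset Z.toFinset
  exact ⟨y, P_ne Z y fun a ha h => hy (by rw [List.mem_toFinset, h]; exact ha)⟩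

theorem L_P (Z : List ℂ) {R : ℝ} (hR : 0 < R) (hZ : ∀ a ∈ Z, ‖a‖ ≤ R) :
    L (P Z) R = Z.length * Real.log R := by
  induction Z with
  | nil =>
    unfold L
    simp [P_nil, Real.circleAverage_const]
  | cons a Z ih =>
    have e : P (a :: Z) = fun z => (z - a) * P Z z := funext (P_cons a Z)
    obtain ⟨y, hy⟩ := P_ex Z
    have h1 : L (fun z => (z - a) * P Z z) R = L (fun z => z - a) R + L (P Z) R :=
      L_mul (f := fun z => z - a) (g := P Z) (differentiable_id.sub_const a) (P_diff Z)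
        (x := a + 1) (y := y) (by simp) hy hR.ne'
    rw [e, h1, L_lin hR (hZ a List.mem_cons_self),
      ih fun b hb => hZ b (List.mem_cons_of_mem _ hb)]
    push_cast [List.length_cons]
    ring

theorem list_bd (Z : List ℂ) : ∃ R : ℝ, ∀ a ∈ Z, ‖a‖ ≤ R := by
  induction Z with
  | nil => exact ⟨0, by simp⟩
  | cons a Z ih =>
    obtain ⟨R, hR⟩ := ih
    refine ⟨max ‖a‖ R, fun b hb => ?_⟩
    rcases List.mem_cons.mp hb with rfl | hb
    · exact le_max_left _ _
    · exact (hR b hb).trans (le_max_right _ _)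

theorem fac {F : ℂ → ℂ} (hF : Differentiable ℂ F) (h0 : ∃ y, F y ≠ 0) {C : ℝ}
    (hC : ∀ R : ℝ, ∃ r, R ≤ r ∧ L F r ≤ C * Real.log r + C) :
    ∃ (Z : List ℂ) (k : ℂ → ℂ), Differentiable ℂ k ∧ (∀ z, F z = P Z z * k z) ∧
      ∀ z, k z ≠ 0 := by
  by_contra hcon
  have step : ∀ n : ℕ, ∃ (Z : List ℂ) (v : ℂ → ℂ), Z.length = n ∧ Differentiable ℂ v ∧
      ∀ z, F z = P Z z * v z := by
    intro n
    induction n with
    | zero => exact ⟨[], F, rfl, hF, fun z => by rw [P_nil, one_mul]⟩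
    | succ n ih =>
      obtain ⟨Z, v, hlen, hv, hfac⟩ := ih
      obtain ⟨a, ha⟩ : ∃ a, v a = 0 := by
        by_contra hne
        push Not at hne
        exact hcon ⟨Z, v, hv, hfac, hne⟩
      refine ⟨a :: Z, dslope v a, by simp [hlen], dslope_diff hv a, fun z => ?_⟩
      rw [hfac, P_cons, dslope_fac ha z]
      ring
  obtain ⟨n, hn⟩ := exists_nat_ge (C + 1)
  obtain ⟨Z, v, hlen, hv, hfac⟩ := step n
  have hv0 : ∃ y, v y ≠ 0 := by
    obtain ⟨y, hy⟩ := h0
    exact ⟨y, fun h => hy (by rw [hfac, h, mul_zero])⟩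
  obtain ⟨R1, hR1⟩ := list_bd Z
  obtain ⟨r, hr, hrC⟩ := hC (max (max 1 R1) (Real.exp (C + 1 - tc v)))
  have hr1 : 1 ≤ r := ((le_max_left _ _).trans (le_max_left _ _)).trans hr
  have hr2 : R1 ≤ r := ((le_max_right _ _).trans (le_max_left _ _)).trans hr
  have hr3 : C + 1 - tc v ≤ Real.log r := by
    rw [Real.le_log_iff_exp_le (by linarith)]
    exact (le_max_right _ _).trans hr
  obtain ⟨y, hy⟩ := P_ex Z
  obtain ⟨y', hy'⟩ := hv0
  have h1 : L F r = n * Real.log r + L v r := by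
    have e : F = fun z => P Z z * v z := funext hfac
    rw [e, L_mul (P_diff Z) hv hy hy' (by linarith), L_P Z (by linarith)
      fun a ha => (hR1 a ha).trans hr2, hlen]
  have h2 := tc_le hv ⟨y', hy'⟩ hr1
  have h3 : 0 ≤ Real.log r := Real.log_nonneg hr1
  have h4 : Real.log r ≤ (n - C) * Real.log r := le_mul_of_one_le_left h3 (by linarith)
  linarith

theorem const_of {k : ℂ → ℂ} (hk : Differentiable ℂ k) (hne : ∀ z, k z ≠ 0) {C : ℝ}
    (hC : ∀ R : ℝ, ∃ r, R ≤ r ∧
      Real.circleAverage (fun z => |Real.log ‖k z‖|) 0 r ≤ C * Real.log r + C) (z w : ℂ) :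
    k z = k w := by
  have h1 : ∀ z w : ℂ, Real.log ‖k w‖ = Real.log ‖k z‖ := by
    intro z w
    by_contra hcon
    have hpos : 0 < |Real.log ‖k w‖ - Real.log ‖k z‖| := abs_pos.2 (sub_ne_zero.2 hcon)
    obtain ⟨η, hη⟩ : ∃ η, η = |Real.log ‖k w‖ - Real.log ‖k z‖| / 4 := ⟨_, rfl⟩
    have hη0 : 0 < η := by rw [hη]; positivity
    obtain ⟨A, hA⟩ : ∃ A, A = 8 * ‖w - z‖ * |C| := ⟨_, rfl⟩
    have hA0 : 0 ≤ A := by rw [hA]; positivity
    obtain ⟨K, hK⟩ := log_lin A η hA0 hη0
    obtain ⟨r, hr, hrC⟩ := hC (max (max 1 (2 * max ‖w‖ ‖z‖)) ((K + A) / η))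
    have hr1 : 1 ≤ r := ((le_max_left _ _).trans (le_max_left _ _)).trans hr
    have hr2 : 2 * max ‖w‖ ‖z‖ ≤ r := ((le_max_right _ _).trans (le_max_left _ _)).trans hr
    have hr3 : (K + A) / η ≤ r := (le_max_right _ _).trans hr
    have hr0 : 0 < r := by linarith
    have hw := le_max_left ‖w‖ ‖z‖
    have hz := le_max_right ‖w‖ ‖z‖
    have h2 := poisson_diff (k := k) hr0 (half_pos hr0) (fun z _ => hk.analyticAt z)
      (fun z _ => hne z) (w := w) (z := z) (by linarith) (by linarith)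
    have h3 : 2 * r * ‖w - z‖ / (r / 2) ^ 2 = 8 * ‖w - z‖ / r := by
      field_simp
      ring
    rw [h3] at h2
    have h4 : C * Real.log r + C ≤ |C| * Real.log r + |C| := by
      have := mul_le_mul_of_nonneg_right (le_abs_self C) (Real.log_nonneg hr1)
      linarith [le_abs_self C]
    have h5 : 8 * ‖w - z‖ / r * Real.circleAverage (fun z => |Real.log ‖k z‖|) 0 r ≤
        8 * ‖w - z‖ / r * (|C| * Real.log r + |C|) :=
      mul_le_mul_of_nonneg_left (hrC.trans h4) (by positivity)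
    have h6 : 8 * ‖w - z‖ / r * (|C| * Real.log r + |C|) = (A * Real.log r + A) / r := by
      rw [hA]
      ring
    have h7 := hK r hr1
    rw [div_le_iff₀ hη0] at hr3
    have h8 : (A * Real.log r + A) / r ≤ 2 * η := by
      rw [div_le_iff₀ hr0]
      linarith
    have h9 : |Real.log ‖k w‖ - Real.log ‖k z‖| ≤ 2 * η := by linarith
    rw [hη] at h9
    linarith
  have h2 : ∀ z, ‖k z‖ ≤ ‖k 0‖ := fun z =>
    (Real.log_injOn_pos (Set.mem_Ioi.2 (norm_pos_iff.2 (hne z)))
      (Set.mem_Ioi.2 (norm_pos_iff.2 (hne 0))) (h1 0 z)).le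
  exact hk.apply_eq_apply_of_bounded (isBounded_iff_forall_norm_le.2
    ⟨‖k 0‖, by rintro _ ⟨x, rfl⟩; exact h2 x⟩) z w

theorem rational {N : ℕ} {w : ℂ → Fin (N + 1) → ℂ} (hw : Differentiable ℂ w)
    (hw0 : ∀ z, w z ≠ 0) (h : ¬ Tra w) :
    ∃ (u : ℂ → ℂ) (Q : Fin (N + 1) → Polynomial ℂ), Differentiable ℂ u ∧ (∀ z, u z ≠ 0) ∧
      ∀ z j, w z j = u z * (Q j).eval z := by
  classical
  unfold Tra at h
  push Not at h
  obtain ⟨C, hC⟩ := h
  obtain ⟨j0, hj0'⟩ := Function.ne_iff.1 (hw0 0)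
  have hj0 : ∃ y, w y j0 ≠ 0 := ⟨0, hj0'⟩
  have hd : ∀ j, Differentiable ℂ fun z => w z j := coord_diff hw
  have hfac : ∀ j, (∃ y, w y j ≠ 0) → ∃ (Z : List ℂ) (k : ℂ → ℂ), Differentiable ℂ k ∧
      (∀ z, w z j = P Z z * k z) ∧ ∀ z, k z ≠ 0 := by
    intro j hj
    refine fac (hd j) hj (C := |C|) fun R => ?_
    obtain ⟨r, hr, hrC⟩ := hC (max 1 R)
    have hr1 : 1 ≤ r := (le_max_left _ _).trans hr
    refine ⟨r, (le_max_right _ _).trans hr, ?_⟩
    have h1 := L_le_Tm hw hw0 (hd j) hj one_pos (k := 1)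
      (fun z => by rw [one_mul, pow_one]; exact norm_le_coord z j) (r := r) (by linarith)
    rw [Nat.cast_one, one_mul, Real.log_one, add_zero] at h1
    have h2 := mul_le_mul_of_nonneg_right (le_abs_self C) (Real.log_nonneg hr1)
    linarith [abs_nonneg C]
  obtain ⟨Z0, k0, hk0, hf0, hn0⟩ := hfac j0 hj0
  have key : ∀ j, (∃ y, w y j ≠ 0) → ∃ Q : Polynomial ℂ, ∀ z, w z j = k0 z * Q.eval z := by
    intro j hj
    obtain ⟨Z, k, hk, hf, hn⟩ := hfac j hj
    have hkd : Differentiable ℂ fun z => k z / k0 z := fun z =>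
      (hk z).fun_div (hk0 z) (hn0 z)
    have hkne : ∀ z, k z / k0 z ≠ 0 := fun z => div_ne_zero (hn z) (hn0 z)
    obtain ⟨R1, hR1⟩ := list_bd Z
    obtain ⟨R2, hR2⟩ := list_bd Z0
    obtain ⟨M, hM⟩ : ∃ M : ℝ, M = 2 * |C| + |tc fun z => w z j| + |tc fun z => w z j0| +
        4 * (Z.length + Z0.length) := ⟨_, rfl⟩
    have hconst := const_of hkd hkne (C := M) fun R => by
      obtain ⟨r, hr, hrC⟩ := hC (max (max 2 R) (max R1 R2))
      have hr2 : 2 ≤ r := ((le_max_left _ _).trans (le_max_left _ _)).trans hr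
      have hr1 : 1 ≤ r := by linarith
      have hrR1 : R1 ≤ r := ((le_max_left _ _).trans (le_max_right _ _)).trans hr
      have hrR2 : R2 ≤ r := ((le_max_right _ _).trans (le_max_right _ _)).trans hr
      have hr0 : r ≠ 0 := by linarith
      refine ⟨r, ((le_max_right _ _).trans (le_max_left _ _)).trans hr, ?_⟩
      obtain ⟨yj, hyj⟩ := hj
      obtain ⟨y0, hy0⟩ := hj0
      have i1 : CircleIntegrable (fun z => |Real.log ‖w z j / w z j0‖|) 0 r :=
        ci_abs (ci_log (quot_mero (hd j0) (hd j)) r)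
      have i2 : CircleIntegrable (fun z => |Real.log ‖P Z z‖|) 0 r :=
        ci_abs (ci_log (mero_of_diff (P_diff Z)) r)
      have i3 : CircleIntegrable (fun z => |Real.log ‖P Z0 z‖|) 0 r :=
        ci_abs (ci_log (mero_of_diff (P_diff Z0)) r)
      have i4 : CircleIntegrable (fun z => |Real.log ‖k z / k0 z‖|) 0 r :=
        ci_abs (ci_log (mero_of_diff hkd) r)
      have h1 : Real.circleAverage (fun z => |Real.log ‖k z / k0 z‖|) 0 r ≤
          Real.circleAverage (fun z => |Real.log ‖w z j / w z j0‖| + |Real.log ‖P Z z‖| +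
            |Real.log ‖P Z0 z‖|) 0 r := by
        apply avg_le_cod i4 ((i1.add i2).add i3) hr0
        filter_upwards [ne_cod (hd j) hyj r, ne_cod (hd j0) hy0 r] with z hz1 hz2
        rw [hf] at hz1
        rw [hf0] at hz2
        have a1 := left_ne_zero_of_mul hz1
        have a2 := left_ne_zero_of_mul hz2
        have e1 : Real.log ‖k z / k0 z‖ = Real.log ‖w z j / w z j0‖ - Real.log ‖P Z z‖ +
            Real.log ‖P Z0 z‖ := by
          rw [hf, hf0, norm_div, norm_div, norm_mul, norm_mul,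
            Real.log_div (norm_ne_zero_iff.2 (hn z)) (norm_ne_zero_iff.2 (hn0 z)),
            Real.log_div (mul_ne_zero (norm_ne_zero_iff.2 a1) (norm_ne_zero_iff.2 (hn z)))
              (mul_ne_zero (norm_ne_zero_iff.2 a2) (norm_ne_zero_iff.2 (hn0 z))),
            Real.log_mul (norm_ne_zero_iff.2 a1) (norm_ne_zero_iff.2 (hn z)),
            Real.log_mul (norm_ne_zero_iff.2 a2) (norm_ne_zero_iff.2 (hn0 z))]
          ring
        show |Real.log ‖k z / k0 z‖| ≤ |Real.log ‖w z j / w z j0‖| + |Real.log ‖P Z z‖| +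
          |Real.log ‖P Z0 z‖|
        rw [e1]
        exact (abs_add_le _ _).trans (add_le_add_left (abs_sub _ _) _)
      have h2 : Real.circleAverage (fun z => |Real.log ‖w z j / w z j0‖| + |Real.log ‖P Z z‖| +
            |Real.log ‖P Z0 z‖|) 0 r =
          Real.circleAverage (fun z => |Real.log ‖w z j / w z j0‖|) 0 r +
          Real.circleAverage (fun z => |Real.log ‖P Z z‖|) 0 r +
          Real.circleAverage (fun z => |Real.log ‖P Z0 z‖|) 0 r := by
        have i12 : CircleIntegrable (fun z => |Real.log ‖w z j / w z j0‖| +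
          |Real.log ‖P Z z‖|) 0 r := i1.add i2
        rw [Real.circleAverage_fun_add i12 i3, Real.circleAverage_fun_add i1 i2]
      have h3 := avg_abs_quot (hd j0) (hd j) hy0 hyj hr0
      have h4 := avg_abs_P Z hr1 fun a ha => (hR1 a ha).trans hrR1
      have h5 := avg_abs_P Z0 hr1 fun a ha => (hR2 a ha).trans hrR2
      have h6 := T2_le' hw hw0 (hd j0) (hd j) ⟨y0, hy0⟩ one_pos (K := 1)
          (fun z => by rw [one_mul, pow_one]; exact norm_le_coord z j0)
          (fun z => by rw [one_mul, pow_one]; exact norm_le_coord z j) hr0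
      rw [Real.log_one, add_zero, Nat.cast_one, one_mul] at h6
      have h7 := tc_le (hd j) ⟨yj, hyj⟩ hr1
      have h8 := tc_le (hd j0) ⟨y0, hy0⟩ hr1
      have h9 := neg_abs_le (tc fun z => w z j)
      have h10 := neg_abs_le (tc fun z => w z j0)
      have h11 : Real.log (2 * r) = Real.log 2 + Real.log r :=
        Real.log_mul (by norm_num) hr0
      have h12 : Real.log 2 ≤ 1 := by
        have := Real.log_le_sub_one_of_pos (show (0 : ℝ) < 2 by norm_num)
        linarith
      have h13 : 0 ≤ Real.log r := Real.log_nonneg hr1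
      have h14 : C * Real.log r ≤ |C| * Real.log r :=
        mul_le_mul_of_nonneg_right (le_abs_self C) h13
      rw [h11] at h4 h5
      have h15 : (Z.length : ℝ) * (2 * (Real.log 2 + Real.log r)) ≤
          Z.length * (2 * (1 + Real.log r)) :=
        mul_le_mul_of_nonneg_left (by linarith) (Nat.cast_nonneg _)
      have h16 : (Z0.length : ℝ) * (2 * (Real.log 2 + Real.log r)) ≤
          Z0.length * (2 * (1 + Real.log r)) :=
        mul_le_mul_of_nonneg_left (by linarith) (Nat.cast_nonneg _)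
      have h17 : 0 ≤ (Z.length : ℝ) := Nat.cast_nonneg _
      have h18 : 0 ≤ (Z0.length : ℝ) := Nat.cast_nonneg _
      have h19 : 0 ≤ |tc fun z => w z j| := abs_nonneg _
      have h20 : 0 ≤ |tc fun z => w z j0| := abs_nonneg _
      have h21 : 0 ≤ |C| := abs_nonneg _
      have g1 := mul_nonneg h17 h13
      have g2 := mul_nonneg h18 h13
      have g3 := mul_nonneg h19 h13
      have g4 := mul_nonneg h20 h13
      rw [hM]
      nlinarith
    obtain ⟨c, hc⟩ : ∃ c, c = k 0 / k0 0 := ⟨_, rfl⟩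
    refine ⟨Polynomial.C c * (Z.map fun a => Polynomial.X - Polynomial.C a).prod, fun z => ?_⟩
    have h1 : k z = c * k0 z := by
      have h2 := hconst z 0
      rw [← hc] at h2
      rwa [div_eq_iff (hn0 z)] at h2
    have h2 : ((Z.map fun a => Polynomial.X - Polynomial.C a).prod).eval z = P Z z := by
      unfold P
      rw [Polynomial.eval_list_prod, List.map_map]
      congr 1
      apply List.map_congr_left
      intro a _
      simp
    rw [Polynomial.eval_mul, Polynomial.eval_C, h2, hf, h1]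
    ring
  have hall : ∀ j, ∃ Q : Polynomial ℂ, ∀ z, w z j = k0 z * Q.eval z := by
    intro j
    by_cases hj : ∃ y, w y j ≠ 0
    · exact key j hj
    · push Not at hj
      exact ⟨0, fun z => by rw [hj, Polynomial.eval_zero, mul_zero]⟩
  choose Q hQ using hall
  exact ⟨k0, Q, hk0, hn0, fun z j => hQ j z⟩

end Pool.Agent.Q72.NW
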